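import Pool.Agent.H922R3.Arith

set_option autoImplicit false

open Finset

namespace Pool.Agent.H922R3

theorem arith' (α β : ℕ → ℝ) (hα1 : ∀ n, 1 ≤ α n) (hβ1 : ∀ n, 1 ≤ β n) (hαm : Monotone α)
    (B : ℝ) (hB : 1 ≤ B) (hαB : ∀ n, α (n + 1) ≤ B * α n) (j : ℕ)
    (hsub : ∀ m k, α (m + k) ≤ α m * α (k + j))
    (C : ℝ) (hC : 0 < C) (s L : ℕ)
    (E1 : ∀ I : ℕ, ∃ n₀, ∀ n ≥ n₀, ∑ i ∈ range I, β (i * L) * α (n - i * L - s) ≤ C * β (n + s))
    (n₁ : ℕ) (K₁ : ℝ) (hK₁0 : 0 < K₁) (h1 : ∀ m ≥ n₁, β m ≤ K₁ * α m) : False := by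
  have hBk : ∀ k : ℕ, 1 ≤ B ^ k := fun k => one_le_pow₀ hB
  have hpow := pow_step α B hB hαB
  -- upper bound of α by β
  obtain ⟨n₂, hn₂⟩ := E1 1
  obtain ⟨K₃, hK₃0, h3⟩ : ∃ K₃ > 0, ∀ m, α m ≤ K₃ * β m := by
    have hstep : ∀ m ≥ max n₁ n₂, α m ≤ (C * K₁ * B ^ (2 * s)) * α m ∧
        α m ≤ C * β (m + 2 * s) := by
      intro m hm
      have h2 := hn₂ (m + s) (by omega)
      rw [sum_range_one] at h2
      have e1 : m + s - 0 * L - s = m := by omega
      have e2 : m + s + s = m + 2 * s := by omega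
      rw [e1, e2, Nat.zero_mul] at h2
      have h4 : α m ≤ β 0 * α m := by nlinarith [hα1 m, hβ1 0]
      have h5 : α m ≤ C * β (m + 2 * s) := by linarith
      refine ⟨?_, h5⟩
      have h6 := h1 (m + 2 * s) (by omega)
      have h7 := hpow (2 * s) m
      calc α m ≤ C * β (m + 2 * s) := h5
        _ ≤ C * (K₁ * α (m + 2 * s)) := mul_le_mul_of_nonneg_left h6 hC.le
        _ ≤ C * (K₁ * (B ^ (2 * s) * α m)) :=
            mul_le_mul_of_nonneg_left (mul_le_mul_of_nonneg_left h7 hK₁0.le) hC.le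
        _ = _ := by ring
    set m₀ := max n₁ n₂ + 2 * s with hm₀
    refine ⟨max (C * B ^ (2 * s)) (α m₀), lt_max_of_lt_right (by linarith [hα1 m₀]), fun m => ?_⟩
    rcases le_total m₀ m with hm | hm
    · have h5 := (hstep (m - 2 * s) (by omega)).2
      have e : m - 2 * s + 2 * s = m := by omega
      rw [e] at h5
      have h7 := hpow (2 * s) (m - 2 * s)
      rw [e] at h7
      have h8 : B ^ (2 * s) * α (m - 2 * s) ≤ B ^ (2 * s) * (C * β m) :=
        mul_le_mul_of_nonneg_left h5 (by have := hBk (2 * s); linarith)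
      have h9 : (C * B ^ (2 * s)) * β m ≤ max (C * B ^ (2 * s)) (α m₀) * β m :=
        mul_le_mul_of_nonneg_right (le_max_left _ _) (by linarith [hβ1 m])
      calc α m ≤ B ^ (2 * s) * (C * β m) := h7.trans h8
        _ = (C * B ^ (2 * s)) * β m := by ring
        _ ≤ _ := h9
    · have h5 := hαm hm
      have h6 : α m₀ ≤ α m₀ * β m := by nlinarith [hα1 m₀, hβ1 m]
      have h9 : α m₀ * β m ≤ max (C * B ^ (2 * s)) (α m₀) * β m :=
        mul_le_mul_of_nonneg_right (le_max_right _ _) (by linarith [hβ1 m])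
      linarith
  -- the main contradiction
  set Q := C * K₁ * B ^ s * (K₃ * B ^ (j + s)) with hQ
  obtain ⟨I, hI⟩ := exists_nat_gt Q
  obtain ⟨n₃, hn₃⟩ := E1 I
  set n := max (max n₁ n₃) (I * L + s) with hn
  have hnI : I * L + s ≤ n := le_max_right _ _
  have h4 := hn₃ n ((le_max_right _ _).trans (le_max_left _ _))
  have h5 : C * β (n + s) ≤ C * K₁ * B ^ s * α n := by
    have h6 := h1 (n + s) (by
      have : n₁ ≤ n := (le_max_left _ _).trans (le_max_left _ _)
      omega)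
    have h7 := hpow s n
    calc C * β (n + s) ≤ C * (K₁ * α (n + s)) := mul_le_mul_of_nonneg_left h6 hC.le
      _ ≤ C * (K₁ * (B ^ s * α n)) :=
          mul_le_mul_of_nonneg_left (mul_le_mul_of_nonneg_left h7 hK₁0.le) hC.le
      _ = _ := by ring
  have hD : 0 < K₃ * B ^ (j + s) := by have := hBk (j + s); positivity
  have h6 : ∀ i ∈ range I, α n / (K₃ * B ^ (j + s)) ≤ β (i * L) * α (n - i * L - s) := by
    intro i hi
    have hi' : i < I := mem_range.mp hi
    have hiL : i * L ≤ I * L := Nat.mul_le_mul_right L hi'.le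
    rw [div_le_iff₀ hD]
    have e1 : n = i * L + (n - i * L) := by omega
    have h7 := hsub (i * L) (n - i * L)
    rw [← e1] at h7
    have e2 : n - i * L + j = (n - i * L - s) + (j + s) := by omega
    rw [e2] at h7
    have h8 := hpow (j + s) (n - i * L - s)
    have h9 := h3 (i * L)
    have h10 : 0 ≤ α (n - i * L - s) := by linarith [hα1 (n - i * L - s)]
    calc α n ≤ α (i * L) * α (n - i * L - s + (j + s)) := h7
      _ ≤ α (i * L) * (B ^ (j + s) * α (n - i * L - s)) :=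
          mul_le_mul_of_nonneg_left h8 (by linarith [hα1 (i * L)])
      _ ≤ (K₃ * β (i * L)) * (B ^ (j + s) * α (n - i * L - s)) :=
          mul_le_mul_of_nonneg_right h9 (by have := hBk (j + s); positivity)
      _ = _ := by ring
  have h7 := sum_le_sum h6
  rw [sum_const, card_range, nsmul_eq_mul] at h7
  have h8 : (I : ℝ) * (α n / (K₃ * B ^ (j + s))) ≤ C * K₁ * B ^ s * α n := by linarith
  have hαn : 0 < α n := by linarith [hα1 n]
  rw [← mul_div_assoc, div_le_iff₀ hD] at h8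
  have h9 : (I : ℝ) ≤ Q := by
    have : (I : ℝ) * α n ≤ Q * α n := by rw [hQ]; nlinarith
    exact le_of_mul_le_mul_right this hαn
  linarith

/-- A lower bound for the growth by the other growth. -/
theorem beta_le (α β : ℕ → ℝ) (hα1 : ∀ n, 1 ≤ α n) (hβ1 : ∀ n, 1 ≤ β n) (hαm : Monotone α)
    (hβm : Monotone β) (B : ℝ) (hB : 1 ≤ B) (hαB : ∀ n, α (n + 1) ≤ B * α n) (C : ℝ) (hC : 0 < C)
    (s L n₁ : ℕ) (hL : 1 ≤ L)
    (E : ∀ I n : ℕ, I * L + n₁ ≤ n →
      ∑ i ∈ range I, β (i * L) * α (n - i * L - s) ≤ C * α (n + s)) :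
    ∃ K > 0, ∀ m, β m ≤ K * α m := by
  have hBk : ∀ k : ℕ, 1 ≤ B ^ k := fun k => one_le_pow₀ hB
  have hpow := pow_step α B hB hαB
  refine ⟨C * B ^ (2 * L + n₁ + s), by have := hBk (2 * L + n₁ + s); positivity, fun m => ?_⟩
  set i := m / L + 1 with hi
  have h1 : m < L * i := Nat.lt_mul_div_succ m (by omega)
  have h2 : L * (m / L) ≤ m := Nat.mul_div_le m L
  have e1 : i * L = L * i := Nat.mul_comm _ _
  have e2 : L * i = L * (m / L) + L := by rw [hi]; ring
  have e3 : (i + 1) * L = L * i + L := by ring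
  have h3 := E (i + 1) ((i + 1) * L + n₁) le_rfl
  have h4 : β (i * L) * α ((i + 1) * L + n₁ - i * L - s) ≤
      ∑ k ∈ range (i + 1), β (k * L) * α ((i + 1) * L + n₁ - k * L - s) := by
    apply single_le_sum (f := fun k => β (k * L) * α ((i + 1) * L + n₁ - k * L - s))
    · intro k _
      have a1 := hα1 ((i + 1) * L + n₁ - k * L - s)
      have a2 := hβ1 (k * L)
      positivity
    · exact mem_range.mpr (by omega)
  have h5 : β m ≤ β (i * L) := hβm (by omega)
  have h6 : β (i * L) ≤ β (i * L) * α ((i + 1) * L + n₁ - i * L - s) := by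
    have a1 := hα1 ((i + 1) * L + n₁ - i * L - s)
    have a2 := hβ1 (i * L)
    nlinarith
  have h7 : α ((i + 1) * L + n₁ + s) ≤ α (m + (2 * L + n₁ + s)) := hαm (by omega)
  have h8 := hpow (2 * L + n₁ + s) m
  have h9 : C * α ((i + 1) * L + n₁ + s) ≤ C * (B ^ (2 * L + n₁ + s) * α m) :=
    mul_le_mul_of_nonneg_left (h7.trans h8) hC.le
  calc β m ≤ C * (B ^ (2 * L + n₁ + s) * α m) := by linarith
    _ = _ := by ring

end Pool.Agent.H922R3
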