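import Pool.Agent.H789R2.AN.Tr

set_option autoImplicit false

open Filter Topology Set Metric

namespace Pool.Agent.H922R3

open Pool.Agent.H789R2.AN

variable {X : Type*} [MetricSpace X]

theorem LP.expansive {g : X ≃ₜ X} {c : ℝ} (h : LP g c) {x y : X} (hs : SR g c x y)
    (hu : SR g.symm c x y) : x = y := by
  have key : ∀ n : ℕ, dist x y ≤ c * (1 / 2) ^ n := by
    intro n
    have h1 : SR g.symm c (g^[n] x) (g^[n] y) := by
      intro k
      rcases le_total k n with hk | hk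
      · have e : ∀ z : X, g.symm^[k] (g^[n] z) = g^[n - k] z := by
          intro z
          have : g^[n] z = g^[k] (g^[n - k] z) := by
            rw [← Function.iterate_add_apply]
            congr 1
            omega
          rw [this, iterL]
        rw [e, e]
        exact hs (n - k)
      · have e : ∀ z : X, g.symm^[k] (g^[n] z) = g.symm^[k - n] z := by
          intro z
          have : g.symm^[k] = g.symm^[(k - n) + n] := by
            congr 1
            omega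
          rw [this, Function.iterate_add_apply, iterL]
        rw [e, e]
        exact hu (k - n)
    have h2 := h.cU _ _ h1 n
    rwa [iterL, iterL] at h2
  have h5 : Tendsto (fun n : ℕ => c * (1 / 2 : ℝ) ^ n) atTop (𝓝 0) := by
    have := (tendsto_pow_atTop_nhds_zero_of_lt_one (by norm_num : (0:ℝ) ≤ 1 / 2)
      (by norm_num)).const_mul c
    simpa using this
  have h6 : dist x y ≤ 0 := ge_of_tendsto h5 (Eventually.of_forall key)
  exact dist_le_zero.mp h6

/-- The omega-limit set of a point. -/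
def Om (g : X ≃ₜ X) (x : X) : Set X := {y | MapClusterPt y atTop (fun n : ℕ => g^[n] x)}

theorem mem_Om {g : X ≃ₜ X} {x y : X} :
    y ∈ Om g x ↔ ∀ W ∈ 𝓝 y, ∀ N : ℕ, ∃ n ≥ N, g^[n] x ∈ W := by
  rw [Om, mem_ofPred_eq, mapClusterPt_iff_frequently]
  exact forall₂_congr fun W _ => frequently_atTop

theorem Om_nonempty [CompactSpace X] (g : X ≃ₜ X) (x : X) : (Om g x).Nonempty := by
  obtain ⟨y, hy⟩ := exists_clusterPt_of_compactSpace (map (fun n : ℕ => g^[n] x) atTop)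
  exact ⟨y, hy⟩

theorem Om_inv (g : X ≃ₜ X) (x : X) : ∀ y, g y ∈ Om g x ↔ y ∈ Om g x := by
  intro y
  rw [mem_Om, mem_Om]
  constructor
  · intro hy W hW N
    have h1 : g.symm ⁻¹' W ∈ 𝓝 (g y) := by
      apply g.symm.continuous.continuousAt.preimage_mem_nhds
      rwa [g.symm_apply_apply]
    obtain ⟨n, hn, h2⟩ := hy _ h1 (N + 1)
    refine ⟨n - 1, by omega, ?_⟩
    have h3 : g^[n] x = g (g^[n - 1] x) := by
      rw [← Function.iterate_succ_apply' g (n - 1)]
      congr 1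
      omega
    rw [mem_preimage, h3, g.symm_apply_apply] at h2
    exact h2
  · intro hy W hW N
    have h1 : g ⁻¹' W ∈ 𝓝 y := g.continuous.continuousAt.preimage_mem_nhds hW
    obtain ⟨n, hn, h2⟩ := hy _ h1 N
    refine ⟨n + 1, by omega, ?_⟩
    rw [Function.iterate_succ_apply']
    exact h2

theorem Om_subset {g : X ≃ₜ X} {x : X} {A : Set X} (hc : IsClosed A)
    (hi : ∀ y, g y ∈ A ↔ y ∈ A) (hx : x ∈ A) : Om g x ⊆ A := by
  intro y hy
  rw [← hc.closure_eq, mem_closure_iff_nhds]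
  intro W hW
  obtain ⟨n, -, hn⟩ := mem_Om.mp hy W hW 0
  exact ⟨_, hn, (inv_iter hi n x).mpr hx⟩

/-- The attractor generated by the omega-limit set. -/
def Au (g : X ≃ₜ X) (x : X) : Set X := closure {w | ∃ y ∈ Om g x, WS g.symm y w}

theorem Au_isAtt [CompactSpace X] {g : X ≃ₜ X} {c : ℝ} (h : LP g c) (x : X) :
    IsAtt g (Au g x) := by
  set S : Set X := {w | ∃ y ∈ Om g x, WS g.symm y w} with hS
  have hSsat : ∀ w ∈ S, ∀ w', WS g.symm w w' → w' ∈ S := by
    rintro w ⟨y, hy, hyw⟩ w' hww'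
    exact ⟨y, hy, hyw.trans hww'⟩
  have hSinv : ∀ w, g w ∈ S ↔ w ∈ S := by
    intro w
    constructor
    · rintro ⟨y, hy, hyw⟩
      refine ⟨g.symm y, (inv_symm (Om_inv g x) y).mpr hy, ?_⟩
      have := hyw.mapIter (φ := g.symm) (fun _ => rfl) 1
      simpa using this
    · rintro ⟨y, hy, hyw⟩
      refine ⟨g y, (Om_inv g x y).mpr hy, ?_⟩
      rw [← WS.iter 1]
      simpa using hyw
  refine ⟨isClosed_closure, ?_, ?_, closure_sat h hSsat⟩
  · obtain ⟨y, hy⟩ := Om_nonempty g x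
    exact ⟨y, subset_closure ⟨y, hy, WS.refl _ _⟩⟩
  · intro w
    have e1 : g ⁻¹' S = S := by
      ext w
      exact hSinv w
    have e2 := g.preimage_closure S
    rw [e1] at e2
    show g w ∈ closure S ↔ w ∈ closure S
    rw [← mem_preimage, e2]

theorem Om_subset_Au (g : X ≃ₜ X) (x : X) : Om g x ⊆ Au g x := fun y hy =>
  subset_closure ⟨y, hy, WS.refl _ _⟩

/-- Exact connection from approximate connection. -/
theorem connect_of_near {g : X ≃ₜ X} {c : ℝ} (h : LP g c) {ε : ℝ} (hε : 0 < ε) :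
    ∃ δ > 0, ∀ (x y z₀ : X) (n : ℕ), dist z₀ x < δ → dist (g^[n] z₀) y < δ →
      ∃ z, SR g.symm ε x z ∧ SR g ε y (g^[n] z) := by
  have hε2 : 0 < ε / 2 := half_pos hε
  obtain ⟨δ₂, hδ₂, h2⟩ := h.lp (ε / 2) hε2
  obtain ⟨δ₁, hδ₁, h1⟩ := h.lp (min (ε / 2) (δ₂ / 2)) (lt_min hε2 (half_pos hδ₂))
  refine ⟨min δ₁ (δ₂ / 2), lt_min hδ₁ (half_pos hδ₂), fun x y z₀ n hx hy => ?_⟩
  obtain ⟨w₁, hw1, hw2⟩ := h1 z₀ x (hx.trans_le (min_le_left _ _))
  have h3 : dist y (g^[n] w₁) < δ₂ := by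
    have a1 : dist (g^[n] z₀) (g^[n] w₁) ≤ δ₂ / 2 := (hw1 n).trans (min_le_right _ _)
    have a2 : dist (g^[n] z₀) y < δ₂ / 2 := hy.trans_le (min_le_right _ _)
    have a3 := dist_triangle y (g^[n] z₀) (g^[n] w₁)
    rw [dist_comm y (g^[n] z₀)] at a3
    linarith
  obtain ⟨w₂, hw3, hw4⟩ := h2 y (g^[n] w₁) h3
  refine ⟨g.symm^[n] w₂, fun k => ?_, fun k => ?_⟩
  · have a1 : dist (g.symm^[k] x) (g.symm^[k] w₁) ≤ ε / 2 := (hw2 k).trans (min_le_left _ _)
    have a2 := hw4 (k + n)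
    have e1 : g.symm^[k + n] (g^[n] w₁) = g.symm^[k] w₁ := by
      rw [Function.iterate_add_apply, iterL]
    rw [e1, Function.iterate_add_apply] at a2
    have a3 := dist_triangle (g.symm^[k] x) (g.symm^[k] w₁) (g.symm^[k] (g.symm^[n] w₂))
    linarith
  · have a1 := hw3 k
    rw [iterR]
    linarith

/-- Points of the attractor generated by `x` are reached from `x`. -/
theorem near_of_mem_Au {g : X ≃ₜ X} {c : ℝ} (h : LP g c) {x y : X} (hy : y ∈ Au g x) {η : ℝ}
    (hη : 0 < η) (N : ℕ) : ∃ n ≥ N, ∃ z, dist z x < η ∧ dist (g^[n] z) y < η := by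
  have hη2 : 0 < η / 2 := half_pos hη
  obtain ⟨w, ⟨k, hk, hkw⟩, hyw⟩ := Metric.mem_closure_iff.mp hy (η / 2) hη2
  -- `w` is backward asymptotic to `k` in the omega limit set
  set ε := min (η / 2) c with hεd
  have hε0 : 0 < ε := lt_min hη2 h.c_pos
  obtain ⟨δ, hδ, hlp⟩ := h.lp ε hε0
  obtain ⟨m, hm⟩ := hkw.eventually_lt (half_pos hδ)
  have h1 := hm m le_rfl
  have h5 : Tendsto (fun n : ℕ => c * (1 / 2 : ℝ) ^ n) atTop (𝓝 0) := by
    have := (tendsto_pow_atTop_nhds_zero_of_lt_one (by norm_num : (0:ℝ) ≤ 1 / 2)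
      (by norm_num)).const_mul c
    simpa using this
  obtain ⟨N', hN'⟩ := eventually_atTop.mp ((tendsto_order.mp h5).2 η hη)
  have h2 : {y' | dist (g.symm^[m] y') (g.symm^[m] k) < δ / 2} ∈ 𝓝 k := by
    have hcont : Continuous fun s => dist (g.symm^[m] s) (g.symm^[m] k) :=
      (g.symm.continuous.iterate m).dist continuous_const
    exact (isOpen_lt hcont continuous_const).mem_nhds (by
      show dist (g.symm^[m] k) (g.symm^[m] k) < δ / 2
      rw [dist_self]; linarith)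
  obtain ⟨n, hn, h3⟩ := mem_Om.mp hk _ h2 (m + N' + N)
  have e1 : g.symm^[m] (g^[n] x) = g^[n - m] x := by
    have : g^[n] x = g^[m] (g^[n - m] x) := by
      rw [← Function.iterate_add_apply]
      congr 1
      omega
    rw [this, iterL]
  have h3' : dist (g^[n - m] x) (g.symm^[m] k) < δ / 2 := by
    rw [← e1]; exact h3
  have h4 : dist (g.symm^[m] w) (g^[n - m] x) < δ := by
    have := dist_triangle (g.symm^[m] w) (g.symm^[m] k) (g^[n - m] x)
    rw [dist_comm (g.symm^[m] w) (g.symm^[m] k), dist_comm (g.symm^[m] k) (g^[n - m] x)] at this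
    linarith
  obtain ⟨z, hz1, hz2⟩ := hlp _ _ h4
  have hz2' := h.cU _ _ (hz2.mono (min_le_right _ _)) (n - m)
  rw [iterL] at hz2'
  have hz3 := lt_of_le_of_lt hz2' (hN' (n - m) (by omega))
  refine ⟨n, by omega, g.symm^[n - m] z, ?_, ?_⟩
  · rw [dist_comm]; exact hz3
  · have e2 : g^[n] (g.symm^[n - m] z) = g^[m] z := by
      have : g^[n] (g.symm^[n - m] z) = g^[m] (g^[n - m] (g.symm^[n - m] z)) := by
        rw [← Function.iterate_add_apply g m (n - m)]
        congr 1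
        omega
      rw [this, iterR]
    rw [e2]
    have h6 := hz1 m
    rw [iterR] at h6
    have h7 : ε ≤ η / 2 := min_le_left _ _
    have h8 := dist_triangle y w (g^[m] z)
    rw [dist_comm]
    linarith

/-- Uniform connection between compact sets. -/
theorem connect_unif {g : X ≃ₜ X} {c : ℝ} (h : LP g c) {K₁ K₂ : Set X} (hK₁ : IsCompact K₁)
    (hK₂ : IsCompact K₂) (hK : ∀ x ∈ K₁, ∀ y ∈ K₂, y ∈ Au g x) {ε : ℝ} (hε : 0 < ε) (N : ℕ) :
    ∃ T : ℕ, ∀ x ∈ K₁, ∀ y ∈ K₂, ∃ n, N ≤ n ∧ n ≤ T ∧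
      ∃ z, SR g.symm ε x z ∧ SR g ε y (g^[n] z) := by
  obtain ⟨δ, hδ, hcon⟩ := connect_of_near h hε
  have hδ2 : 0 < δ / 2 := half_pos hδ
  have hloc : ∀ p : X × X, p ∈ K₁ ×ˢ K₂ → ∃ n, N ≤ n ∧ ∃ z, dist z p.1 < δ / 2 ∧
      dist (g^[n] z) p.2 < δ / 2 := fun p hp => by
    obtain ⟨n, hn, z, hz⟩ := near_of_mem_Au h (hK p.1 hp.1 p.2 hp.2) hδ2 N
    exact ⟨n, hn, z, hz⟩
  choose! n hloc' using hloc
  have hn : ∀ p ∈ K₁ ×ˢ K₂, N ≤ n p := fun p hp => (hloc' p hp).1
  have hcomp : IsCompact (K₁ ×ˢ K₂) := hK₁.prod hK₂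
  obtain ⟨t, ht, hcov⟩ := hcomp.elim_nhds_subcover (fun p => ball p (δ / 2))
    (fun p _ => ball_mem_nhds p hδ2)
  refine ⟨t.sup n, fun x hx y hy => ?_⟩
  have hmem : (x, y) ∈ K₁ ×ˢ K₂ := ⟨hx, hy⟩
  obtain ⟨p, hp, hxy⟩ := mem_iUnion₂.mp (hcov hmem)
  have hd : dist (x, y) p < δ / 2 := hxy
  rw [Prod.dist_eq, max_lt_iff] at hd
  have hpK := ht p hp
  obtain ⟨-, z, hz1, hz2⟩ := hloc' p hpK
  refine ⟨n p, hn p hpK, Finset.le_sup hp, ?_⟩
  apply hcon x y z (n p)
  · have := dist_triangle z p.1 x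
    rw [dist_comm p.1 x] at this
    have h1 := hd.1
    change dist x p.1 < δ / 2 at h1
    linarith
  · have := dist_triangle (g^[n p] z) p.2 y
    rw [dist_comm p.2 y] at this
    have h1 := hd.2
    change dist y p.2 < δ / 2 at h1
    linarith

end Pool.Agent.H922R3
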