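import Pool.Agent.H922R3.Count

set_option autoImplicit false

open Filter Topology Set Metric MeasureTheory
open scoped ENNReal

namespace Pool.Agent.H922R3

open Pool.Agent.H789R2.AN

variable {X : Type*} [MetricSpace X]

/-- A fully supported measure on the stable sets, invariant up to a uniform factor under the
holonomy along the unstable sets. -/
structure TM [MeasurableSpace X] (g : X ≃ₜ X) (ν : X → Measure X) : Prop where
  leaf : ∀ x y, WS g x y → ν x = ν y
  fin : ∃ r > 0, ∀ x, ν x {z | SR g r x z} < ∞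
  pos : ∀ r > 0, ∀ x, 0 < ν x {z | SR g r x z}
  hol : ∃ D : ℝ≥0∞, D ≠ ∞ ∧ ∀ (x y : X) (K : Set X) (φ : X → X), IsCompact K →
    ContinuousOn φ K → InjOn φ K →
    (∀ z ∈ K, WS g x z) → (∀ z ∈ K, WS g y (φ z)) → (∀ z ∈ K, WS g.symm z (φ z)) →
    ν x K ≤ D * ν y (φ '' K)

theorem isClosed_SR (g : X ≃ₜ X) (ε : ℝ) (x : X) : IsClosed {z | SR g ε x z} := by
  have : {z | SR g ε x z} = ⋂ k : ℕ, {z | dist (g^[k] x) (g^[k] z) ≤ ε} := by
    ext z
    simp only [mem_iInter]
    exact Iff.rfl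
  rw [this]
  exact isClosed_iInter fun k => isClosed_le
    (continuous_const.dist (g.continuous.iterate k)) continuous_const

theorem isClosed_graph (g : X ≃ₜ X) (ε : ℝ) (p : X) :
    IsClosed {q : X × X | SR g ε p q.2 ∧ SR g.symm ε q.1 q.2} := by
  have : {q : X × X | SR g ε p q.2 ∧ SR g.symm ε q.1 q.2} =
      (⋂ k : ℕ, {q : X × X | dist (g^[k] p) (g^[k] q.2) ≤ ε}) ∩
      ⋂ k : ℕ, {q : X × X | dist (g.symm^[k] q.1) (g.symm^[k] q.2) ≤ ε} := by
    ext q
    simp only [mem_inter_iff, mem_iInter]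
    exact Iff.rfl
  rw [this]
  refine IsClosed.inter (isClosed_iInter fun k => isClosed_le ?_ continuous_const)
    (isClosed_iInter fun k => isClosed_le ?_ continuous_const)
  · exact continuous_const.dist ((g.continuous.iterate k).comp continuous_snd)
  · exact ((g.symm.continuous.iterate k).comp continuous_fst).dist
      ((g.symm.continuous.iterate k).comp continuous_snd)

theorem continuousOn_of_graph [CompactSpace X] {Γ : Set (X × X)} (hΓ : IsClosed Γ) {K : Set X}
    {φ : X → X} (h1 : ∀ w ∈ K, (w, φ w) ∈ Γ) (h2 : ∀ w ∈ K, ∀ v, (w, v) ∈ Γ → v = φ w) :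
    ContinuousOn φ K := by
  intro w hw
  show Tendsto φ (𝓝[K] w) (𝓝 (φ w))
  refine isCompact_univ.le_nhds_of_unique_clusterPt univ_mem fun v _ hv => h2 w hw v ?_
  rw [← hΓ.closure_eq, mem_closure_iff_nhds]
  intro O hO
  obtain ⟨O₁, hO₁, O₂, hO₂, hsub⟩ := mem_nhds_prod_iff.mp hO
  have hv' : MapClusterPt v (𝓝[K] w) φ := hv
  rw [mapClusterPt_iff_frequently] at hv'
  have h3 := hv' O₂ hO₂
  have h4 : ∀ᶠ w' in 𝓝[K] w, w' ∈ O₁ ∧ w' ∈ K :=
    inter_mem (mem_nhdsWithin_of_mem_nhds hO₁) self_mem_nhdsWithin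
  obtain ⟨w', h5, h6, h7⟩ := (h3.and_eventually h4).exists
  exact ⟨(w', φ w'), hsub ⟨h6, h5⟩, h1 w' h7⟩

variable [MeasurableSpace X] [BorelSpace X]

/-- **Box inequality.** -/
theorem box [CompactSpace X] {g : X ≃ₜ X} {c : ℝ} (h : LP g c) {ν : X → Measure X}
    (hν : TM g ν) {θ : ℝ} (hθ : 0 < θ) : ∃ r₁ > 0, ∀ r, 0 < r → r ≤ r₁ → ∃ C : ℝ≥0∞, C ≠ ∞ ∧
      ∀ (x : X) (n : ℕ) (F : Finset X), USep g r θ n x F →
        (F.card : ℝ≥0∞) * ν (g^[n] x) (g^[n] '' {z | SR g r x z}) ≤ C := by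
  classical
  obtain ⟨rf, hrf, hfin⟩ := hν.fin
  obtain ⟨D, hD, hhol⟩ := hν.hol
  have hc := h.c_pos
  set ε₂ := min (min (c / 8) (θ / 8)) rf with hε₂
  have hε₂0 : 0 < ε₂ := lt_min (lt_min (by positivity) (by positivity)) hrf
  have hε₂c : ε₂ ≤ c / 8 := (min_le_left _ _).trans (min_le_left _ _)
  have hε₂θ : ε₂ ≤ θ / 8 := (min_le_left _ _).trans (min_le_right _ _)
  obtain ⟨δ₂, hδ₂, hlp₂⟩ := h.lp ε₂ hε₂0
  set ε₁ := min (min (c / 8) (θ / 8)) (δ₂ / 2) with hε₁
  have hε₁0 : 0 < ε₁ := lt_min (lt_min (by positivity) (by positivity)) (half_pos hδ₂)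
  have hε₁c : ε₁ ≤ c / 8 := (min_le_left _ _).trans (min_le_left _ _)
  have hε₁θ : ε₁ ≤ θ / 8 := (min_le_left _ _).trans (min_le_right _ _)
  have hε₁δ : ε₁ ≤ δ₂ / 2 := min_le_right _ _
  obtain ⟨δ₁, hδ₁, hlp₁⟩ := h.lp ε₁ hε₁0
  refine ⟨min (min (c / 4) (θ / 4)) (δ₁ / 4), lt_min (lt_min (by positivity) (by positivity))
    (by positivity), fun r hr hr₁ => ?_⟩
  have hrc : r ≤ c / 4 := hr₁.trans ((min_le_left _ _).trans (min_le_left _ _))
  have hrθ : r ≤ θ / 4 := hr₁.trans ((min_le_left _ _).trans (min_le_right _ _))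
  have hrδ : r ≤ δ₁ / 4 := hr₁.trans (min_le_right _ _)
  obtain ⟨t, -, ht⟩ := (isCompact_univ (X := X)).elim_nhds_subcover (fun y => ball y (δ₂ / 2))
    (fun y _ => ball_mem_nhds y (half_pos hδ₂))
  refine ⟨∑ p ∈ t, D * ν p {z | SR g ε₂ p z}, ?_, fun x n F hF => ?_⟩
  · refine ENNReal.sum_ne_top.mpr fun p _ => ENNReal.mul_ne_top hD ?_
    refine ne_of_lt (lt_of_le_of_lt (measure_mono ?_) (hfin p))
    exact fun z hz => SR.mono hz (min_le_right _ _)
  -- the centres
  have hch : ∀ y : X, ∃ p ∈ t, dist (g^[n] y) p < δ₂ / 2 := by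
    intro y
    obtain ⟨p, hp, hyp⟩ := mem_iUnion₂.mp (ht (mem_univ (g^[n] y)))
    exact ⟨p, hp, hyp⟩
  choose p hpt hdp using hch
  -- the composed bracket
  have hkap : ∀ y z : X, y ∈ F → SR g r x z → ∃ w v, (SR g ε₁ y w ∧ SR g.symm ε₁ z w) ∧
      (SR g ε₂ (p y) v ∧ SR g.symm ε₂ (g^[n] w) v) := by
    intro y z hy hz
    have h1 : dist y z < δ₁ := by
      have a1 : dist x y ≤ r := hF.mem y hy 0
      have a2 : dist x z ≤ r := hz 0
      have a3 := dist_triangle y x z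
      rw [dist_comm y x] at a3
      linarith
    obtain ⟨w, hw1, hw2⟩ := hlp₁ y z h1
    have h2 : dist (p y) (g^[n] w) < δ₂ := by
      have a1 := hw1 n
      have a2 := hdp y
      have a3 := dist_triangle (p y) (g^[n] y) (g^[n] w)
      rw [dist_comm (p y) (g^[n] y)] at a3
      linarith
    obtain ⟨v, hv1, hv2⟩ := hlp₂ (p y) (g^[n] w) h2
    exact ⟨w, v, ⟨hw1, hw2⟩, hv1, hv2⟩
  choose! W V hWV using hkap
  -- uniqueness and separation
  have core : ∀ y ∈ F, ∀ y' ∈ F, ∀ z z' w w' v, SR g r x z → SR g r x z' →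
      SR g ε₁ y w → SR g.symm ε₁ z w → SR g ε₁ y' w' → SR g.symm ε₁ z' w' →
      SR g.symm ε₂ (g^[n] w) v → SR g.symm ε₂ (g^[n] w') v → z = z' ∧ y = y' := by
    intro y hy y' hy' z z' w w' v hz hz' h1 h2 h3 h4 h5 h6
    have h7 : SR g.symm (ε₂ + ε₂) (g^[n] w) (g^[n] w') := SR.trans' h5 h6.symm'
    have h8 : SR g.symm (ε₂ + ε₂) w w' := SR_back' (Nat.zero_le n) h7
    have h9 : SR g.symm c z z' :=
      (SR.trans' (SR.trans' h2 h8) h4.symm').mono (by linarith)
    have h10 : SR g c z z' := (SR.trans' hz.symm' hz').mono (by linarith)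
    refine ⟨LP.expansive h h10 h9, ?_⟩
    by_contra hne
    apply hF.sep y hy y' hy' hne
    apply SR_of_fwd
    · exact (SR.trans' (hF.mem y hy).symm' (hF.mem y' hy')).mono (by linarith)
    · intro i hi
      have a1 := h1 i
      have a2 := fwd_of_SR h7 i hi
      have a3 := h3 i
      have a4 := dist_triangle (g^[i] y) (g^[i] w) (g^[i] y')
      have a5 := dist_triangle (g^[i] w) (g^[i] w') (g^[i] y')
      rw [dist_comm (g^[i] w') (g^[i] y')] at a5
      linarith
  set K : Set X := g^[n] '' {z | SR g r x z} with hK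
  have hKc : IsCompact K := ((isClosed_SR g r x).isCompact).image (g.continuous.iterate n)
  have hKmem : ∀ z', z' ∈ K ↔ SR g r x (g.symm^[n] z') := by
    intro z'
    constructor
    · rintro ⟨z, hz, rfl⟩
      rw [iterL]
      exact hz
    · intro hz
      exact ⟨_, hz, iterR g n z'⟩
  let κ : X → X → X := fun y z' => V y (g.symm^[n] z')
  let ω : X → X → X := fun y z' => W y (g.symm^[n] z')
  have hκ : ∀ y ∈ F, ∀ z' ∈ K, (SR g ε₁ y (ω y z') ∧ SR g.symm ε₁ (g.symm^[n] z') (ω y z')) ∧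
      (SR g ε₂ (p y) (κ y z') ∧ SR g.symm ε₂ (g^[n] (ω y z')) (κ y z')) := by
    intro y hy z' hz'
    exact hWV y _ hy ((hKmem z').mp hz')
  have hωcont : ∀ y ∈ F, ContinuousOn (ω y) K := by
    intro y hy
    have hW : ContinuousOn (W y) {z | SR g r x z} := by
      refine continuousOn_of_graph (isClosed_graph g ε₁ y) (fun z hz => ?_) (fun z hz v hv => ?_)
      · exact (hWV y z hy hz).1
      · have h1 := (hWV y z hy hz).1
        have h2 : SR g (ε₁ + ε₁) v (W y z) := SR.trans' hv.1.symm' h1.1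
        have h3 : SR g.symm (ε₁ + ε₁) v (W y z) := SR.trans' (SR.symm' hv.2) h1.2
        exact LP.expansive h (h2.mono (by linarith)) (h3.mono (by linarith))
    exact hW.comp (g.symm.continuous.iterate n).continuousOn (fun z' hz' => (hKmem z').mp hz')
  have hκcont : ∀ y ∈ F, ContinuousOn (κ y) K := by
    intro y hy
    -- the second bracket as a function
    set K' : Set X := (fun z' => g^[n] (ω y z')) '' K with hK'
    have hψ : ∀ w' ∈ K', ∃ v, SR g ε₂ (p y) v ∧ SR g.symm ε₂ w' v := by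
      rintro w' ⟨z', hz', rfl⟩
      exact ⟨_, (hκ y hy z' hz').2⟩
    choose! ψ hψ using hψ
    have huniq : ∀ w' v v', SR g ε₂ (p y) v → SR g.symm ε₂ w' v → SR g ε₂ (p y) v' →
        SR g.symm ε₂ w' v' → v = v' := by
      intro w' v v' h1 h2 h3 h4
      have h5 : SR g (ε₂ + ε₂) v v' := SR.trans' h1.symm' h3
      have h6 : SR g.symm (ε₂ + ε₂) v v' := SR.trans' h2.symm' h4
      exact LP.expansive h (h5.mono (by linarith)) (h6.mono (by linarith))
    have hψc : ContinuousOn ψ K' := by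
      refine continuousOn_of_graph (isClosed_graph g ε₂ (p y)) (fun w' hw' => hψ w' hw')
        (fun w' hw' v hv => ?_)
      exact huniq w' v _ hv.1 hv.2 (hψ w' hw').1 (hψ w' hw').2
    have hcomp : ContinuousOn (fun z' => ψ (g^[n] (ω y z'))) K := by
      have h1 : ContinuousOn (fun z' => g^[n] (ω y z')) K :=
        (g.continuous.iterate n).comp_continuousOn (hωcont y hy)
      exact hψc.comp h1 (fun z' hz' => ⟨z', hz', rfl⟩)
    refine hcomp.congr fun z' hz' => ?_
    have h1 := (hκ y hy z' hz').2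
    have h2 := hψ _ ⟨z', hz', rfl⟩
    exact huniq _ _ _ h1.1 h1.2 h2.1 h2.2
  have hinjg : Function.Injective (g.symm^[n]) := g.symm.injective.iterate n
  have hmeas : ∀ y ∈ F, ν (g^[n] x) K ≤ D * ν (p y) (κ y '' K) := by
    intro y hy
    apply hhol (g^[n] x) (p y) K (κ y) hKc (hκcont y hy)
    · intro z₁ hz₁ z₂ hz₂ he
      have a1 := hκ y hy z₁ hz₁
      have a2 := hκ y hy z₂ hz₂
      have a3 := core y hy y hy _ _ _ _ (κ y z₁) ((hKmem z₁).mp hz₁) ((hKmem z₂).mp hz₂)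
        a1.1.1 a1.1.2 a2.1.1 a2.1.2 a1.2.2 (by rw [he]; exact a2.2.2)
      exact hinjg a3.1
    · intro z' hz'
      have h1 : WS g x (g.symm^[n] z') :=
        WS.of_SR (h.cS _ _ (((hKmem z').mp hz').mono (by linarith)))
      have h2 := (WS.iter n).mpr h1
      rwa [iterR] at h2
    · intro z' hz'
      exact WS.of_SR (h.cS _ _ ((hκ y hy z' hz').2.1.mono (by linarith)))
    · intro z' hz'
      have a1 := hκ y hy z' hz'
      have h1 : WS g.symm (g.symm^[n] z') (ω y z') :=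
        WS.of_SR (h.cU _ _ (a1.1.2.mono (by linarith)))
      have h2 : WS g.symm z' (g^[n] (ω y z')) := by
        rw [← WS.iter n, iterL]
        exact h1
      exact h2.trans (WS.of_SR (h.cU _ _ (a1.2.2.mono (by linarith))))
  have hfib : ∀ q ∈ t, (((F.filter fun y => p y = q).card : ℕ) : ℝ≥0∞) * ν (g^[n] x) K ≤
      D * ν q {z | SR g ε₂ q z} := by
    intro q hq
    have hdisj : Set.PairwiseDisjoint (↑(F.filter fun y => p y = q)) (fun y => κ y '' K) := by
      intro y hy y' hy' hne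
      rw [Finset.mem_coe, Finset.mem_filter] at hy hy'
      show Disjoint (κ y '' K) (κ y' '' K)
      rw [Set.disjoint_left]
      rintro v ⟨z₁, hz₁, rfl⟩ ⟨z₂, hz₂, he⟩
      have a1 := hκ y hy.1 z₁ hz₁
      have a2 := hκ y' hy'.1 z₂ hz₂
      have a3 := core y hy.1 y' hy'.1 _ _ _ _ (κ y z₁) ((hKmem z₁).mp hz₁) ((hKmem z₂).mp hz₂)
        a1.1.1 a1.1.2 a2.1.1 a2.1.2 a1.2.2 (by rw [← he]; exact a2.2.2)
      exact hne a3.2
    have hm : ∀ y ∈ (F.filter fun y => p y = q), MeasurableSet (κ y '' K) := fun y hy =>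
      (hKc.image_of_continuousOn (hκcont y (Finset.mem_filter.mp hy).1)).isClosed.measurableSet
    have h1 := measure_biUnion_finset (μ := ν q) hdisj hm
    have h2 : ∑ y ∈ (F.filter fun y => p y = q), ν (g^[n] x) K ≤
        ∑ y ∈ (F.filter fun y => p y = q), D * ν q (κ y '' K) := by
      apply Finset.sum_le_sum
      intro y hy
      rw [Finset.mem_filter] at hy
      have h3 := hmeas y hy.1
      rwa [hy.2] at h3
    rw [Finset.sum_const, nsmul_eq_mul, ← Finset.mul_sum, ← h1] at h2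
    refine h2.trans (mul_le_mul_right ?_ D)
    apply measure_mono
    apply iUnion₂_subset
    rintro y hy v ⟨z', hz', rfl⟩
    rw [Finset.mem_filter] at hy
    have a1 := (hκ y hy.1 z' hz').2.1
    rw [hy.2] at a1
    exact a1
  calc (F.card : ℝ≥0∞) * ν (g^[n] x) K
      = ∑ q ∈ t, (((F.filter fun y => p y = q).card : ℕ) : ℝ≥0∞) * ν (g^[n] x) K := by
        rw [← Finset.sum_mul, ← Nat.cast_sum]
        congr 2
        exact Finset.card_eq_sum_card_fiberwise (fun y _ => hpt y)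
    _ ≤ _ := Finset.sum_le_sum hfib

/-- The fundamental inequality on a repeller. -/
theorem star [CompactSpace X] {g : X ≃ₜ X} {c : ℝ} (h : LP g c) {ν : X → Measure X}
    (hν : TM g ν) {θ : ℝ} (hθ : 0 < θ) : ∃ r₁ > 0, ∀ r, 0 < r → r ≤ r₁ → 2 * r ≤ c →
    ∀ R : Set X, IsAtt g.symm R → ∃ C : ℝ, 0 < C ∧ ∀ n M : ℕ,
      (∀ w ∈ R, ∃ F, USep g r θ n w F ∧ M ≤ F.card) → (M : ℝ) ≤ C * cnt g.symm R r r n := by
  classical
  obtain ⟨r₁, hr₁, hbox⟩ := box h hν hθ
  refine ⟨r₁, hr₁, fun r hr hrr₁ hrc R hR => ?_⟩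
  obtain ⟨C, hC, hbox⟩ := hbox r hr hrr₁
  obtain ⟨b, hb⟩ := hR.nonempty
  set κ := min (ν b {z | SR g r b z}) 1 with hκ
  have hκ0 : 0 < κ := lt_min (hν.pos r hr b) one_pos
  have hκt : κ ≠ ∞ := ne_of_lt (lt_of_le_of_lt (min_le_right _ _) ENNReal.one_lt_top)
  have hκr : 0 < κ.toReal := ENNReal.toReal_pos hκ0.ne' hκt
  refine ⟨(C.toReal + 1) / κ.toReal, by positivity, fun n M hM => ?_⟩
  -- a maximal separated set
  have hls : LP g.symm c := h.symm
  obtain ⟨B, hB⟩ := fin_bound hls hrc hr n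
  have hex : ∃ G : Finset X, USep g.symm r r n b G ∧ ∀ G', USep g.symm r r n b G' →
      G'.card ≤ G.card := by
    have h1 : BddAbove {k | ∃ G, USep g.symm r r n b G ∧ G.card = k} :=
      ⟨B, by rintro k ⟨G, hG, rfl⟩; exact hB b G hG⟩
    have h2 : {k | ∃ G, USep g.symm r r n b G ∧ G.card = k}.Nonempty :=
      ⟨1, {b}, one_usep hr.le n b, Finset.card_singleton b⟩
    obtain ⟨G, hG, he⟩ := Nat.sSup_mem h2 h1
    refine ⟨G, hG, fun G' hG' => ?_⟩
    rw [he]
    exact le_csSup h1 ⟨G', hG', rfl⟩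
  obtain ⟨G, hG, hGmax⟩ := hex
  have hcov : {z | SR g r b z} ⊆ ⋃ y ∈ G, g^[n] '' {w | SR g r (g.symm^[n] y) w} := by
    intro y hy
    have h1 : ∃ z ∈ G, SR g r (g.symm^[n] z) (g.symm^[n] y) := by
      by_contra hcon
      push Not at hcon
      have hyG : y ∉ G := fun hyG => hcon y hyG (fun k => by rw [dist_self]; exact hr.le)
      have h2 : USep g.symm r r n b (insert y G) := by
        refine ⟨fun z hz => ?_, fun z hz w hw hne => ?_⟩
        · rcases Finset.mem_insert.mp hz with hz' | hz'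
          · rw [hz']; exact hy
          · exact hG.mem z hz'
        · rcases Finset.mem_insert.mp hz with hz' | hz'
          · rcases Finset.mem_insert.mp hw with hw' | hw'
            · exact absurd (hz'.trans hw'.symm) hne
            · rw [hz']
              exact fun hc => hcon w hw' (SR.symm' hc)
          · rcases Finset.mem_insert.mp hw with hw' | hw'
            · rw [hw']
              exact hcon z hz'
            · exact hG.sep z hz' w hw' hne
      have h3 := hGmax _ h2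
      rw [Finset.card_insert_of_notMem hyG] at h3
      omega
    obtain ⟨z, hz, h2⟩ := h1
    exact mem_iUnion₂.mpr ⟨z, hz, _, h2, iterR g n y⟩
  have h1 : (M : ℝ≥0∞) * ν b {z | SR g r b z} ≤ (G.card : ℝ≥0∞) * C := by
    calc (M : ℝ≥0∞) * ν b {z | SR g r b z}
        ≤ (M : ℝ≥0∞) * ∑ y ∈ G, ν b (g^[n] '' {w | SR g r (g.symm^[n] y) w}) := by
          gcongr
          exact (measure_mono hcov).trans (measure_biUnion_finset_le _ _)
      _ = ∑ y ∈ G, (M : ℝ≥0∞) * ν b (g^[n] '' {w | SR g r (g.symm^[n] y) w}) := by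
          rw [Finset.mul_sum]
      _ ≤ ∑ y ∈ G, C := by
          apply Finset.sum_le_sum
          intro y hy
          have hby : WS g b y := WS.of_SR (h.cS _ _ (SR.mono (hG.mem y hy) (by linarith)))
          have hyR : y ∈ R := hR.sat b hb y hby
          have hwR : g.symm^[n] y ∈ R := (inv_iter hR.inv n y).mpr hyR
          obtain ⟨F, hF, hMF⟩ := hM _ hwR
          have h2 := hbox _ n F hF
          rw [iterR] at h2
          rw [hν.leaf b y hby]
          refine le_trans ?_ h2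
          gcongr
      _ = _ := by rw [Finset.sum_const, nsmul_eq_mul]
  have h2 : (M : ℝ≥0∞) * κ ≤ (G.card : ℝ≥0∞) * C := by
    refine le_trans ?_ h1
    gcongr
    exact min_le_left _ _
  have h3 : (M : ℝ) * κ.toReal ≤ G.card * C.toReal := by
    have h4 := ENNReal.toReal_mono (ENNReal.mul_ne_top (ENNReal.natCast_ne_top _) hC) h2
    rwa [ENNReal.toReal_mul, ENNReal.toReal_mul, ENNReal.toReal_natCast,
      ENNReal.toReal_natCast] at h4
  have h4 : (G.card : ℝ) ≤ cnt g.symm R r r n := by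
    exact_mod_cast le_cnt hls hrc hr hb hG
  have hC0 : 0 ≤ C.toReal := ENNReal.toReal_nonneg
  rw [div_mul_eq_mul_div, le_div_iff₀ hκr]
  have h5 : (0 : ℝ) ≤ cnt g.symm R r r n := Nat.cast_nonneg _
  nlinarith

end Pool.Agent.H922R3
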