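import Pool.Agent.H922R3.Base
import Pool.Agent.H789R2.AN.Man

set_option autoImplicit false

open Filter Topology Set Metric
open scoped Uniformity

namespace Pool.Agent.H922R3

open Pool.Agent.H789R2.AN

/-- The forward orbits of `x` and `y` under `f` are asymptotic to each other. (On a compact space
a neighbourhood of the diagonal is the same as an entourage, so this says that the distance of
`fⁿ x` and `fⁿ y` tends to `0`.) -/
def Asymp {M : Type*} [TopologicalSpace M] (f : M → M) (x y : M) : Prop :=
  Tendsto (fun n : ℕ => (f^[n] x, f^[n] y)) atTop (𝓝ˢ (diagonal M))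

variable {X : Type*} [MetricSpace X]

theorem asymp_iff_dist [CompactSpace X] {f : X → X} {x y : X} :
    Asymp f x y ↔ Tendsto (fun n : ℕ => dist (f^[n] x) (f^[n] y)) atTop (𝓝 0) := by
  rw [Asymp, nhdsSet_diagonal_eq_uniformity, tendsto_uniformity_iff_dist_tendsto_zero]

theorem pow_iter {f g : X ≃ₜ X} {n : ℕ} (hg : ∀ x, g x = f^[n] x) (k : ℕ) (x : X) :
    g^[k] x = f^[n * k] x := by
  have : (g : X → X) = f^[n] := funext hg
  rw [this, ← Function.iterate_mul]

theorem pow_symm {f g : X ≃ₜ X} {n : ℕ} (hg : ∀ x, g x = f^[n] x) (x : X) :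
    g.symm x = f.symm^[n] x := by
  apply g.injective
  rw [g.apply_symm_apply, hg, iterR]

theorem asymp_iff_WS [CompactSpace X] {f g : X ≃ₜ X} {n : ℕ} (hn : 0 < n)
    (hg : ∀ x, g x = f^[n] x) {x y : X} : Asymp f x y ↔ WS g x y := by
  rw [asymp_iff_dist]
  constructor
  · intro h
    have h1 : Tendsto (fun k : ℕ => n * k) atTop atTop :=
      tendsto_id.const_mul_atTop' hn
    have h2 := h.comp h1
    refine h2.congr fun k => ?_
    show dist (f^[n * k] x) (f^[n * k] y) = dist (g^[k] x) (g^[k] y)
    rw [pow_iter hg, pow_iter hg]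
  · intro h
    rw [tendsto_order]
    refine ⟨fun a ha => Eventually.of_forall fun m => lt_of_lt_of_le ha dist_nonneg,
      fun ε hε => ?_⟩
    have hcomm : ∀ x, f (g x) = g (f x) := fun x => by
      rw [hg, hg]
      exact (Function.iterate_succ_apply' f n x).symm.trans (Function.iterate_succ_apply f n x)
    have h1 : ∀ j : ℕ, ∃ m : ℕ, ∀ k ≥ m, dist (g^[k] (f^[j] x)) (g^[k] (f^[j] y)) < ε :=
      fun j => (h.mapIter hcomm j).eventually_lt hε
    choose m hm using h1
    set N := (Finset.range n).sup m with hN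
    rw [eventually_atTop]
    refine ⟨n * N, fun b hb => ?_⟩
    have e1 : b = n * (b / n) + b % n := (Nat.div_add_mod b n).symm
    have h2 : N ≤ b / n := (Nat.le_div_iff_mul_le hn).mpr (by rw [Nat.mul_comm]; exact hb)
    have h3 : m (b % n) ≤ N := Finset.le_sup (f := m) (Finset.mem_range.mpr (Nat.mod_lt b hn))
    have h4 := hm (b % n) (b / n) (h3.trans h2)
    rw [pow_iter hg, pow_iter hg, ← Function.iterate_add_apply, ← Function.iterate_add_apply,
      ← e1] at h4
    exact h4

/-- A trivial iterate with local product structure lives on a point. -/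
theorem eq_of_zero [ConnectedSpace X] {f g : X ≃ₜ X} {n : ℕ} (hn : n = 0)
    (hg : ∀ x, g x = f^[n] x) {c : ℝ} (h : LP g c) (x y : X) : x = y := by
  have h1 : ∀ (k : ℕ) (x : X), g^[k] x = x := by
    intro k x
    rw [pow_iter hg, hn, Nat.zero_mul]
    rfl
  have h2 : ∀ x y : X, dist x y ≤ c → x = y := by
    intro x y hxy
    apply LP.expansive h
    · intro k
      rw [h1, h1]; exact hxy
    · intro k
      have e : ∀ z : X, g.symm^[k] z = z := by
        intro z
        have := iterL g k z
        rwa [h1] at this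
      rw [e, e]; exact hxy
  have h3 : IsOpen ({x} : Set X) := by
    rw [Metric.isOpen_iff]
    intro z hz
    rw [mem_singleton_iff] at hz
    subst hz
    refine ⟨c, h.c_pos, fun w hw => ?_⟩
    rw [mem_ball] at hw
    exact h2 w z hw.le
  have h4 : ({x} : Set X) = univ := IsClopen.eq_univ ⟨isClosed_singleton, h3⟩ (singleton_nonempty x)
  have h5 : y ∈ ({x} : Set X) := by rw [h4]; trivial
  exact (mem_singleton_iff.mp h5).symm

end Pool.Agent.H922R3
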