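import Pool.Agent.H922R3.Pair

set_option autoImplicit false

open Filter Topology Set Metric

namespace Pool.Agent.H922R3

open Pool.Agent.H789R2.AN

variable {X : Type*} [MetricSpace X]

/-- `F` is a finite subset of the local unstable set of size `r` of `x`, separated (at scale `θ`)
at time `n`. -/
structure USep (g : X ≃ₜ X) (r θ : ℝ) (n : ℕ) (x : X) (F : Finset X) : Prop where
  mem : ∀ y ∈ F, SR g.symm r x y
  sep : ∀ y ∈ F, ∀ z ∈ F, y ≠ z → ¬ SR g.symm θ (g^[n] y) (g^[n] z)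

theorem symm_iter_add (g : X ≃ₜ X) (j k : ℕ) (y : X) : g.symm^[j + k] (g^[k] y) = g.symm^[j] y := by
  rw [Function.iterate_add_apply, iterL]

theorem symm_iter_le (g : X ≃ₜ X) {j n : ℕ} (h : j ≤ n) (y : X) :
    g.symm^[j] (g^[n] y) = g^[n - j] y := by
  have : g^[n] y = g^[j] (g^[n - j] y) := by
    rw [← Function.iterate_add_apply]
    congr 1
    omega
  rw [this, iterL]

theorem symm_iter_ge (g : X ≃ₜ X) {j n : ℕ} (h : n ≤ j) (y : X) :
    g.symm^[j] (g^[n] y) = g.symm^[j - n] y := by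
  have : g.symm^[j] = g.symm^[(j - n) + n] := by
    congr 1
    omega
  rw [this, symm_iter_add]

theorem SR_back {g : X ≃ₜ X} {θ : ℝ} {n k : ℕ} {y z : X}
    (h : SR g.symm θ (g^[n + k] y) (g^[n + k] z)) : SR g.symm θ (g^[n] y) (g^[n] z) := by
  intro j
  have h1 := h (j + k)
  have e : ∀ x : X, g.symm^[j + k] (g^[n + k] x) = g.symm^[j] (g^[n] x) := by
    intro x
    rw [Nat.add_comm n k, Function.iterate_add_apply g k n, symm_iter_add]
  rwa [e, e] at h1

theorem SR_back' {g : X ≃ₜ X} {θ : ℝ} {n m : ℕ} (hnm : n ≤ m) {y z : X}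
    (h : SR g.symm θ (g^[m] y) (g^[m] z)) : SR g.symm θ (g^[n] y) (g^[n] z) := by
  obtain ⟨k, rfl⟩ := Nat.exists_eq_add_of_le hnm
  exact SR_back h

theorem fwd_of_SR {g : X ≃ₜ X} {θ : ℝ} {m : ℕ} {y z : X}
    (h : SR g.symm θ (g^[m] y) (g^[m] z)) (i : ℕ) (hi : i ≤ m) :
    dist (g^[i] y) (g^[i] z) ≤ θ := SR_back' hi h 0

theorem SR_of_fwd {g : X ≃ₜ X} {θ : ℝ} {m : ℕ} {y z : X} (h : SR g.symm θ y z)
    (h' : ∀ i ≤ m, dist (g^[i] y) (g^[i] z) ≤ θ) : SR g.symm θ (g^[m] y) (g^[m] z) := by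
  intro j
  rcases le_total j m with hj | hj
  · rw [symm_iter_le g hj, symm_iter_le g hj]
    exact h' _ (Nat.sub_le _ _)
  · rw [symm_iter_ge g hj, symm_iter_ge g hj]
    exact h _

theorem SR.trans' {g : X ≃ₜ X} {ε ε' : ℝ} {x y z : X} (h : SR g ε x y) (h' : SR g ε' y z) :
    SR g (ε + ε') x z := fun k => (dist_triangle _ (g^[k] y) _).trans (add_le_add (h k) (h' k))

/-- Uniform separation bound. -/
theorem close_SR [CompactSpace X] {g : X ≃ₜ X} {c : ℝ} (h : LP g c) {θ : ℝ} (hθ : 0 < θ) (n : ℕ) :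
    ∃ δ > 0, ∀ y z, SR g.symm c y z → dist y z < δ → SR g.symm θ (g^[n] y) (g^[n] z) := by
  obtain ⟨J, hJ⟩ := eventually_atTop.mp ((tendsto_order.mp (tendsto_chalf c)).2 θ hθ)
  have hcont : Continuous (fun y : X => (fun i : Fin (n + J + 1) => g^[(i : ℕ)] (g.symm^[J] y))) :=
    continuous_pi fun i => (g.continuous.iterate _).comp (g.symm.continuous.iterate _)
  have hu := CompactSpace.uniformContinuous_of_continuous hcont
  rw [Metric.uniformContinuous_iff] at hu
  obtain ⟨δ, hδ, h1⟩ := hu θ hθ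
  refine ⟨δ, hδ, fun y z hyz hd k => ?_⟩
  have h2 := h1 hd
  rcases le_total k (n + J) with hk | hk
  · have e : ∀ x : X, g.symm^[k] (g^[n] x) = g^[n + J - k] (g.symm^[J] x) := by
      intro x
      have e1 : g^[n] x = g^[n + J] (g.symm^[J] x) := by
        rw [Function.iterate_add_apply, iterR]
      rw [e1, symm_iter_le g hk]
    rw [e, e]
    have h3 := dist_le_pi_dist (fun i : Fin (n + J + 1) => g^[(i : ℕ)] (g.symm^[J] y))
      (fun i : Fin (n + J + 1) => g^[(i : ℕ)] (g.symm^[J] z)) ⟨n + J - k, by omega⟩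
    exact h3.trans h2.le
  · rw [symm_iter_ge g (by omega : n ≤ k), symm_iter_ge g (by omega : n ≤ k)]
    exact (h.cU _ _ hyz _).trans (hJ _ (by omega)).le

theorem fin_bound [CompactSpace X] {g : X ≃ₜ X} {c : ℝ} (h : LP g c) {r θ : ℝ} (hr : 2 * r ≤ c)
    (hθ : 0 < θ) (n : ℕ) : ∃ B : ℕ, ∀ x F, USep g r θ n x F → F.card ≤ B := by
  obtain ⟨δ, hδ, h1⟩ := close_SR h hθ n
  obtain ⟨t, -, ht⟩ := (isCompact_univ (X := X)).elim_nhds_subcover (fun y => ball y (δ / 2))
    (fun y _ => ball_mem_nhds y (half_pos hδ))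
  refine ⟨t.card, fun x F hF => ?_⟩
  have hch : ∀ y : X, ∃ p ∈ t, dist y p < δ / 2 := by
    intro y
    obtain ⟨p, hp, hyp⟩ := mem_iUnion₂.mp (ht (mem_univ y))
    exact ⟨p, hp, hyp⟩
  choose p hp hdp using hch
  apply Finset.card_le_card_of_injOn p (fun y _ => hp y)
  intro y hy z hz hyz
  by_contra hne
  apply hF.sep y hy z hz hne
  apply h1
  · have h2 : SR g.symm (r + r) y z := SR.trans' (hF.mem y hy).symm' (hF.mem z hz)
    exact h2.mono (by linarith)
  · have h2 := hdp y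
    have h3 := hdp z
    rw [← hyz] at h3
    have h4 := dist_triangle y (p y) z
    rw [dist_comm (p y) z] at h4
    linarith

theorem USep.subset {g : X ≃ₜ X} {r θ : ℝ} {n : ℕ} {x : X} {F G : Finset X} (h : USep g r θ n x F)
    (hG : G ⊆ F) : USep g r θ n x G :=
  ⟨fun y hy => h.mem y (hG hy), fun y hy z hz => h.sep y (hG hy) z (hG hz)⟩

theorem USep.time {g : X ≃ₜ X} {r θ : ℝ} {n m : ℕ} (hnm : n ≤ m) {x : X} {F : Finset X}
    (h : USep g r θ n x F) : USep g r θ m x F :=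
  ⟨h.mem, fun y hy z hz hne hcon => h.sep y hy z hz hne (SR_back' hnm hcon)⟩

theorem USep.scale {g : X ≃ₜ X} {r θ θ' : ℝ} (hθ : θ' ≤ θ) {n : ℕ} {x : X} {F : Finset X}
    (h : USep g r θ n x F) : USep g r θ' n x F :=
  ⟨h.mem, fun y hy z hz hne hcon => h.sep y hy z hz hne (hcon.mono hθ)⟩

/-- Separation at a small scale gives separation at a large scale a bit later. -/
theorem USep.up {g : X ≃ₜ X} {c : ℝ} (hg : LP g c) {r θ θ' : ℝ} {s : ℕ}
    (hs : c * (1 / 2) ^ s ≤ θ) (hθ' : θ' ≤ c) {n : ℕ} {x : X} {F : Finset X}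
    (h : USep g r θ n x F) : USep g r θ' (n + s) x F := by
  refine ⟨h.mem, fun y hy z hz hne hcon => h.sep y hy z hz hne ?_⟩
  intro k
  have h1 := hg.cU _ _ (hcon.mono hθ') (k + s)
  have e : ∀ x : X, g.symm^[k + s] (g^[n + s] x) = g.symm^[k] (g^[n] x) := by
    intro x
    rw [Nat.add_comm n s, Function.iterate_add_apply g s n, symm_iter_add]
  rw [e, e] at h1
  refine h1.trans (le_trans ?_ hs)
  apply mul_le_mul_of_nonneg_left _ hg.c_pos.le
  exact pow_le_pow_of_le_one (by norm_num) (by norm_num) (by omega)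

/-- Grouping a separated set according to an earlier time. -/
theorem USep.group {g : X ≃ₜ X} {r θ : ℝ} (hθ : 0 ≤ θ) {m k : ℕ} {x : X} {F : Finset X}
    (h : USep g r θ (m + k) x F) (B : ℕ)
    (hB : ∀ z ∈ F, ∀ F', USep g θ θ k (g^[m] z) F' → F'.card ≤ B) :
    ∃ G ⊆ F, USep g r θ m x G ∧ F.card ≤ G.card * B := by
  classical
  obtain ⟨G, hG, hmax⟩ := Finset.exists_max_image (F.powerset.filter fun G => USep g r θ m x G)
    Finset.card ⟨∅, by
      rw [Finset.mem_filter]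
      exact ⟨Finset.empty_mem_powerset _, ⟨fun y hy => absurd hy (Finset.notMem_empty y),
        fun y hy => absurd hy (Finset.notMem_empty y)⟩⟩⟩
  rw [Finset.mem_filter, Finset.mem_powerset] at hG
  obtain ⟨hGF, hGs⟩ := hG
  refine ⟨G, hGF, hGs, ?_⟩
  have hcov : ∀ y ∈ F, ∃ z ∈ G, SR g.symm θ (g^[m] z) (g^[m] y) := by
    intro y hy
    by_contra hcon
    push Not at hcon
    have hyG : y ∉ G := fun hyG => hcon y hyG (fun k => by rw [dist_self]; exact hθ)
    have h1 : USep g r θ m x (insert y G) := by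
      refine ⟨fun z hz => ?_, fun z hz w hw hne => ?_⟩
      · rcases Finset.mem_insert.mp hz with rfl | hz
        · exact h.mem _ hy
        · exact hGs.mem z hz
      · rcases Finset.mem_insert.mp hz with hz' | hz'
        · rcases Finset.mem_insert.mp hw with hw' | hw'
          · exact absurd (hz'.trans hw'.symm) hne
          · rw [hz']
            exact fun hc => hcon w hw' hc.symm'
        · rcases Finset.mem_insert.mp hw with hw' | hw'
          · rw [hw']
            exact hcon z hz'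
          · exact hGs.sep z hz' w hw' hne
    have h2 := hmax (insert y G) (by
      rw [Finset.mem_filter, Finset.mem_powerset]
      exact ⟨Finset.insert_subset hy hGF, h1⟩)
    rw [Finset.card_insert_of_notMem hyG] at h2
    omega
  have hsub : F ⊆ G.biUnion fun z => F.filter fun y => SR g.symm θ (g^[m] z) (g^[m] y) := by
    intro y hy
    obtain ⟨z, hz, h1⟩ := hcov y hy
    rw [Finset.mem_biUnion]
    exact ⟨z, hz, by rw [Finset.mem_filter]; exact ⟨hy, h1⟩⟩
  refine (Finset.card_le_card hsub).trans (Finset.card_biUnion_le_card_mul _ _ _ ?_)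
  intro z hz
  have hinj : Function.Injective (g^[m]) := g.injective.iterate m
  have h1 : USep g θ θ k (g^[m] z)
      ((F.filter fun y => SR g.symm θ (g^[m] z) (g^[m] y)).image (g^[m])) := by
    refine ⟨fun w hw => ?_, fun w hw v hv hne => ?_⟩
    · obtain ⟨y, hy, rfl⟩ := Finset.mem_image.mp hw
      exact (Finset.mem_filter.mp hy).2
    · obtain ⟨y, hy, rfl⟩ := Finset.mem_image.mp hw
      obtain ⟨y', hy', rfl⟩ := Finset.mem_image.mp hv
      rw [← Function.iterate_add_apply, ← Function.iterate_add_apply, Nat.add_comm k m]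
      exact h.sep y (Finset.mem_filter.mp hy).1 y' (Finset.mem_filter.mp hy').1
        (fun he => hne (by rw [he]))
  have h2 := hB z (hGF hz) _ h1
  rwa [Finset.card_image_of_injective _ hinj] at h2

/-- The largest cardinality of separated subsets of local unstable sets of points of `S`. -/
noncomputable def cnt (g : X ≃ₜ X) (S : Set X) (r θ : ℝ) (n : ℕ) : ℕ :=
  sSup {k | ∃ x ∈ S, ∃ F, USep g r θ n x F ∧ F.card = k}

section cnt

variable {g : X ≃ₜ X} {c : ℝ} {S : Set X} {r θ : ℝ}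

theorem cnt_bdd [CompactSpace X] (h : LP g c) (hr : 2 * r ≤ c) (hθ : 0 < θ) (n : ℕ) :
    BddAbove {k | ∃ x ∈ S, ∃ F, USep g r θ n x F ∧ F.card = k} := by
  obtain ⟨B, hB⟩ := fin_bound h hr hθ n
  exact ⟨B, by rintro k ⟨x, -, F, hF, rfl⟩; exact hB x F hF⟩

theorem le_cnt [CompactSpace X] (h : LP g c) (hr : 2 * r ≤ c) (hθ : 0 < θ) {n : ℕ} {x : X}
    (hx : x ∈ S) {F : Finset X} (hF : USep g r θ n x F) : F.card ≤ cnt g S r θ n := by
  have h1 : F.card ∈ {k | ∃ x ∈ S, ∃ F, USep g r θ n x F ∧ F.card = k} := ⟨x, hx, F, hF, rfl⟩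
  exact le_csSup (cnt_bdd h hr hθ n) h1

theorem one_usep (hr : 0 ≤ r) (n : ℕ) (x : X) : USep g r θ n x {x} := by
  refine ⟨fun y hy => ?_, fun y hy z hz hne => ?_⟩
  · rw [Finset.mem_singleton.mp hy]
    exact fun k => by rw [dist_self]; exact hr
  · rw [Finset.mem_singleton.mp hy, Finset.mem_singleton.mp hz] at hne
    exact absurd rfl hne

theorem exists_cnt [CompactSpace X] (h : LP g c) (hr0 : 0 ≤ r) (hr : 2 * r ≤ c) (hθ : 0 < θ)
    (hS : S.Nonempty) (n : ℕ) : ∃ x ∈ S, ∃ F, USep g r θ n x F ∧ F.card = cnt g S r θ n := by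
  obtain ⟨x, hx⟩ := hS
  have h1 : {k | ∃ x ∈ S, ∃ F, USep g r θ n x F ∧ F.card = k}.Nonempty :=
    ⟨1, x, hx, {x}, one_usep hr0 n x, Finset.card_singleton x⟩
  exact Nat.sSup_mem h1 (cnt_bdd h hr hθ n)

theorem one_le_cnt [CompactSpace X] (h : LP g c) (hr0 : 0 ≤ r) (hr : 2 * r ≤ c) (hθ : 0 < θ)
    (hS : S.Nonempty) (n : ℕ) : 1 ≤ cnt g S r θ n := by
  obtain ⟨x, hx⟩ := hS
  have := le_cnt (S := S) (r := r) (θ := θ) h hr hθ hx (one_usep hr0 n x)
  rwa [Finset.card_singleton] at this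

theorem cnt_mono [CompactSpace X] (h : LP g c) (hr0 : 0 ≤ r) (hr : 2 * r ≤ c) (hθ : 0 < θ)
    (hS : S.Nonempty) : Monotone (cnt g S r θ) := by
  intro n m hnm
  obtain ⟨x, hx, F, hF, he⟩ := exists_cnt h hr0 hr hθ hS n
  rw [← he]
  exact le_cnt h hr hθ hx (hF.time hnm)

/-- Growth in one step is bounded. -/
theorem cnt_step [CompactSpace X] (h : LP g c) (hr0 : 0 ≤ r) (hr : 2 * r ≤ c) (hθ : 0 < θ)
    (hθc : 2 * θ ≤ c) (hS : S.Nonempty) : ∃ B : ℕ, ∀ m, cnt g S r θ (m + 1) ≤ cnt g S r θ m * B := by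
  obtain ⟨B, hB⟩ := fin_bound h hθc hθ 1
  refine ⟨B, fun m => ?_⟩
  obtain ⟨x, hx, F, hF, he⟩ := exists_cnt h hr0 hr hθ hS (m + 1)
  obtain ⟨G, -, hG, hle⟩ := hF.group hθ.le B (fun z _ F' hF' => hB _ F' hF')
  rw [← he]
  exact hle.trans (Nat.mul_le_mul_right B (le_cnt h hr hθ hx hG))

/-- Submultiplicativity on a set saturated by unstable sets. -/
theorem cnt_sub [CompactSpace X] (h : LP g c) (hr0 : 0 < r) (hr : 2 * r ≤ c) (hθ : 0 < θ)
    (hθc : 2 * θ ≤ c) (hS : IsAtt g S) :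
    ∃ j : ℕ, ∀ m k, cnt g S r θ (m + k) ≤ cnt g S r θ m * cnt g S r θ (k + j) := by
  classical
  obtain ⟨j, hj⟩ := eventually_atTop.mp ((tendsto_order.mp (tendsto_chalf c)).2 r hr0)
  refine ⟨j, fun m k => ?_⟩
  obtain ⟨x, hx, F, hF, he⟩ := exists_cnt h hr0.le hr hθ hS.nonempty (m + k)
  obtain ⟨G, -, hG, hle⟩ := hF.group hθ.le (cnt g S r θ (k + j)) (fun z hz F' hF' => by
    have hzS : z ∈ S := hS.sat x hx z (WS.of_SR (h.cU _ _ ((hF.mem z hz).mono (by linarith))))
    have hyS : g.symm^[j] (g^[m] z) ∈ S :=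
      (inv_iter (inv_symm hS.inv) j _).mpr ((inv_iter hS.inv m z).mpr hzS)
    have hinj : Function.Injective (g.symm^[j]) := g.symm.injective.iterate j
    have h1 : USep g r θ (k + j) (g.symm^[j] (g^[m] z)) (F'.image (g.symm^[j])) := by
      refine ⟨fun w hw => ?_, fun w hw v hv hne => ?_⟩
      · obtain ⟨y, hy, rfl⟩ := Finset.mem_image.mp hw
        intro i
        have h2 := h.cU _ _ ((hF'.mem y hy).mono (by linarith)) (i + j)
        rw [Function.iterate_add_apply, Function.iterate_add_apply] at h2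
        refine h2.trans (le_trans ?_ (hj j le_rfl).le)
        apply mul_le_mul_of_nonneg_left _ h.c_pos.le
        exact pow_le_pow_of_le_one (by norm_num) (by norm_num) (by omega)
      · obtain ⟨y, hy, rfl⟩ := Finset.mem_image.mp hw
        obtain ⟨y', hy', rfl⟩ := Finset.mem_image.mp hv
        rw [Function.iterate_add_apply, Function.iterate_add_apply, iterR, iterR]
        exact hF'.sep y hy y' hy' (fun he => hne (by rw [he]))
    have h2 := le_cnt (S := S) h hr hθ hyS h1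
    rwa [Finset.card_image_of_injective _ hinj] at h2)
  rw [← he]
  exact hle.trans (Nat.mul_le_mul_right _ (le_cnt h hr hθ hx hG))

end cnt

end Pool.Agent.H922R3
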