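import Pool.Agent.H922R3.FPair

set_option autoImplicit false

open Filter Topology Set Metric

namespace Pool.Agent.H922R3

open Pool.Agent.H789R2.AN

variable {X Y : Type*} [MetricSpace X] [MetricSpace Y]

/-- Open maps of compact spaces are uniformly open. -/
theorem unif_open [CompactSpace X] {π : X → Y} (hc : Continuous π) (ho : IsOpenMap π) {ε : ℝ}
    (hε : 0 < ε) : ∃ δ > 0, ∀ (x : X) (y' : Y), dist (π x) y' < δ → ∃ z, dist x z < ε ∧ π z = y' := by
  have hloc : ∀ x₀ : X, ∃ δ > 0, ∃ r > 0, ∀ x, dist x x₀ < r → ∀ y', dist (π x) y' < δ →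
      ∃ z, dist x z < ε ∧ π z = y' := by
    intro x₀
    have h1 : π '' ball x₀ (ε / 2) ∈ 𝓝 (π x₀) :=
      (ho _ isOpen_ball).mem_nhds ⟨x₀, mem_ball_self (half_pos hε), rfl⟩
    obtain ⟨δ, hδ, h2⟩ := Metric.mem_nhds_iff.mp h1
    have h3 : π ⁻¹' ball (π x₀) (δ / 2) ∈ 𝓝 x₀ :=
      hc.continuousAt.preimage_mem_nhds (ball_mem_nhds _ (half_pos hδ))
    obtain ⟨r, hr, h4⟩ := Metric.mem_nhds_iff.mp h3
    refine ⟨δ / 2, half_pos hδ, min r (ε / 2), lt_min hr (half_pos hε), fun x hx y' hy' => ?_⟩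
    have h5 : dist (π x) (π x₀) < δ / 2 := h4 (hx.trans_le (min_le_left _ _))
    have h6 : y' ∈ ball (π x₀) δ := by
      rw [mem_ball]
      have := dist_triangle y' (π x) (π x₀)
      rw [dist_comm y' (π x)] at this
      linarith
    obtain ⟨z, hz, he⟩ := h2 h6
    refine ⟨z, ?_, he⟩
    rw [mem_ball, dist_comm] at hz
    have h7 : dist x x₀ < ε / 2 := hx.trans_le (min_le_right _ _)
    have := dist_triangle x x₀ z
    linarith
  choose δ hδ r hr hloc using hloc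
  obtain ⟨t, -, hcov⟩ := (isCompact_univ (X := X)).elim_nhds_subcover (fun x => ball x (r x))
    (fun x _ => ball_mem_nhds x (hr x))
  have hmin : ∃ δ₀ > 0, ∀ x ∈ t, δ₀ ≤ δ x := by
    classical
    induction t using Finset.induction_on with
    | empty => exact ⟨1, one_pos, fun x hx => absurd hx (Finset.notMem_empty x)⟩
    | insert a s ha ih =>
      have ih' : ∃ δ₀ > 0, ∀ x ∈ s, δ₀ ≤ δ x := by
        clear ih hcov
        induction s using Finset.induction_on with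
        | empty => exact ⟨1, one_pos, fun x hx => absurd hx (Finset.notMem_empty x)⟩
        | insert b s hb ih =>
          obtain ⟨δ₀, h0, h1⟩ := ih (fun hcon => ha (Finset.mem_insert_of_mem hcon))
          refine ⟨min δ₀ (δ b), lt_min h0 (hδ b), fun x hx => ?_⟩
          rcases Finset.mem_insert.mp hx with rfl | hx
          · exact min_le_right _ _
          · exact (min_le_left _ _).trans (h1 x hx)
      obtain ⟨δ₀, h0, h1⟩ := ih'
      refine ⟨min δ₀ (δ a), lt_min h0 (hδ a), fun x hx => ?_⟩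
      rcases Finset.mem_insert.mp hx with rfl | hx
      · exact min_le_right _ _
      · exact (min_le_left _ _).trans (h1 x hx)
  obtain ⟨δ₀, hδ₀, hle⟩ := hmin
  refine ⟨δ₀, hδ₀, fun x y' hxy => ?_⟩
  obtain ⟨p, hp, hxp⟩ := mem_iUnion₂.mp (hcov (mem_univ x))
  exact hloc p x hxp y' (hxy.trans_le (hle p hp))

/-- Stable closeness is pushed forward by a semiconjugacy. -/
theorem SR_push [CompactSpace X] {f F : X ≃ₜ X} {n : ℕ} (hn : 0 < n) (hF : ∀ x, F x = f^[n] x)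
    {g G : Y ≃ₜ Y} {m : ℕ} (hG : ∀ x, G x = g^[m] x) {π : X → Y} (hc : Continuous π)
    (hsemi : ∀ x, π (f x) = g (π x)) {η : ℝ} (hη : 0 < η) :
    ∃ ε > 0, ∀ a b, SR F ε a b → SR G η (π a) (π b) := by
  have hpi : ∀ (i : ℕ) (x : X), π (f^[i] x) = g^[i] (π x) := fun i x =>
    (Function.Semiconj.iterate_right (f := π) (ga := f) (gb := g) hsemi i) x
  obtain ⟨ε, hε, h1⟩ := unif_fin (fun i x => π (f^[i] x)) (fun i => hc.comp (f.continuous.iterate i))
    n hη
  refine ⟨ε / 2, half_pos hε, fun a b hab k => ?_⟩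
  rw [pow_iter hG, pow_iter hG, ← hpi, ← hpi, mod_split hF (m * k) a, mod_split hF (m * k) b]
  have h2 := h1 (m * k % n) (Nat.mod_lt _ hn) (F^[m * k / n] a) (F^[m * k / n] b)
    (lt_of_le_of_lt (hab _) (half_lt_self hε))
  exact h2.le

/-- Unstable sets lift along open semiconjugacies. -/
theorem lift_WS [CompactSpace X] [CompactSpace Y] {f F : X ≃ₜ X} {n : ℕ} (hn : 0 < n)
    (hF : ∀ x, F x = f^[n] x) {c : ℝ} (h : LP F c) {g G : Y ≃ₜ Y} {m : ℕ} (hm : 0 < m)
    (hG : ∀ x, G x = g^[m] x) {c' : ℝ} (h' : LP G c') {π : X → Y} (hc : Continuous π)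
    (ho : IsOpenMap π) (hsemi : ∀ x, π (f x) = g (π x)) {x : X} {y' : Y}
    (hy : WS G.symm (π x) y') : ∃ x', WS F.symm x x' ∧ π x' = y' := by
  have hsemi' : ∀ x, π (f.symm x) = g.symm (π x) := by
    intro x
    apply g.injective
    rw [← hsemi, f.apply_symm_apply, g.apply_symm_apply]
  have hpi : ∀ (i : ℕ) (x : X), π (f^[i] x) = g^[i] (π x) := fun i x =>
    (Function.Semiconj.iterate_right (f := π) (ga := f) (gb := g) hsemi i) x
  have hpi' : ∀ (i : ℕ) (x : X), π (f.symm^[i] x) = g.symm^[i] (π x) := fun i x =>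
    (Function.Semiconj.iterate_right (f := π) (ga := f.symm) (gb := g.symm) hsemi' i) x
  have hc'0 := h'.c_pos
  obtain ⟨ε₁, hε₁, hp1⟩ := SR_push hn hF hG hc hsemi (half_pos hc'0)
  obtain ⟨ε₂, hε₂, hp2⟩ := SR_push hn (pow_symm hF) (pow_symm hG) hc hsemi' (half_pos hc'0)
  set ε := min (min ε₁ ε₂) c with hε
  have hε0 : 0 < ε := lt_min (lt_min hε₁ hε₂) h.c_pos
  obtain ⟨δ, hδ, hlp⟩ := h.lp ε hε0
  obtain ⟨δ₂, hδ₂, hopen⟩ := unif_open hc ho hδ
  -- asymptotic in terms of g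
  have hy1 : Asymp g.symm (π x) y' := (asymp_iff_WS hm (pow_symm hG)).mpr hy
  rw [asymp_iff_dist] at hy1
  obtain ⟨N, hN⟩ := eventually_atTop.mp ((tendsto_order.mp hy1).2 (min δ₂ (c' / 2))
    (lt_min hδ₂ (half_pos hc'0)))
  have hNn : N ≤ n * N := Nat.le_mul_of_pos_left N hn
  set k := n * N with hk
  set xk := f.symm^[k] x with hxk
  have hxk' : xk = F.symm^[N] x := (pow_iter (pow_symm hF) N x).symm
  have hd1 : dist (π xk) (g.symm^[k] y') < δ₂ := by
    rw [hxk, hpi']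
    exact (hN k hNn).trans_le (min_le_left _ _)
  obtain ⟨z, hz1, hz2⟩ := hopen xk _ hd1
  obtain ⟨w, hw1, hw2⟩ := hlp z xk (by rwa [dist_comm])
  have a1 : SR G (c' / 2) (π z) (π w) :=
    hp1 _ _ (hw1.mono ((min_le_left _ _).trans (min_le_left _ _)))
  have a2 : SR G.symm (c' / 2) (π xk) (π w) :=
    hp2 _ _ (hw2.mono ((min_le_left _ _).trans (min_le_right _ _)))
  have a3 : SR G.symm (c' / 2) (π z) (π xk) := by
    intro i
    rw [hz2, hxk, hpi', pow_iter (pow_symm hG), pow_iter (pow_symm hG),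
      ← Function.iterate_add_apply, ← Function.iterate_add_apply, dist_comm]
    exact ((hN (m * i + k) (by omega)).trans_le (min_le_right _ _)).le
  have a4 : SR G.symm c' (π z) (π w) := fun i => by
    have := dist_triangle (G.symm^[i] (π z)) (G.symm^[i] (π xk)) (G.symm^[i] (π w))
    have b1 := a3 i
    have b2 := a2 i
    linarith
  have a5 : π z = π w := LP.expansive h' (a1.mono (by linarith)) a4
  refine ⟨f^[k] w, ?_, ?_⟩
  · have hw3 : WS F.symm xk w := WS.of_SR (h.cU _ _ (hw2.mono (min_le_right _ _)))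
    rw [← WS.iter N, ← hxk']
    have e : F.symm^[N] (f^[k] w) = w := by
      rw [pow_iter (pow_symm hF), iterL]
    rw [e]
    exact hw3
  · rw [hpi, ← a5, hz2, iterR]

/-- The image of an invariant attractor is everything. -/
theorem image_full [CompactSpace X] [CompactSpace Y] {f F : X ≃ₜ X} {n : ℕ} (hn : 0 < n)
    (hF : ∀ x, F x = f^[n] x) {c : ℝ} (h : LP F c) {g G : Y ≃ₜ Y} {m : ℕ} (hm : 0 < m)
    (hG : ∀ x, G x = g^[m] x) {c' : ℝ} (h' : LP G c') {π : X → Y} (hc : Continuous π)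
    (ho : IsOpenMap π) (hsemi : ∀ x, π (f x) = g (π x))
    (htr : ∀ U V : Set Y, IsOpen U → U.Nonempty → IsOpen V → V.Nonempty →
      ∃ j : ℕ, (g^[j] '' U ∩ V).Nonempty) {A : Set X} (hA : FAtt f F A) (y : Y) :
    ∃ a ∈ A, π a = y := by
  have hpi : ∀ (i : ℕ) (x : X), π (f^[i] x) = g^[i] (π x) := fun i x =>
    (Function.Semiconj.iterate_right (f := π) (ga := f) (gb := g) hsemi i) x
  have hinv : ∀ y, g y ∈ π '' A ↔ y ∈ π '' A := by
    intro y
    constructor
    · rintro ⟨a, ha, he⟩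
      refine ⟨f.symm a, (inv_symm hA.inv a).mpr ha, ?_⟩
      apply g.injective
      rw [← hsemi, f.apply_symm_apply, he]
    · rintro ⟨a, ha, rfl⟩
      exact ⟨f a, (hA.inv a).mpr ha, hsemi a⟩
  have hB : FAtt g G (π '' A) := by
    refine ⟨⟨(hA.att.closed.isCompact.image hc).isClosed, hA.att.nonempty.image π, ?_, ?_⟩, hinv⟩
    · intro y
      rw [hG, inv_iter hinv]
    · rintro _ ⟨a, ha, rfl⟩ y' hy'
      obtain ⟨x', h1, h2⟩ := lift_WS hn hF h hm hG h' hc ho hsemi hy'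
      exact ⟨x', hA.att.sat a ha x' h1, h2⟩
  obtain ⟨b, hb⟩ := hB.att.nonempty
  exact reach_mem hm hG h' hB hb fun U V hU hbU hV hyV => htr U V hU ⟨b, hbU⟩ hV ⟨y, hyV⟩

/-- **Transitivity of extensions.** -/
theorem ext_main [CompactSpace X] [ConnectedSpace X] [CompactSpace Y] {f F : X ≃ₜ X} {n : ℕ}
    (hn : 0 < n) (hF : ∀ x, F x = f^[n] x) {c : ℝ} (h : LP F c) {g G : Y ≃ₜ Y} {m : ℕ}
    (hm : 0 < m) (hG : ∀ x, G x = g^[m] x) {c' : ℝ} (h' : LP G c') {π : X → Y}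
    (hc : Continuous π) (ho : IsOpenMap π) (hsemi : ∀ x, π (f x) = g (π x))
    (htr : ∀ U V : Set Y, IsOpen U → U.Nonempty → IsOpen V → V.Nonempty →
      ∃ j : ℕ, (g^[j] '' U ∩ V).Nonempty) (y : Y)
    (hfib : ∀ a b : X, π a = y → π b = y → ∀ U V : Set X, IsOpen U → a ∈ U → IsOpen V → b ∈ V →
      ∃ j : ℕ, (f^[j] '' U ∩ V).Nonempty) : ∀ A, IsAtt F A → A = univ := by
  intro A₀ hA₀
  by_contra hne
  obtain ⟨A, R, hA, hR, hdisj⟩ := exists_fpair hn hF h ⟨A₀, hA₀, hne⟩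
  have hsemi' : ∀ x, π (f.symm x) = g.symm (π x) := by
    intro x
    apply g.injective
    rw [← hsemi, f.apply_symm_apply, g.apply_symm_apply]
  have htr' : ∀ U V : Set Y, IsOpen U → U.Nonempty → IsOpen V → V.Nonempty →
      ∃ j : ℕ, (g.symm^[j] '' U ∩ V).Nonempty := by
    intro U V hU hUn hV hVn
    obtain ⟨j, z, ⟨v, hv, rfl⟩, hz⟩ := htr V U hV hVn hU hUn
    exact ⟨j, v, ⟨g^[j] v, hz, iterL g j v⟩, hv⟩
  obtain ⟨a, ha, hay⟩ := image_full hn hF h hm hG h' hc ho hsemi htr hA y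
  obtain ⟨b, hb, hby⟩ := image_full hn (pow_symm hF) h.symm hm (pow_symm hG) h'.symm hc ho
    hsemi' htr' hR y
  have hbA : b ∈ A := reach_mem hn hF h hA ha (hfib a b hay hby)
  exact Set.disjoint_left.mp hdisj hbA hb

end Pool.Agent.H922R3
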