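import Pool.Agent.H922R3.Pair
import Pool.Agent.H922R3.Conv

set_option autoImplicit false

open Filter Topology Set Metric

namespace Pool.Agent.H922R3

open Pool.Agent.H789R2.AN

variable {X : Type*} [MetricSpace X]

theorem comm_of_pow {f F : X ≃ₜ X} {n : ℕ} (hF : ∀ x, F x = f^[n] x) (x : X) :
    f (F x) = F (f x) := by
  rw [hF, hF]
  exact (Function.iterate_succ_apply' f n x).symm.trans (Function.iterate_succ_apply f n x)

/-- A closed set invariant under `f`, saturated by the unstable sets. -/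
structure FAtt (f F : X ≃ₜ X) (A : Set X) : Prop where
  att : IsAtt F A
  inv : ∀ x, f x ∈ A ↔ x ∈ A

theorem mod_split {f F : X ≃ₜ X} {n : ℕ} (hF : ∀ x, F x = f^[n] x) (i : ℕ) (x : X) :
    f^[i] x = f^[i % n] (F^[i / n] x) := by
  rw [pow_iter hF, ← Function.iterate_add_apply, Nat.mod_add_div]

theorem mod_split' {f F : X ≃ₜ X} {n : ℕ} (hF : ∀ x, F x = f^[n] x) (i : ℕ) (x : X) :
    f^[i] x = F^[i / n] (f^[i % n] x) := by
  rw [pow_iter hF, ← Function.iterate_add_apply, Nat.div_add_mod]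

theorem fatt_of_att {f F : X ≃ₜ X} [CompactSpace X] {n : ℕ} (hn : 0 < n)
    (hF : ∀ x, F x = f^[n] x) {A : Set X} (hA : IsAtt F A) :
    FAtt f F {x | ∃ i : ℕ, f^[i] x ∈ A} := by
  have hcomm : ∀ x, f (F.symm x) = F.symm (f x) := fun x => comm_symm_right (comm_of_pow hF) x
  have hfin : {x | ∃ i : ℕ, f^[i] x ∈ A} = ⋃ i ∈ Finset.range n, (f^[i]) ⁻¹' A := by
    ext x
    simp only [mem_ofPred_eq, mem_iUnion, mem_preimage, Finset.mem_range, exists_prop]
    constructor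
    · rintro ⟨i, hi⟩
      refine ⟨i % n, Nat.mod_lt i hn, ?_⟩
      rw [mod_split' hF, inv_iter hA.inv] at hi
      exact hi
    · rintro ⟨i, -, hi⟩
      exact ⟨i, hi⟩
  have hinv : ∀ x, f x ∈ {x | ∃ i : ℕ, f^[i] x ∈ A} ↔ x ∈ {x | ∃ i : ℕ, f^[i] x ∈ A} := by
    intro x
    constructor
    · rintro ⟨i, hi⟩
      exact ⟨i + 1, hi⟩
    · rintro ⟨i, hi⟩
      rcases Nat.eq_zero_or_pos i with h0 | h0
      · refine ⟨n - 1, ?_⟩
        have h1 : F x ∈ A := by
          rw [hA.inv]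
          rw [h0] at hi
          exact hi
        rw [hF] at h1
        have e : n = (n - 1) + 1 := by omega
        rw [e, Function.iterate_succ_apply] at h1
        exact h1
      · refine ⟨i - 1, ?_⟩
        have e : i = (i - 1) + 1 := by omega
        rw [e, Function.iterate_succ_apply] at hi
        exact hi
  refine ⟨⟨?_, ?_, ?_, ?_⟩, hinv⟩
  · rw [hfin]
    exact isClosed_biUnion_finset fun i _ => hA.closed.preimage (f.continuous.iterate i)
  · obtain ⟨a, ha⟩ := hA.nonempty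
    exact ⟨a, 0, ha⟩
  · intro x
    rw [hF, inv_iter hinv]
  · rintro x ⟨i, hi⟩ y hxy
    exact ⟨i, hA.sat _ hi _ (hxy.mapIter hcomm i)⟩

/-- Not transitive: disjoint `f`-invariant attractor and repeller. -/
theorem exists_fpair [CompactSpace X] [ConnectedSpace X] {f F : X ≃ₜ X} {n : ℕ} (hn : 0 < n)
    (hF : ∀ x, F x = f^[n] x) {c : ℝ} (h : LP F c) (hnt : ∃ A, IsAtt F A ∧ A ≠ univ) :
    ∃ A R : Set X, FAtt f F A ∧ FAtt f.symm F.symm R ∧ Disjoint A R := by
  obtain ⟨A, R, q, P⟩ := exists_pair h hnt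
  have hA := fatt_of_att hn hF P.att.1
  have hR := fatt_of_att hn (pow_symm hF) P.rep.1
  refine ⟨_, _, hA, hR, ?_⟩
  rw [Set.disjoint_left]
  rintro x ⟨i, hi⟩ ⟨j, hj⟩
  -- the shifted repeller
  let φ : X ≃ₜ X := (Pool.Agent.H721R2.iterHomeo f i).symm.trans
    (Pool.Agent.H721R2.iterHomeo f.symm j)
  have hφ : ∀ y, φ y = f.symm^[j] (f.symm^[i] y) := fun y => rfl
  have hc1 : ∀ y, f.symm (F.symm y) = F.symm (f.symm y) := comm_of_pow (pow_symm hF)
  have hcφ : ∀ y, φ (F.symm y) = F.symm (φ y) := by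
    intro y
    have hk : ∀ (k : ℕ) (z : X), f.symm^[k] (F.symm z) = F.symm (f.symm^[k] z) := by
      intro k z
      induction k with
      | zero => rfl
      | succ k ih =>
        rw [Function.iterate_succ_apply', Function.iterate_succ_apply', ih, hc1]
    rw [hφ, hφ, hk, hk]
  have hR' := MinAtt.preimage hcφ P.rep
  have hmem : f^[i] x ∈ A ∩ φ ⁻¹' R := by
    refine ⟨hi, ?_⟩
    rw [mem_preimage, hφ, iterL]
    exact hj
  have h1 : φ ⁻¹' R ⊆ A := meet_rep h P.att.1 hR' ⟨_, hmem⟩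
  have hA' : MinAtt F.symm.symm A := P.att
  have h2 : A ⊆ φ ⁻¹' R := meet_rep h.symm hR'.1 hA' ⟨_, hmem.2, hmem.1⟩
  have h3 : A = φ ⁻¹' R := h2.antisymm h1
  have h4 : A = univ := univ_of_bi h P.att.1 (h3 ▸ hR'.1)
  obtain ⟨r, hr⟩ := P.rep.1.nonempty
  exact Set.disjoint_left.mp P.disj (by rw [h4]; trivial) hr

/-- Uniform continuity for finitely many maps. -/
theorem unif_fin {Y : Type*} [MetricSpace Y] [CompactSpace X] (φ : ℕ → X → Y)
    (hφ : ∀ i, Continuous (φ i)) (n : ℕ) {η : ℝ} (hη : 0 < η) :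
    ∃ ε > 0, ∀ r < n, ∀ a b, dist a b < ε → dist (φ r a) (φ r b) < η := by
  induction n with
  | zero => exact ⟨1, one_pos, fun r hr => absurd hr (by omega)⟩
  | succ n ih =>
    obtain ⟨ε, hε, h1⟩ := ih
    have hu := Metric.uniformContinuous_iff.mp
      (CompactSpace.uniformContinuous_of_continuous (hφ n)) η hη
    obtain ⟨ε', hε', h2⟩ := hu
    refine ⟨min ε ε', lt_min hε hε', fun r hr a b hab => ?_⟩
    rcases Nat.lt_succ_iff_lt_or_eq.mp hr with h3 | h3
    · exact h1 r h3 a b (hab.trans_le (min_le_left _ _))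
    · rw [h3]
      exact h2 (hab.trans_le (min_le_right _ _))

/-- Orbits starting near an attractor stay near it. -/
theorem trap [CompactSpace X] {f F : X ≃ₜ X} {n : ℕ} (hn : 0 < n)
    (hF : ∀ x, F x = f^[n] x) {c : ℝ} (h : LP F c) {A : Set X} (hA : FAtt f F A) {η : ℝ}
    (hη : 0 < η) {a : X} (ha : a ∈ A) :
    ∃ W : Set X, IsOpen W ∧ a ∈ W ∧ ∀ x ∈ W, ∀ j : ℕ, ∃ a' ∈ A, dist (f^[j] x) a' < η := by
  obtain ⟨ε, hε, h1⟩ := unif_fin (fun i => f^[i]) (fun i => f.continuous.iterate i) n hη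
  have hopen := isOpen_bas h hA.att
  obtain ⟨ρ₀, hρ₀, hball⟩ := Metric.isOpen_iff.mp hopen a (subset_bas F A ha)
  have hK : closedBall a (ρ₀ / 2) ⊆ Bas F A := fun y hy => hball (by
    rw [mem_ball]; rw [mem_closedBall] at hy; linarith)
  obtain ⟨m, hm⟩ := unif_attr h hA.att (isCompact_closedBall a (ρ₀ / 2)) hK hε
  obtain ⟨δ, hδ, h2⟩ := unif_fin (fun i => f^[i]) (fun i => f.continuous.iterate i) (n * m) hη
  refine ⟨ball a (min δ (ρ₀ / 2)), isOpen_ball, mem_ball_self (lt_min hδ (half_pos hρ₀)),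
    fun x hx j => ?_⟩
  rw [mem_ball] at hx
  rcases lt_or_ge j (n * m) with hj | hj
  · exact ⟨f^[j] a, (inv_iter hA.inv j a).mpr ha, h2 j hj x a (hx.trans_le (min_le_left _ _))⟩
  · have h3 : m ≤ j / n := (Nat.le_div_iff_mul_le hn).mpr (by rw [Nat.mul_comm]; exact hj)
    obtain ⟨a', ha', h4⟩ := hm (j / n) h3 x (by
      rw [mem_closedBall]
      exact (hx.trans_le (min_le_right _ _)).le)
    refine ⟨f^[j % n] a', (inv_iter hA.inv _ a').mpr ha', ?_⟩
    rw [mod_split hF]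
    exact h1 _ (Nat.mod_lt j hn) _ _ h4

/-- Points reached by approximate orbits from an attractor are in the attractor. -/
theorem reach_mem [CompactSpace X] {f F : X ≃ₜ X} {n : ℕ} (hn : 0 < n)
    (hF : ∀ x, F x = f^[n] x) {c : ℝ} (h : LP F c) {A : Set X} (hA : FAtt f F A) {a b : X}
    (ha : a ∈ A) (hab : ∀ U V : Set X, IsOpen U → a ∈ U → IsOpen V → b ∈ V →
      ∃ j : ℕ, (f^[j] '' U ∩ V).Nonempty) : b ∈ A := by
  rw [← hA.att.closed.closure_eq, Metric.mem_closure_iff]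
  intro η hη
  obtain ⟨W, hW, haW, h1⟩ := trap hn hF h hA (half_pos hη) ha
  obtain ⟨j, z, ⟨x, hx, rfl⟩, hz⟩ := hab W (ball b (η / 2)) hW haW isOpen_ball
    (mem_ball_self (half_pos hη))
  obtain ⟨a', ha', h2⟩ := h1 x hx j
  refine ⟨a', ha', ?_⟩
  have := dist_triangle b (f^[j] x) a'
  rw [mem_ball, dist_comm] at hz
  linarith

end Pool.Agent.H922R3
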