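import Pool.Agent.H922R3.Box

set_option autoImplicit false

open Filter Topology Set Metric MeasureTheory
open scoped ENNReal

namespace Pool.Agent.H922R3

open Pool.Agent.H789R2.AN

variable {X : Type*} [MetricSpace X]

theorem usep_of_family {ι : Type*} {g : X ≃ₜ X} {r θ : ℝ} (hθ : 0 ≤ θ) {n : ℕ} {w : X}
    (S : Finset ι) (Φ : ι → X) (mem : ∀ a ∈ S, SR g.symm r w (Φ a))
    (sep : ∀ a ∈ S, ∀ b ∈ S, a ≠ b → ¬ SR g.symm θ (g^[n] (Φ a)) (g^[n] (Φ b))) :
    ∃ F, USep g r θ n w F ∧ F.card = S.card := by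
  classical
  have hinj : Set.InjOn Φ S := by
    intro a ha b hb hab
    by_contra hne
    apply sep a ha b hb hne
    rw [hab]
    exact fun k => by rw [dist_self]; exact hθ
  refine ⟨S.image Φ, ⟨fun y hy => ?_, fun y hy z hz hne => ?_⟩, Finset.card_image_of_injOn hinj⟩
  · obtain ⟨a, ha, rfl⟩ := Finset.mem_image.mp hy
    exact mem a ha
  · obtain ⟨a, ha, rfl⟩ := Finset.mem_image.mp hy
    obtain ⟨b, hb, rfl⟩ := Finset.mem_image.mp hz
    exact sep a ha b hb (fun he => hne (by rw [he]))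

theorem transfer [CompactSpace X] {g : X ≃ₜ X} {c : ℝ} (h : LP g c) :
    ∃ r₂ > 0, ∀ r ≤ r₂, ∀ x₀ : X, ∀ K₂ : Set X, IsCompact K₂ → K₂ ⊆ Au g x₀ → ∀ ρ > 0,
      ∃ T : ℕ, ∀ m, ∀ y ∈ K₂, ∀ F, USep g r (3 * c / 4) m y F →
        ∃ F', USep g ρ (c / 2) (m + T) x₀ F' ∧ F'.card = F.card := by
  have hc := h.c_pos
  obtain ⟨δ, hδ, hlp⟩ := h.lp (c / 8) (by positivity)
  refine ⟨min (δ / 4) (c / 8), lt_min (by positivity) (by positivity),
    fun r hr x₀ K₂ hK₂ hKA ρ hρ => ?_⟩
  have hrδ : r ≤ δ / 4 := hr.trans (min_le_left _ _)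
  have hrc : r ≤ c / 8 := hr.trans (min_le_right _ _)
  obtain ⟨N, hN⟩ := eventually_atTop.mp ((tendsto_order.mp (tendsto_chalf c)).2 (ρ / 2)
    (half_pos hρ))
  set ε := min (ρ / 2) (δ / 4) with hε
  have hε0 : 0 < ε := lt_min (half_pos hρ) (by positivity)
  have hερ : ε ≤ ρ / 2 := min_le_left _ _
  have hεδ : ε ≤ δ / 4 := min_le_right _ _
  obtain ⟨T, hT⟩ := connect_unif h (isCompact_singleton (x := x₀)) hK₂ (by
    intro x hx y hy
    rw [mem_singleton_iff.mp hx]
    exact hKA hy) hε0 N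
  refine ⟨T, fun m y hy F hF => ?_⟩
  obtain ⟨n, hNn, hnT, z, hz1, hz2⟩ := hT x₀ rfl y hy
  have hV : ∀ u ∈ F, ∃ v, SR g (c / 8) u v ∧ SR g.symm (c / 8) (g^[n] z) v := by
    intro u hu
    apply hlp
    have a1 : dist y u ≤ r := hF.mem u hu 0
    have a2 : dist y (g^[n] z) ≤ ε := hz2 0
    have a3 := dist_triangle u y (g^[n] z)
    rw [dist_comm u y] at a3
    linarith
  choose! V hV using hV
  have e1 : ∀ (i : ℕ) (v : X), g^[i + n] (g.symm^[n] v) = g^[i] v := by
    intro i v
    rw [Function.iterate_add_apply, iterR]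
  have key := usep_of_family (g := g) (r := ρ) (θ := c / 2) (n := m + T) (w := x₀) (by positivity) F
    (fun u => g.symm^[n] (V u)) (fun u hu => ?_) (fun u hu u' hu' hne hcon => ?_)
  · exact key
  · intro i
    have a1 := hz1 i
    have a2 := h.cU _ _ ((hV u hu).2.mono (by linarith)) (i + n)
    rw [symm_iter_add, Function.iterate_add_apply] at a2
    have a3 : c * (1 / 2 : ℝ) ^ (i + n) < ρ / 2 := hN _ (by omega)
    have a4 := dist_triangle (g.symm^[i] x₀) (g.symm^[i] z) (g.symm^[i] (g.symm^[n] (V u)))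
    linarith
  · have a1 := SR_back' (show m + n ≤ m + T by omega) hcon
    rw [e1, e1] at a1
    apply hF.sep u hu u' hu' hne
    apply SR_of_fwd
    · exact (SR.trans' (hF.mem u hu).symm' (hF.mem u' hu')).mono (by linarith)
    · intro i hi
      have a2 := (hV u hu).1 i
      have a3 := (hV u' hu').1 i
      have a4 := fwd_of_SR a1 i hi
      have a5 := dist_triangle (g^[i] u) (g^[i] (V u)) (g^[i] u')
      have a6 := dist_triangle (g^[i] (V u)) (g^[i] (V u')) (g^[i] u')
      rw [dist_comm (g^[i] (V u')) (g^[i] u')] at a6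
      linarith

theorem fam_point {g : X ≃ₜ X} {c : ℝ} (h : LP g c) :
    ∃ δv > 0, ∃ δu > 0, ∀ (r ε : ℝ) (N t k : ℕ) (w z y u : X), c * (1 / 2) ^ N ≤ r / 2 →
      ε ≤ r / 2 → ε ≤ δv / 4 → N ≤ t → SR g.symm ε w z → SR g ε (g.symm^[k] y) (g^[t] z) →
      dist u y < δu →
      ∃ f, SR g.symm r w f ∧ (∀ j ≤ k, dist (g^[t + j] f) (g^[j] (g.symm^[k] y)) ≤ c / 8) ∧
        (∀ l, dist (g^[t + k + l] f) (g^[l] u) ≤ c / 8) ∧
        (∀ l, dist (g^[t + k + l] f) (g^[l] u) ≤ 2 * (c * (1 / 2) ^ l)) := by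
  have hc := h.c_pos
  obtain ⟨δv, hδv, hlpv⟩ := h.lp (c / 16) (by positivity)
  set ε₁ := min (c / 16) (δv / 4) with hε₁
  have hε₁0 : 0 < ε₁ := lt_min (by positivity) (by positivity)
  have hε₁c : ε₁ ≤ c / 16 := min_le_left _ _
  have hε₁δ : ε₁ ≤ δv / 4 := min_le_right _ _
  obtain ⟨δu, hδu, hlpu⟩ := h.lp ε₁ hε₁0
  refine ⟨δv, hδv, δu, hδu, fun r ε N t k w z y u hN hεr hεδ hNt hwz hyz huy => ?_⟩
  obtain ⟨u', hu1, hu2⟩ := hlpu u y huy
  have h1 : dist (g.symm^[k] u') (g^[t] z) < δv := by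
    have a1 := hu2 k
    have a2 : dist (g.symm^[k] y) (g^[t] z) ≤ ε := hyz 0
    have a3 := dist_triangle (g.symm^[k] u') (g.symm^[k] y) (g^[t] z)
    rw [dist_comm (g.symm^[k] u') (g.symm^[k] y)] at a3
    linarith
  obtain ⟨v, hv1, hv2⟩ := hlpv _ _ h1
  have e1 : ∀ (i : ℕ) (v : X), g^[i + t] (g.symm^[t] v) = g^[i] v := by
    intro i v
    rw [Function.iterate_add_apply, iterR]
  refine ⟨g.symm^[t] v, fun i => ?_, fun j hj => ?_, fun l => ?_, fun l => ?_⟩
  · have a1 := hwz i
    have a2 := h.cU _ _ (hv2.mono (by linarith)) (i + t)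
    rw [symm_iter_add, Function.iterate_add_apply] at a2
    have a3 : c * (1 / 2 : ℝ) ^ (i + t) ≤ r / 2 := by
      refine le_trans ?_ hN
      apply mul_le_mul_of_nonneg_left _ hc.le
      exact pow_le_pow_of_le_one (by norm_num) (by norm_num) (by omega)
    have a4 := dist_triangle (g.symm^[i] w) (g.symm^[i] z) (g.symm^[i] (g.symm^[t] v))
    linarith
  · rw [Nat.add_comm t j, e1]
    have a1 := hv1 j
    have e2 : ∀ x : X, g^[j] (g.symm^[k] x) = g.symm^[k - j] x := by
      intro x
      have : g.symm^[k] x = g.symm^[j] (g.symm^[k - j] x) := by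
        rw [← Function.iterate_add_apply]
        congr 1
        omega
      rw [this, iterR]
    rw [e2] at a1 ⊢
    have a2 := hu2 (k - j)
    have a3 := dist_triangle (g^[j] v) (g.symm^[k - j] u') (g.symm^[k - j] y)
    rw [dist_comm (g^[j] v) (g.symm^[k - j] u'), dist_comm (g.symm^[k - j] u')
      (g.symm^[k - j] y)] at a3
    linarith
  · have e2 : t + k + l = (l + k) + t := by omega
    rw [e2, e1]
    have a1 := hv1 (l + k)
    rw [Function.iterate_add_apply g l k (g.symm^[k] u'), iterR] at a1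
    have a2 := hu1 l
    have a3 := dist_triangle (g^[l + k] v) (g^[l] u') (g^[l] u)
    rw [dist_comm (g^[l + k] v) (g^[l] u'), dist_comm (g^[l] u') (g^[l] u)] at a3
    linarith
  · have e2 : t + k + l = (l + k) + t := by omega
    rw [e2, e1]
    have a1 := h.cS _ _ (hv1.mono (by linarith)) (l + k)
    rw [Function.iterate_add_apply g l k (g.symm^[k] u'), iterR] at a1
    have a2 := h.cS _ _ (hu1.mono (by linarith)) l
    have a3 := dist_triangle (g^[l + k] v) (g^[l] u') (g^[l] u)
    rw [dist_comm (g^[l + k] v) (g^[l] u'), dist_comm (g^[l] u') (g^[l] u)] at a3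
    have a4 : c * (1 / 2 : ℝ) ^ (l + k) ≤ c * (1 / 2 : ℝ) ^ l := by
      apply mul_le_mul_of_nonneg_left _ hc.le
      exact pow_le_pow_of_le_one (by norm_num) (by norm_num) (by omega)
    linarith

theorem fam_exists [CompactSpace X] {g : X ≃ₜ X} {c : ℝ} (h : LP g c) {A R : Set X} {q : X}
    (P : Pair g A R q) :
    ∃ r₀ > 0, ∀ r, 0 < r → r ≤ r₀ → ∃ s L n₁ : ℕ, 1 ≤ L ∧ ∀ I n : ℕ, I * L + n₁ ≤ n → ∀ w ∈ R,
      ∃ F, USep g r (c / 4) n w F ∧
      ∑ i ∈ Finset.range I, cnt g.symm R r (c / 4) (i * L) * cnt g A r (c / 4) (n - i * L - s) ≤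
        F.card := by
  classical
  have hc := h.c_pos
  obtain ⟨r₂, hr₂, htrans⟩ := transfer h
  obtain ⟨r₃, hr₃, htrans'⟩ := transfer h.symm
  obtain ⟨δv, hδv, δu, hδu, hfam⟩ := fam_point h
  refine ⟨min r₂ (min r₃ (c / 8)), lt_min hr₂ (lt_min hr₃ (by positivity)), fun r hr hrr => ?_⟩
  have hrr₂ : r ≤ r₂ := hrr.trans (min_le_left _ _)
  have hrr₃ : r ≤ r₃ := hrr.trans ((min_le_right _ _).trans (min_le_left _ _))
  have hrc : r ≤ c / 8 := hrr.trans ((min_le_right _ _).trans (min_le_right _ _))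
  -- wandering radius
  obtain ⟨ρw, hρw, hwand⟩ := P.wandering h
  -- the radius around b
  set r' := min (δu / 4) (c / 8) with hr'
  have hr'0 : 0 < r' := lt_min (by positivity) (by positivity)
  have hr'δ : r' ≤ δu / 4 := min_le_left _ _
  have hr'c : r' ≤ c / 8 := min_le_right _ _
  obtain ⟨p₀, hp₀, hqp⟩ := P.qR
  obtain ⟨J₁, hJ₁⟩ := hqp.eventually_lt hr'0
  obtain ⟨J₂, hJ₂⟩ := eventually_atTop.mp ((tendsto_order.mp (tendsto_chalf c)).2 (ρw / 8)
    (by positivity))
  set J := max J₁ J₂ with hJ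
  set b := g.symm^[J] p₀ with hb
  set qm := g.symm^[J] q with hq
  have hbR : b ∈ R := (inv_iter P.rep.1.inv J p₀).mpr hp₀
  have hbq : SR g.symm r' b qm := by
    intro k
    have h1 := hJ₁ (k + J) (by
      have : J₁ ≤ J := le_max_left _ _
      omega)
    rw [Function.iterate_add_apply, Function.iterate_add_apply, dist_comm] at h1
    exact h1.le
  have hcJ : c * (1 / 2 : ℝ) ^ J < ρw / 8 := hJ₂ J (le_max_right _ _)
  have hgq : g^[J] qm = q := iterR g J q
  obtain ⟨ρ₁, hρ₁, hcontρ⟩ : ∃ ρ₁ > 0, ∀ u, dist u qm < ρ₁ → dist (g^[J] u) q < ρw / 4 := by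
    have h3 : {y' | dist (g^[J] y') q < ρw / 4} ∈ 𝓝 qm := by
      have hcont : Continuous fun y' => dist (g^[J] y') q :=
        (g.continuous.iterate J).dist continuous_const
      exact (isOpen_lt hcont continuous_const).mem_nhds (by
        show dist (g^[J] qm) q < ρw / 4
        rw [hgq, dist_self]; positivity)
    obtain ⟨ρ₁, hρ₁, hb⟩ := Metric.mem_nhds_iff.mp h3
    exact ⟨ρ₁, hρ₁, fun u hu => hb hu⟩
  set ρ := min (ρ₁ / 2) (min (δu / 4) (c / 8)) with hρ
  have hρ0 : 0 < ρ := lt_min (by positivity) (lt_min (by positivity) (by positivity))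
  have hρρ₁ : ρ ≤ ρ₁ / 2 := min_le_left _ _
  have hρδ : ρ ≤ δu / 4 := (min_le_right _ _).trans (min_le_left _ _)
  have hρc : ρ ≤ c / 8 := (min_le_right _ _).trans (min_le_right _ _)
  -- transfers
  have hqmB : qm ∈ Bas g A := by
    obtain ⟨a, ha, hqa⟩ := P.qA
    refine ⟨g.symm^[J] a, (inv_iter (inv_symm P.att.1.inv) J a).mpr ha, ?_⟩
    rw [← WS.iter J, hq, iterR, iterR]
    exact hqa
  obtain ⟨T₂, hT₂⟩ := htrans r hrr₂ qm A P.att.1.closed.isCompact (P.Au_A h hqmB) ρ hρ0
  obtain ⟨T₃, hT₃⟩ := htrans' r hrr₃ b R P.rep.1.closed.isCompact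
    (P.symm.Au_A h.symm (subset_bas g.symm R hbR)) r' hr'0
  -- connection
  obtain ⟨N, hN⟩ := eventually_atTop.mp ((tendsto_order.mp (tendsto_chalf c)).2 (r / 2)
    (half_pos hr))
  set ε := min (r / 2) (δv / 4) with hε
  have hε0 : 0 < ε := lt_min (half_pos hr) (by positivity)
  have hεr : ε ≤ r / 2 := min_le_left _ _
  have hεδ : ε ≤ δv / 4 := min_le_right _ _
  obtain ⟨T, hT⟩ := connect_unif h P.rep.1.closed.isCompact P.rep.1.closed.isCompact
    (fun x hx y hy => P.Au_R h hx hy) hε0 N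
  have hupc : c * (1 / 2 : ℝ) ^ 2 ≤ c / 4 := by
    have : c * (1 / 2 : ℝ) ^ 2 = c / 4 := by ring
    exact this.le
  set a := 2 + T₃ with ha
  set s := T + a + 2 + T₂ with hs
  set L := T + 1 with hL
  obtain ⟨Nw, hNw⟩ := eventually_atTop.mp ((tendsto_order.mp (tendsto_chalf c)).2 (ρw / 4)
    (by positivity))
  -- the families
  have hG : ∀ i : ℕ, ∃ G : Finset X, USep g.symm r' (c / 2) (i * L + a) b G ∧
      G.card = cnt g.symm R r (c / 4) (i * L) := by
    intro i
    obtain ⟨x, hx, F, hF, he⟩ := exists_cnt (S := R) (r := r) (θ := c / 4) h.symm hr.le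
      (by linarith) (by positivity) P.rep.1.nonempty (i * L)
    have h1 := hF.up h.symm (s := 2) hupc (show 3 * c / 4 ≤ c by linarith)
    obtain ⟨G, hG, hGc⟩ := hT₃ _ x hx F h1
    refine ⟨G, ?_, hGc.trans he⟩
    rw [ha, ← add_assoc]
    exact hG
  have hF : ∀ m : ℕ, ∃ F : Finset X, USep g ρ (c / 2) m qm F ∧
      cnt g A r (c / 4) (m - 2 - T₂) ≤ F.card ∨ m < 2 + T₂ := by
    intro m
    rcases lt_or_ge m (2 + T₂) with hm | hm
    · exact ⟨∅, Or.inr hm⟩
    · obtain ⟨x, hx, F, hF, he⟩ := exists_cnt (S := A) (r := r) (θ := c / 4) h hr.le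
        (by linarith) (by positivity) P.att.1.nonempty (m - 2 - T₂)
      have h1 := hF.up h (s := 2) hupc (show 3 * c / 4 ≤ c by linarith)
      obtain ⟨G, hG, hGc⟩ := hT₂ _ x hx F h1
      refine ⟨G, Or.inl ⟨?_, ?_⟩⟩
      · have e : m - 2 - T₂ + 2 + T₂ = m := by omega
        rwa [e] at hG
      · rw [hGc, he]
  choose G hG hGc using hG
  choose Fm hFm using hF
  refine ⟨s, L, T + a + J + Nw + 2 + T₂, by omega, fun I n hn w hw => ?_⟩
  have hM : ∃ F, USep g r (c / 4) n w F ∧
      ∑ i ∈ Finset.range I, cnt g.symm R r (c / 4) (i * L) * cnt g A r (c / 4) (n - i * L - s) ≤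
        F.card := by
    have hcon : ∀ i y, y ∈ G i → ∃ t, N ≤ t ∧ t ≤ T ∧ ∃ z, SR g.symm ε w z ∧
        SR g ε (g.symm^[i * L + a] y) (g^[t] z) := by
      intro i y hy
      have hyR : y ∈ R := P.rep.1.sat b hbR y
        (WS.of_SR (h.cS _ _ (((hG i).mem y hy).mono (by linarith))))
      exact hT w hw _ ((inv_iter P.rep.1.inv _ y).mpr hyR)
    choose! t ht1 ht2 z hz1 hz2 using hcon
    have hFI : ∀ i y, i < I → y ∈ G i →
        USep g ρ (c / 2) (n - (t i y + (i * L + a))) qm (Fm (n - (t i y + (i * L + a)))) ∧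
        cnt g A r (c / 4) (n - (t i y + (i * L + a)) - 2 - T₂) ≤
          (Fm (n - (t i y + (i * L + a)))).card := by
      intro i y hi hy
      have h1 := ht2 i y hy
      have h2 : i * L ≤ I * L := Nat.mul_le_mul_right L hi.le
      rcases hFm (n - (t i y + (i * L + a))) with h3 | h3
      · exact h3
      · omega
    have hpt : ∀ i y u, i < I → y ∈ G i → u ∈ Fm (n - (t i y + (i * L + a))) → ∃ f,
        SR g.symm r w f ∧
        (∀ j ≤ i * L + a, dist (g^[t i y + j] f) (g^[j] (g.symm^[i * L + a] y)) ≤ c / 8) ∧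
        (∀ l, dist (g^[t i y + (i * L + a) + l] f) (g^[l] u) ≤ c / 8) ∧
        (∀ l, dist (g^[t i y + (i * L + a) + l] f) (g^[l] u) ≤ 2 * (c * (1 / 2) ^ l)) := by
      intro i y u hi hy hu
      apply hfam r ε N (t i y) (i * L + a) w (z i y) y u (hN N le_rfl).le hεr hεδ (ht1 i y hy)
        (hz1 i y hy) (hz2 i y hy)
      have a1 : dist b y ≤ r' := (hG i).mem y hy 0
      have a2 : dist qm u ≤ ρ := (hFI i y hi hy).1.mem u hu 0
      have a3 : dist b qm ≤ r' := hbq 0
      have a4 := dist_triangle u qm y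
      have a5 := dist_triangle qm b y
      rw [dist_comm u qm] at a4
      rw [dist_comm qm b] at a5
      linarith
    choose! f hf1 hf2 hf3 hf4 using hpt
    -- closeness to q
    have hclose : ∀ i y u, i < I → y ∈ G i → u ∈ Fm (n - (t i y + (i * L + a))) →
        dist (g^[t i y + (i * L + a) + J] (f i y u)) q < ρw / 2 := by
      intro i y u hi hy hu
      have a1 := hf4 i y u hi hy hu J
      have a2 : dist (g^[J] u) q < ρw / 4 := hcontρ u (by
        have a2 : dist qm u ≤ ρ := (hFI i y hi hy).1.mem u hu 0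
        rw [dist_comm]
        linarith)
      have a3 := dist_triangle (g^[t i y + (i * L + a) + J] (f i y u)) (g^[J] u) q
      linarith
    -- separation in the wandering case
    have hsepW : ∀ i y u i' y' u', i < I → y ∈ G i → u ∈ Fm (n - (t i y + (i * L + a))) →
        i' < I → y' ∈ G i' → u' ∈ Fm (n - (t i' y' + (i' * L + a))) →
        t i y + (i * L + a) < t i' y' + (i' * L + a) →
        SR g.symm (c / 4) (g^[n] (f i y u)) (g^[n] (f i' y' u')) → False := by
      intro i y u i' y' u' hi hy hu hi' hy' hu' hlt hSR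
      set Kt := t i y + (i * L + a) with hKt
      set Kt' := t i' y' + (i' * L + a) with hKt'
      have b1 := hclose i y u hi hy hu
      have b2 := hclose i' y' u' hi' hy' hu'
      rw [← hKt] at b1
      rw [← hKt'] at b2
      have b3 := hwand (Kt' - Kt) (by omega) (g^[Kt + J] (f i y u)) (by linarith)
      rw [← Function.iterate_add_apply] at b3
      have e1 : Kt' - Kt + (Kt + J) = Kt' + J := by omega
      rw [e1] at b3
      have h1 := ht2 i' y' hy'
      have h2 : i' * L ≤ I * L := Nat.mul_le_mul_right L hi'.le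
      have b4 := h.cU _ _ (hSR.mono (by linarith)) (n - (Kt' + J))
      have e2 : n - (n - (Kt' + J)) = Kt' + J := by omega
      rw [symm_iter_le g (by omega), symm_iter_le g (by omega), e2] at b4
      have b5 : c * (1 / 2 : ℝ) ^ (n - (Kt' + J)) < ρw / 4 := hNw _ (by omega)
      have b6 := dist_triangle (g^[Kt' + J] (f i y u)) (g^[Kt' + J] (f i' y' u')) q
      linarith
    let Idx : Finset (Σ _ : ℕ, Σ _ : X, X) := (Finset.range I).sigma fun i =>
      (G i).sigma fun y => Fm (n - (t i y + (i * L + a)))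
    have hmemI : ∀ x ∈ Idx, x.1 < I ∧ x.2.1 ∈ G x.1 ∧
        x.2.2 ∈ Fm (n - (t x.1 x.2.1 + (x.1 * L + a))) := by
      intro x hx
      rw [Finset.mem_sigma, Finset.mem_sigma, Finset.mem_range] at hx
      exact hx
    obtain ⟨F, hF, hFc⟩ := usep_of_family (g := g) (r := r) (θ := c / 4) (n := n) (w := w)
      (by positivity) Idx (fun x => f x.1 x.2.1 x.2.2) (fun x hx => by
        obtain ⟨h1, h2, h3⟩ := hmemI x hx
        exact hf1 _ _ _ h1 h2 h3) (fun x hx x' hx' hne hSR => by
        obtain ⟨i, y, u⟩ := x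
        obtain ⟨i', y', u'⟩ := x'
        obtain ⟨hi, hy, hu⟩ := hmemI _ hx
        obtain ⟨hi', hy', hu'⟩ := hmemI _ hx'
        simp only at hi hy hu hi' hy' hu' hSR
        rcases lt_trichotomy (t i y + (i * L + a)) (t i' y' + (i' * L + a)) with hlt | heq | hlt
        · exact hsepW i y u i' y' u' hi hy hu hi' hy' hu' hlt hSR
        · have h1 := ht2 i y hy
          have h2 := ht2 i' y' hy'
          have hii : i = i' := by
            have e1 : t i y + i * L = t i' y' + i' * L := by omega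
            have e2 : (t i y + i * L) / L = i := by
              rw [Nat.add_mul_div_right _ _ (by omega), Nat.div_eq_of_lt (by omega), zero_add]
            have e3 : (t i' y' + i' * L) / L = i' := by
              rw [Nat.add_mul_div_right _ _ (by omega), Nat.div_eq_of_lt (by omega), zero_add]
            rw [← e2, ← e3, e1]
          subst hii
          have htt : t i y = t i y' := by omega
          have hiL : i * L ≤ I * L := Nat.mul_le_mul_right L hi.le
          by_cases hyy : y = y'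
          · subst hyy
            have huu : u ≠ u' := fun he => hne (by rw [he])
            apply (hFI i y hi hy).1.sep u hu u' hu' huu
            apply SR_of_fwd
            · exact (SR.trans' ((hFI i y hi hy).1.mem u hu).symm'
                ((hFI i y hi hy).1.mem u' hu')).mono (by linarith)
            · intro l hl
              have b1 := hf3 i y u hi hy hu l
              have b2 := hf3 i y u' hi hy hu' l
              have b3 := fwd_of_SR hSR (t i y + (i * L + a) + l) (by omega)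
              have b4 := dist_triangle (g^[l] u) (g^[t i y + (i * L + a) + l] (f i y u)) (g^[l] u')
              have b5 := dist_triangle (g^[t i y + (i * L + a) + l] (f i y u))
                (g^[t i y + (i * L + a) + l] (f i y u')) (g^[l] u')
              rw [dist_comm (g^[l] u) (g^[t i y + (i * L + a) + l] (f i y u))] at b4
              linarith
          · apply (hG i).sep y hy y' hy' hyy
            intro j
            show dist (g^[j] (g.symm^[i * L + a] y)) (g^[j] (g.symm^[i * L + a] y')) ≤ c / 2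
            rcases le_total j (i * L + a) with hj | hj
            · have b1 := hf2 i y u hi hy hu j hj
              have b2 := hf2 i y' u' hi hy' hu' j hj
              rw [← htt] at b2
              have b3 := fwd_of_SR hSR (t i y + j) (by omega)
              have b4 := dist_triangle (g^[j] (g.symm^[i * L + a] y)) (g^[t i y + j] (f i y u))
                (g^[j] (g.symm^[i * L + a] y'))
              have b5 := dist_triangle (g^[t i y + j] (f i y u)) (g^[t i y + j] (f i y' u'))
                (g^[j] (g.symm^[i * L + a] y'))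
              rw [dist_comm (g^[j] (g.symm^[i * L + a] y)) (g^[t i y + j] (f i y u))] at b4
              linarith
            · have e1 : ∀ x : X, g^[j] (g.symm^[i * L + a] x) = g^[j - (i * L + a)] x := by
                intro x
                have : g^[j] = g^[(j - (i * L + a)) + (i * L + a)] := by
                  congr 1
                  omega
                rw [this, Function.iterate_add_apply, iterR]
              rw [e1, e1]
              have b1 := (hG i).mem y hy (j - (i * L + a))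
              have b2 := (hG i).mem y' hy' (j - (i * L + a))
              rw [g.symm_symm] at b1 b2
              have b3 := dist_triangle (g^[j - (i * L + a)] y) (g^[j - (i * L + a)] b)
                (g^[j - (i * L + a)] y')
              rw [dist_comm (g^[j - (i * L + a)] y) (g^[j - (i * L + a)] b)] at b3
              linarith
        · exact hsepW i' y' u' i y u hi' hy' hu' hi hy hu hlt hSR.symm')
    refine ⟨F, hF, ?_⟩
    rw [hFc, Finset.card_sigma]
    apply Finset.sum_le_sum
    intro i hi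
    rw [Finset.mem_range] at hi
    show _ ≤ ((G i).sigma fun y => Fm (n - (t i y + (i * L + a)))).card
    rw [Finset.card_sigma, ← hGc i, ← smul_eq_mul, ← Finset.sum_const]
    apply Finset.sum_le_sum
    intro y hy
    refine le_trans ?_ (hFI i y hi hy).2
    apply cnt_mono h hr.le (by linarith) (by positivity) P.att.1.nonempty
    have h1 := ht2 i y hy
    omega
  exact hM

variable [MeasurableSpace X] [BorelSpace X]

theorem fam_main [CompactSpace X] {g : X ≃ₜ X} {c : ℝ} (h : LP g c) {ν : X → Measure X}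
    (hν : TM g ν) {A R : Set X} {q : X} (P : Pair g A R q) :
    ∃ r₀ > 0, ∀ r, 0 < r → r ≤ r₀ → ∃ C : ℝ, 0 < C ∧ ∃ s L : ℕ, ∀ I : ℕ, ∃ n₀, ∀ n ≥ n₀,
      ∑ i ∈ Finset.range I, (cnt g.symm R r (c / 4) (i * L) : ℝ) *
        cnt g A r (c / 4) (n - i * L - s) ≤ C * cnt g.symm R r (c / 4) (n + s) := by
  have hc := h.c_pos
  obtain ⟨r₁, hr₁, hstar⟩ := star h hν (show 0 < c / 4 by positivity)
  obtain ⟨r₂, hr₂, hfam⟩ := fam_exists h P
  refine ⟨min (min r₁ r₂) (c / 8), lt_min (lt_min hr₁ hr₂) (by positivity), fun r hr hrr => ?_⟩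
  have hrr₁ : r ≤ r₁ := hrr.trans ((min_le_left _ _).trans (min_le_left _ _))
  have hrr₂ : r ≤ r₂ := hrr.trans ((min_le_left _ _).trans (min_le_right _ _))
  have hrc : r ≤ c / 8 := hrr.trans (min_le_right _ _)
  obtain ⟨C, hC, hstar⟩ := hstar r hr hrr₁ (by linarith) R P.rep.1
  obtain ⟨s₁, L, n₁, -, hfam⟩ := hfam r hr hrr₂
  obtain ⟨s₀, hs₀⟩ := eventually_atTop.mp ((tendsto_order.mp (tendsto_chalf c)).2 r hr)
  refine ⟨C, hC, s₁ + s₀, L, fun I => ⟨I * L + n₁, fun n hn => ?_⟩⟩
  have h1 := hstar n _ (fun w hw => hfam I n hn w hw)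
  push_cast at h1
  have h0 : ∑ i ∈ Finset.range I, (cnt g.symm R r (c / 4) (i * L) : ℝ) *
      cnt g A r (c / 4) (n - i * L - (s₁ + s₀)) ≤
      ∑ i ∈ Finset.range I, (cnt g.symm R r (c / 4) (i * L) : ℝ) *
      cnt g A r (c / 4) (n - i * L - s₁) := by
    apply Finset.sum_le_sum
    intro i _
    apply mul_le_mul_of_nonneg_left _ (Nat.cast_nonneg _)
    have := cnt_mono (θ := c / 4) h hr.le (by linarith) (by positivity) P.att.1.nonempty
      (show n - i * L - (s₁ + s₀) ≤ n - i * L - s₁ by omega)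
    exact_mod_cast this
  refine (h0.trans h1).trans ?_
  apply mul_le_mul_of_nonneg_left _ hC.le
  have h2 : cnt g.symm R r r n ≤ cnt g.symm R r (c / 4) (n + s₀) := by
    obtain ⟨x, hx, F, hF, he⟩ := exists_cnt (S := R) (r := r) (θ := r) h.symm hr.le
      (by linarith) hr P.rep.1.nonempty n
    rw [← he]
    exact le_cnt h.symm (by linarith) (by positivity) hx
      (hF.up h.symm (hs₀ s₀ le_rfl).le (by linarith))
  have h3 : cnt g.symm R r (c / 4) (n + s₀) ≤ cnt g.symm R r (c / 4) (n + (s₁ + s₀)) :=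
    cnt_mono h.symm hr.le (by linarith) (by positivity) P.rep.1.nonempty (by omega)
  exact_mod_cast h2.trans h3

end Pool.Agent.H922R3
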