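import Pool.Agent.H922R3.Fam
import Pool.Agent.H922R3.Arith

set_option autoImplicit false

open Filter Topology Set Metric MeasureTheory
open scoped ENNReal

namespace Pool.Agent.H922R3

open Pool.Agent.H789R2.AN

variable {X : Type*} [MetricSpace X] [MeasurableSpace X] [BorelSpace X]

theorem no_pair [CompactSpace X] {g : X ≃ₜ X} {c : ℝ} (h : LP g c) {ν ν' : X → Measure X}
    (hν : TM g ν) (hν' : TM g.symm ν') {A R : Set X} {q : X} (P : Pair g A R q) : False := by
  have hc := h.c_pos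
  obtain ⟨r₀, hr₀, hE1⟩ := fam_main h hν P
  obtain ⟨r₀', hr₀', hE2⟩ := fam_main h.symm hν' P.symm
  set r := min (min r₀ r₀') (c / 8) with hr
  have hr0 : 0 < r := lt_min (lt_min hr₀ hr₀') (by positivity)
  have hrc : r ≤ c / 8 := min_le_right _ _
  obtain ⟨C, hC, s, L, hE1⟩ := hE1 r hr0 ((min_le_left _ _).trans (min_le_left _ _))
  obtain ⟨C', hC', s', L', hE2⟩ := hE2 r hr0 ((min_le_left _ _).trans (min_le_right _ _))
  obtain ⟨B, hB⟩ := cnt_step (S := A) (r := r) (θ := c / 4) h hr0.le (by linarith)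
    (by positivity) (by linarith) P.att.1.nonempty
  obtain ⟨j, hj⟩ := cnt_sub (S := A) (r := r) (θ := c / 4) h hr0 (by linarith)
    (by positivity) (by linarith) P.att.1
  refine arith (fun n => (cnt g A r (c / 4) n : ℝ)) (fun n => (cnt g.symm R r (c / 4) n : ℝ))
    (fun n => ?_) (fun n => ?_) (fun n m hnm => ?_) (max 1 (B : ℝ)) (le_max_left _ _)
    (fun n => ?_) j
    (fun m k => ?_) C hC s L hE1 C' hC' s' L' hE2
  · exact_mod_cast one_le_cnt h hr0.le (by linarith) (by positivity) P.att.1.nonempty n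
  · exact_mod_cast one_le_cnt h.symm hr0.le (by linarith) (by positivity) P.rep.1.nonempty n
  · have h1 := cnt_mono (θ := c / 4) h hr0.le (by linarith) (by positivity) P.att.1.nonempty hnm
    show (cnt g A r (c / 4) n : ℝ) ≤ (cnt g A r (c / 4) m : ℝ)
    exact_mod_cast h1
  · have h1 : (cnt g A r (c / 4) (n + 1) : ℝ) ≤ cnt g A r (c / 4) n * B := by
      exact_mod_cast hB n
    have h2 : (B : ℝ) ≤ max 1 (B : ℝ) := le_max_right _ _
    have h3 : (0 : ℝ) ≤ cnt g A r (c / 4) n := Nat.cast_nonneg _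
    show (cnt g A r (c / 4) (n + 1) : ℝ) ≤ max 1 (B : ℝ) * cnt g A r (c / 4) n
    nlinarith
  · exact_mod_cast hj m k

/-- **Transitivity from transverse measures**, for homeomorphisms with local product structure. -/
theorem trans_of_TM [CompactSpace X] [ConnectedSpace X] {g : X ≃ₜ X} {c : ℝ} (h : LP g c)
    {ν ν' : X → Measure X} (hν : TM g ν) (hν' : TM g.symm ν') (U V : Set X) (hU : IsOpen U)
    (hUn : U.Nonempty) (hV : IsOpen V) (hVn : V.Nonempty) : ∃ n : ℕ, (g^[n] '' U ∩ V).Nonempty := by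
  apply transitive_of_unique h _ U V hU hUn hV hVn
  intro A hA
  by_contra hne
  obtain ⟨A', R, q, P⟩ := exists_pair h ⟨A, hA, hne⟩
  exact no_pair h hν hν' P

end Pool.Agent.H922R3
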