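import Pool.Agent.H922R3.ManT
import Pool.Agent.H922R3.FPair
import Pool.Agent.H922R3.Arith2

set_option autoImplicit false
set_option linter.unusedSectionVars false

open Filter Topology Set Metric MeasureTheory
open scoped Manifold ContDiff Bundle

namespace Pool.Agent.H922R3

open Pool.Agent.H721R2 Pool.Agent.H789R2.AN

/-- `F` is a finite set of points of the unstable plaque of size `O` of `x`, any two of which are
`O`-separated at some time between `0` and `n`. -/
def SepSet {M : Type*} [TopologicalSpace M] (f : M ≃ₜ M) (O : Set (M × M)) (n : ℕ) (x : M)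
    (F : Finset M) : Prop :=
  (∀ y ∈ F, y ∈ Plaque f.symm O x) ∧
    ∀ y ∈ F, ∀ z ∈ F, y ≠ z → ∃ i ≤ n, (f^[i] y, f^[i] z) ∉ O

/-- The unstable plaques of `f` grow uniformly: at arbitrarily small scales `O`, the largest number
of points in the unstable plaque of `x` separated up to time `n` is at most `C` times the number
for `y` up to time `n + k`, with `C` and `k` independent of `x`, `y` and `n`. -/
def UniformGrowth {M : Type*} [TopologicalSpace M] (f : M ≃ₜ M) : Prop :=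
  ∀ O₀ ∈ 𝓝ˢ (diagonal M), ∃ O ∈ 𝓝ˢ (diagonal M), O ⊆ O₀ ∧ ∃ C k : ℕ,
    ∀ (x y : M) (n : ℕ) (F : Finset M), SepSet f O n x F →
      ∃ F', SepSet f O (n + k) y F' ∧ F.card ≤ C * F'.card

section metric

variable {X : Type*} [MetricSpace X]

theorem USep.shift {g : X ≃ₜ X} {c : ℝ} (h : LP g c) {r ρ θ : ℝ} {j n : ℕ} {x : X}
    {F : Finset X} [DecidableEq X] (hF : USep g ρ θ n x F) (hρ : ρ ≤ c)
    (hj : c * (1 / 2) ^ j ≤ r) : USep g r θ (n + j) (g.symm^[j] x) (F.image (g.symm^[j])) := by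
  refine ⟨fun w hw => ?_, fun w hw v hv hne => ?_⟩
  · obtain ⟨y, hy, rfl⟩ := Finset.mem_image.mp hw
    intro i
    have h2 := h.cU _ _ ((hF.mem y hy).mono hρ) (i + j)
    rw [Function.iterate_add_apply, Function.iterate_add_apply] at h2
    refine h2.trans (le_trans ?_ hj)
    apply mul_le_mul_of_nonneg_left _ h.c_pos.le
    exact pow_le_pow_of_le_one (by norm_num) (by norm_num) (by omega)
  · obtain ⟨y, hy, rfl⟩ := Finset.mem_image.mp hw
    obtain ⟨y', hy', rfl⟩ := Finset.mem_image.mp hv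
    rw [Function.iterate_add_apply, Function.iterate_add_apply, iterR, iterR]
    exact hF.sep y hy y' hy' (fun he => hne (by rw [he]))

theorem growth_cnt [CompactSpace X] {f g : X ≃ₜ X} {N : ℕ} (hN : 0 < N)
    (hg : ∀ x, g x = f^[N] x) {c : ℝ} (h : LP g c) (hU : UniformGrowth f) {A : Set X}
    (hA : IsAtt g A) {r : ℝ} (hr : 0 < r) (hrc : r ≤ c / 8) :
    ∃ C s : ℕ, ∀ (w : X) (n : ℕ) (F : Finset X), USep g r (c / 4) n w F →
      F.card ≤ C * cnt g A r (c / 4) (n + s) := by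
  classical
  have hc := h.c_pos
  have hO₀ : {p : X × X | dist p.1 p.2 < c / 4} ∈ 𝓝ˢ (diagonal X) := by
    rw [nhdsSet_diagonal_eq_uniformity]
    exact Metric.dist_mem_uniformity (by positivity)
  obtain ⟨O, hO, hOO₀, C, k, hgrow⟩ := hU _ hO₀
  rw [nhdsSet_diagonal_eq_uniformity] at hO
  obtain ⟨ρ₁, hρ₁, hρO⟩ := Metric.mem_uniformity_dist.mp hO
  -- plaques
  obtain ⟨ρ₂, hρ₂, h2⟩ := unif_fin (fun i => f.symm^[i]) (fun i => f.symm.continuous.iterate i) N
    hρ₁
  obtain ⟨ρ₃, hρ₃, h3⟩ := unif_fin (fun i => f^[i]) (fun i => f.continuous.iterate i) N hρ₁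
  obtain ⟨j₁, hj₁⟩ := eventually_atTop.mp ((tendsto_order.mp (tendsto_chalf c)).2 ρ₂ hρ₂)
  obtain ⟨j₂, hj₂⟩ := eventually_atTop.mp ((tendsto_order.mp (tendsto_chalf c)).2 r hr)
  obtain ⟨j₃, hj₃⟩ := eventually_atTop.mp ((tendsto_order.mp (tendsto_chalf c)).2 (ρ₃ / 2)
    (half_pos hρ₃))
  obtain ⟨a, ha⟩ := hA.nonempty
  refine ⟨C, j₁ + k + j₂ + j₃, fun w n F hF => ?_⟩
  have hinj : Function.Injective (g.symm^[j₁]) := g.symm.injective.iterate j₁
  have hinj2 : Function.Injective (g.symm^[j₂]) := g.symm.injective.iterate j₂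
  -- step 1
  have s1 : SepSet f O (N * (n + j₁)) (g.symm^[j₁] w) (F.image (g.symm^[j₁])) := by
    refine ⟨fun y' hy' => ?_, fun y' hy' z' hz' hne => ?_⟩
    · obtain ⟨y, hy, rfl⟩ := Finset.mem_image.mp hy'
      intro i
      apply hρO
      rw [mod_split (pow_symm hg), mod_split (pow_symm hg) i (g.symm^[j₁] y)]
      apply h2 _ (Nat.mod_lt i hN)
      rw [← Function.iterate_add_apply, ← Function.iterate_add_apply]
      exact lt_of_le_of_lt (h.cU _ _ ((hF.mem y hy).mono (by linarith)) _)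
        (hj₁ _ (Nat.le_add_left _ _))
    · obtain ⟨y, hy, rfl⟩ := Finset.mem_image.mp hy'
      obtain ⟨z, hz, rfl⟩ := Finset.mem_image.mp hz'
      have h4 := hF.sep y hy z hz (fun he => hne (by rw [he]))
      have h5 : ∃ i ≤ n, c / 4 < dist (g^[i] y) (g^[i] z) := by
        by_contra hcon
        push Not at hcon
        apply h4
        apply SR_of_fwd _ hcon
        exact (SR.trans' (hF.mem y hy).symm' (hF.mem z hz)).mono (by linarith)
      obtain ⟨i, hi, h6⟩ := h5
      refine ⟨N * (i + j₁), Nat.mul_le_mul_left N (by omega), fun hcon => ?_⟩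
      rw [← pow_iter hg, ← pow_iter hg, Function.iterate_add_apply, Function.iterate_add_apply,
        iterR, iterR] at hcon
      have h7 : dist (g^[i] y) (g^[i] z) < c / 4 := hOO₀ hcon
      linarith
  obtain ⟨F', hF', hcard⟩ := hgrow _ a _ _ s1
  rw [Finset.card_image_of_injective _ hinj] at hcard
  -- step 3
  have s3 : USep g (c / 4) (ρ₃ / 2) (n + j₁ + k) a F' := by
    refine ⟨fun y hy i => ?_, fun y hy z hz hne hcon => ?_⟩
    · have h4 := hF'.1 y hy (N * i)
      rw [← pow_iter (pow_symm hg), ← pow_iter (pow_symm hg)] at h4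
      exact (le_of_lt (hOO₀ h4))
    · obtain ⟨i, hi, h4⟩ := hF'.2 y hy z hz hne
      apply h4
      apply hρO
      rw [mod_split hg, mod_split hg i z]
      apply h3 _ (Nat.mod_lt i hN)
      have hle : i / N ≤ n + j₁ + k := by
        apply Nat.div_le_of_le_mul
        have : k ≤ N * k := Nat.le_mul_of_pos_left k hN
        have e : N * (n + j₁ + k) = N * (n + j₁) + N * k := by ring
        omega
      exact lt_of_le_of_lt (fwd_of_SR hcon (i / N) hle) (half_lt_self hρ₃)
  have s4 := (s3.shift h (r := r) (by linarith) (hj₂ j₂ le_rfl).le).up h (s := j₃)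
    (hj₃ j₃ le_rfl).le (show c / 4 ≤ c by linarith)
  have haA : g.symm^[j₂] a ∈ A := (inv_iter (inv_symm hA.inv) j₂ a).mpr ha
  have s5 := le_cnt h (by linarith) (by positivity) haA s4
  rw [Finset.card_image_of_injective _ hinj2] at s5
  have e : n + j₁ + k + j₂ + j₃ = n + (j₁ + k + j₂ + j₃) := by omega
  rw [e] at s5
  exact hcard.trans (Nat.mul_le_mul_left C s5)

/-- The consequence of uniform unstable growth. -/
theorem growth_ineq [CompactSpace X] {f g : X ≃ₜ X} {N : ℕ} (hN : 0 < N)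
    (hg : ∀ x, g x = f^[N] x) {c : ℝ} (h : LP g c) (hU : UniformGrowth f) {A R : Set X} {q : X}
    (P : Pair g A R q) : ∃ r₀ > 0, ∀ r, 0 < r → r ≤ r₀ → ∃ C : ℝ, 0 < C ∧ ∃ s L n₁ : ℕ, 1 ≤ L ∧
      ∀ I n : ℕ, I * L + n₁ ≤ n →
      ∑ i ∈ Finset.range I, (cnt g.symm R r (c / 4) (i * L) : ℝ) *
        cnt g A r (c / 4) (n - i * L - s) ≤ C * cnt g A r (c / 4) (n + s) := by
  have hc := h.c_pos
  obtain ⟨r₂, hr₂, hfam⟩ := fam_exists h P
  refine ⟨min r₂ (c / 8), lt_min hr₂ (by positivity), fun r hr hrr => ?_⟩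
  have hrr₂ : r ≤ r₂ := hrr.trans (min_le_left _ _)
  have hrc : r ≤ c / 8 := hrr.trans (min_le_right _ _)
  obtain ⟨C, s₂, hgr⟩ := growth_cnt hN hg h hU P.att.1 hr hrc
  obtain ⟨s₁, L, n₁, hL, hfam⟩ := hfam r hr hrr₂
  refine ⟨C + 1, by positivity, s₁ + s₂, L, n₁, hL, fun I n hn => ?_⟩
  obtain ⟨w, hw⟩ := P.rep.1.nonempty
  obtain ⟨F, hF, hFc⟩ := hfam I n hn w hw
  have h1 := hgr w n F hF
  have h2 : cnt g A r (c / 4) (n + s₂) ≤ cnt g A r (c / 4) (n + (s₁ + s₂)) :=
    cnt_mono h hr.le (by linarith) (by positivity) P.att.1.nonempty (by omega)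
  have h3 : ∑ i ∈ Finset.range I, cnt g.symm R r (c / 4) (i * L) *
      cnt g A r (c / 4) (n - i * L - (s₁ + s₂)) ≤
      ∑ i ∈ Finset.range I, cnt g.symm R r (c / 4) (i * L) *
      cnt g A r (c / 4) (n - i * L - s₁) := by
    apply Finset.sum_le_sum
    intro i _
    apply Nat.mul_le_mul_left
    exact cnt_mono h hr.le (by linarith) (by positivity) P.att.1.nonempty (by omega)
  have h4 := (h3.trans hFc).trans (h1.trans (Nat.mul_le_mul_left C h2))
  have h5 : (C : ℝ) * cnt g A r (c / 4) (n + (s₁ + s₂)) ≤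
      ((C : ℝ) + 1) * cnt g A r (c / 4) (n + (s₁ + s₂)) :=
    mul_le_mul_of_nonneg_right (by linarith) (Nat.cast_nonneg _)
  refine le_trans ?_ h5
  exact_mod_cast h4

theorem no_pair2 [CompactSpace X] [MeasurableSpace X] [BorelSpace X] {f g : X ≃ₜ X} {N : ℕ}
    (hN : 0 < N) (hg : ∀ x, g x = f^[N] x) {c : ℝ} (h : LP g c) (hU : UniformGrowth f)
    (hor : UniformGrowth f.symm ∨ ∃ ν : X → Measure X, TM g ν) {A R : Set X} {q : X}
    (P : Pair g A R q) : False := by
  have hc := h.c_pos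
  obtain ⟨r₀, hr₀, hG⟩ := growth_ineq hN hg h hU P
  -- the second inequality
  have hE : ∃ r₁ > 0, ∀ r, 0 < r → r ≤ r₁ → ∃ C : ℝ, 0 < C ∧ ∃ s L : ℕ, ∀ I : ℕ, ∃ n₀, ∀ n ≥ n₀,
      ∑ i ∈ Finset.range I, (cnt g.symm R r (c / 4) (i * L) : ℝ) *
        cnt g A r (c / 4) (n - i * L - s) ≤ C * cnt g.symm R r (c / 4) (n + s) := by
    rcases hor with hU' | ⟨ν, hν⟩
    · obtain ⟨r₁, hr₁, hG'⟩ := growth_ineq hN (pow_symm hg) h.symm hU' P.symm
      refine ⟨min (min r₀ r₁) (c / 8), lt_min (lt_min hr₀ hr₁) (by positivity),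
        fun r hr hrr => ?_⟩
      have hrc : r ≤ c / 8 := hrr.trans (min_le_right _ _)
      obtain ⟨C, hC, s, L, n₁, hL, hG⟩ := hG r hr (hrr.trans ((min_le_left _ _).trans
        (min_le_left _ _)))
      obtain ⟨C', hC', s', L', n₁', hL', hG'⟩ := hG' r hr (hrr.trans ((min_le_left _ _).trans
        (min_le_right _ _)))
      obtain ⟨B, hB⟩ := cnt_step (S := R) (r := r) (θ := c / 4) h.symm hr.le (by linarith)
        (by positivity) (by linarith) P.rep.1.nonempty
      obtain ⟨K, hK, hαβ⟩ := beta_le (fun n => (cnt g.symm R r (c / 4) n : ℝ))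
        (fun n => (cnt g A r (c / 4) n : ℝ))
        (fun n => by
          exact_mod_cast one_le_cnt h.symm hr.le (by linarith) (by positivity)
            P.rep.1.nonempty n)
        (fun n => by
          exact_mod_cast one_le_cnt h hr.le (by linarith) (by positivity) P.att.1.nonempty n)
        (fun n m hnm => by
          have h1 := cnt_mono (θ := c / 4) h.symm hr.le (by linarith) (by positivity)
            P.rep.1.nonempty hnm
          show (cnt g.symm R r (c / 4) n : ℝ) ≤ (cnt g.symm R r (c / 4) m : ℝ)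
          exact_mod_cast h1)
        (fun n m hnm => by
          have h1 := cnt_mono (θ := c / 4) h hr.le (by linarith) (by positivity)
            P.att.1.nonempty hnm
          show (cnt g A r (c / 4) n : ℝ) ≤ (cnt g A r (c / 4) m : ℝ)
          exact_mod_cast h1)
        (max 1 (B : ℝ)) (le_max_left _ _)
        (fun n => by
          have h1 : (cnt g.symm R r (c / 4) (n + 1) : ℝ) ≤ cnt g.symm R r (c / 4) n * B := by
            exact_mod_cast hB n
          have h2 : (B : ℝ) ≤ max 1 (B : ℝ) := le_max_right _ _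
          have h3 : (0 : ℝ) ≤ cnt g.symm R r (c / 4) n := Nat.cast_nonneg _
          show (cnt g.symm R r (c / 4) (n + 1) : ℝ) ≤ max 1 (B : ℝ) * cnt g.symm R r (c / 4) n
          nlinarith)
        C' hC' s' L' n₁' hL' (fun I n hn => by
          have h1 := hG' I n hn
          rw [g.symm_symm] at h1
          exact h1)
      refine ⟨C * K, by positivity, s, L, fun I => ⟨I * L + n₁, fun n hn => ?_⟩⟩
      have h1 := hG I n hn
      have h2 := hαβ (n + s)
      have h3 : C * (cnt g A r (c / 4) (n + s) : ℝ) ≤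
          C * (K * (cnt g.symm R r (c / 4) (n + s) : ℝ)) := mul_le_mul_of_nonneg_left h2 hC.le
      rw [mul_assoc]
      exact h1.trans h3
    · exact fam_main h hν P
  obtain ⟨r₁, hr₁, hE⟩ := hE
  set r := min (min r₀ r₁) (c / 8) with hr
  have hr0 : 0 < r := lt_min (lt_min hr₀ hr₁) (by positivity)
  have hrc : r ≤ c / 8 := min_le_right _ _
  obtain ⟨C, hC, s, L, n₁, hL, hG⟩ := hG r hr0 ((min_le_left _ _).trans (min_le_left _ _))
  obtain ⟨C', hC', s', L', hE⟩ := hE r hr0 ((min_le_left _ _).trans (min_le_right _ _))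
  obtain ⟨B, hB⟩ := cnt_step (S := A) (r := r) (θ := c / 4) h hr0.le (by linarith)
    (by positivity) (by linarith) P.att.1.nonempty
  obtain ⟨j, hj⟩ := cnt_sub (S := A) (r := r) (θ := c / 4) h hr0 (by linarith)
    (by positivity) (by linarith) P.att.1
  have hα1 : ∀ n, (1 : ℝ) ≤ (cnt g A r (c / 4) n : ℝ) := fun n => by
    exact_mod_cast one_le_cnt h hr0.le (by linarith) (by positivity) P.att.1.nonempty n
  have hβ1 : ∀ n, (1 : ℝ) ≤ (cnt g.symm R r (c / 4) n : ℝ) := fun n => by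
    exact_mod_cast one_le_cnt h.symm hr0.le (by linarith) (by positivity) P.rep.1.nonempty n
  have hαm : Monotone fun n => (cnt g A r (c / 4) n : ℝ) := fun n m hnm => by
    have h1 := cnt_mono (θ := c / 4) h hr0.le (by linarith) (by positivity) P.att.1.nonempty hnm
    show (cnt g A r (c / 4) n : ℝ) ≤ (cnt g A r (c / 4) m : ℝ)
    exact_mod_cast h1
  have hβm : Monotone fun n => (cnt g.symm R r (c / 4) n : ℝ) := fun n m hnm => by
    have h1 := cnt_mono (θ := c / 4) h.symm hr0.le (by linarith) (by positivity)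
      P.rep.1.nonempty hnm
    show (cnt g.symm R r (c / 4) n : ℝ) ≤ (cnt g.symm R r (c / 4) m : ℝ)
    exact_mod_cast h1
  have hαB : ∀ n, (cnt g A r (c / 4) (n + 1) : ℝ) ≤ max 1 (B : ℝ) * cnt g A r (c / 4) n := by
    intro n
    have h1 : (cnt g A r (c / 4) (n + 1) : ℝ) ≤ cnt g A r (c / 4) n * B := by
      exact_mod_cast hB n
    have h2 : (B : ℝ) ≤ max 1 (B : ℝ) := le_max_right _ _
    have h3 : (0 : ℝ) ≤ cnt g A r (c / 4) n := Nat.cast_nonneg _
    nlinarith
  obtain ⟨K, hK, hβα⟩ := beta_le _ _ hα1 hβ1 hαm hβm (max 1 (B : ℝ)) (le_max_left _ _) hαB C hC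
    s L n₁ hL hG
  exact arith' _ _ hα1 hβ1 hαm (max 1 (B : ℝ)) (le_max_left _ _) hαB j
    (fun m k => by exact_mod_cast hj m k) C' hC' s' L' hE 0 K hK (fun m _ => hβα m)

end metric

section main

variable {E : Type*} [NormedAddCommGroup E] [NormedSpace ℝ E] [FiniteDimensional ℝ E]
  {M : Type*} [TopologicalSpace M] [T2Space M] [CompactSpace M] [ConnectedSpace M]
  [ChartedSpace E M] [IsManifold 𝓘(ℝ, E) ∞ M] [MeasurableSpace M] [BorelSpace M]

theorem man_growth (f : Diffeomorph 𝓘(ℝ, E) 𝓘(ℝ, E) M M 1)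
    (Es Eu : ∀ x : M, Submodule ℝ (TangentSpace 𝓘(ℝ, E) x)) (hA : IsAnosov f Es Eu)
    (hU : UniformGrowth f.toHomeomorph)
    (hor : UniformGrowth f.toHomeomorph.symm ∨
      ∃ ν : M → Measure M, TransverseFamily f.toHomeomorph ν) : TopTransitive f := by
  obtain ⟨m, e, he, hemb, hinj⟩ := exists_embedding_euclidean_of_compact (I := 𝓘(ℝ, E)) (M := M)
  let _ : MetricSpace M := hemb.isEmbedding.comapMetricSpace e
  have hiso : ∀ x y : M, dist x y = ‖e x - e y‖ := fun x y => dist_eq_norm (e x) (e y)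
  have he1 : ContMDiff 𝓘(ℝ, E) (𝓡 m) 1 e := he.of_le (by simp)
  obtain ⟨n, S, hg, -, -, -⟩ := exists_sys hiso he1 hinj f Es Eu hA
  obtain ⟨c, hLP⟩ := exists_LP S
  have hgi : ∀ x, S.g x = f.toHomeomorph^[n] x := fun x => by
    rw [hg]; rfl
  intro U V hU' hUn hV hVn
  rcases Nat.eq_zero_or_pos n with h0 | h0
  · obtain ⟨x, hx⟩ := hUn
    obtain ⟨y, hy⟩ := hVn
    refine ⟨0, x, ⟨x, hx, rfl⟩, ?_⟩
    rw [eq_of_zero h0 hgi hLP x y]
    exact hy
  · have hun : ∀ A, IsAtt S.g A → A = univ := by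
      intro A₀ hA₀
      by_contra hne
      obtain ⟨A, R, q, P⟩ := exists_pair hLP ⟨A₀, hA₀, hne⟩
      refine no_pair2 h0 hgi hLP hU ?_ P
      rcases hor with h1 | ⟨ν, hν⟩
      · exact Or.inl h1
      · exact Or.inr ⟨ν, TM_of_family h0 hgi hν⟩
    obtain ⟨k, hk⟩ := transitive_of_unique hLP hun U V hU' hUn hV hVn
    refine ⟨n * k, ?_⟩
    have h1 : S.g^[k] = f^[n * k] := by
      funext x
      exact pow_iter hgi k x
    rw [h1] at hk
    exact hk

end main

end Pool.Agent.H922R3
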