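import Pool.Agent.H922R3.FPair

set_option autoImplicit false

open Filter Topology Set Metric

namespace Pool.Agent.H922R3

open Pool.Agent.H789R2.AN

variable {X : Type*} [MetricSpace X]

theorem wander_gen {f : X ≃ₜ X} {A : Set X} (hcl : IsClosed A) {q : X} (hq : q ∉ A) {ρ₀ : ℝ}
    (hρ₀ : 0 < ρ₀) (hatt : ∀ η > 0, ∃ m : ℕ, ∀ j ≥ m, ∀ y ∈ closedBall q ρ₀,
      ∃ a ∈ A, dist (f^[j] y) a < η) :
    ∃ ρ > 0, ∀ k ≥ 1, ∀ z, dist z q < ρ → ρ ≤ dist (f^[k] z) q := by
  obtain ⟨η, hη, hηA⟩ : ∃ η > 0, ∀ a ∈ A, η ≤ dist q a := by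
    have h1 : q ∉ closure A := by rwa [hcl.closure_eq]
    rw [Metric.mem_closure_iff] at h1
    push Not at h1
    exact h1
  obtain ⟨m, hm⟩ := hatt _ (half_pos hη)
  have hne : ∀ k, 1 ≤ k → f^[k] q ≠ q := by
    intro k hk hper
    apply hq
    rw [← hcl.closure_eq, Metric.mem_closure_iff]
    intro η' hη'
    obtain ⟨m', hm'⟩ := hatt η' hη'
    obtain ⟨a, ha, h2⟩ := hm' (k * m') (by nlinarith) q (mem_closedBall_self hρ₀.le)
    have h3 : f^[k * m'] q = q := by
      rw [Function.iterate_mul]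
      exact Function.iterate_fixed hper m'
    rw [h3] at h2
    exact ⟨a, ha, h2⟩
  have hk : ∀ k, 1 ≤ k → ∃ r > 0, ∀ z, dist z q < r → r ≤ dist (f^[k] z) q := by
    intro k hk1
    have h1 : 0 < dist (f^[k] q) q := dist_pos.mpr (hne k hk1)
    set s := dist (f^[k] q) q with hs
    have h3 : {y' | dist (f^[k] y') (f^[k] q) < s / 2} ∈ 𝓝 q := by
      have hcont : Continuous fun y' => dist (f^[k] y') (f^[k] q) :=
        (f.continuous.iterate k).dist continuous_const
      exact (isOpen_lt hcont continuous_const).mem_nhds (by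
        show dist (f^[k] q) (f^[k] q) < s / 2
        rw [dist_self]; linarith)
    obtain ⟨r, hr, hb⟩ := Metric.mem_nhds_iff.mp h3
    refine ⟨min r (s / 2), lt_min hr (half_pos h1), fun z hz => ?_⟩
    have h4 : dist (f^[k] z) (f^[k] q) < s / 2 := hb (hz.trans_le (min_le_left _ _))
    have h5 := dist_triangle (f^[k] q) (f^[k] z) q
    rw [dist_comm (f^[k] q) (f^[k] z)] at h5
    have : min r (s / 2) ≤ s / 2 := min_le_right _ _
    linarith
  have hfin : ∀ M : ℕ, ∃ r > 0, ∀ k, 1 ≤ k → k < M → ∀ z, dist z q < r → r ≤ dist (f^[k] z) q := by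
    intro M
    induction M with
    | zero => exact ⟨1, one_pos, fun k _ h2 => absurd h2 (by omega)⟩
    | succ M ih =>
      obtain ⟨r, hr, hr'⟩ := ih
      rcases Nat.eq_zero_or_pos M with h0 | h0
      · exact ⟨1, one_pos, fun k h1 h2 => absurd h2 (by omega)⟩
      · obtain ⟨r₂, hr₂, hr₂'⟩ := hk M h0
        refine ⟨min r r₂, lt_min hr hr₂, fun k h1 h2 z hz => ?_⟩
        rcases Nat.lt_succ_iff_lt_or_eq.mp h2 with h3 | h3
        · exact (min_le_left _ _).trans (hr' k h1 h3 z (hz.trans_le (min_le_left _ _)))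
        · rw [h3]
          exact (min_le_right _ _).trans (hr₂' z (hz.trans_le (min_le_right _ _)))
  obtain ⟨r, hr, hr'⟩ := hfin m
  refine ⟨min r (min ρ₀ (η / 2)), lt_min hr (lt_min hρ₀ (half_pos hη)), fun k h1 z hz => ?_⟩
  rcases lt_or_ge k m with h2 | h2
  · exact (min_le_left _ _).trans (hr' k h1 h2 z (hz.trans_le (min_le_left _ _)))
  · have h3 : z ∈ closedBall q ρ₀ := by
      rw [mem_closedBall]
      exact (hz.trans_le ((min_le_right _ _).trans (min_le_left _ _))).le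
    obtain ⟨a, ha, h4⟩ := hm k h2 z h3
    have h5 := hηA a ha
    have h6 := dist_triangle q (f^[k] z) a
    rw [dist_comm q (f^[k] z)] at h6
    have h7 : min r (min ρ₀ (η / 2)) ≤ η / 2 := (min_le_right _ _).trans (min_le_right _ _)
    linarith

theorem Om_sub_of_bas {g : X ≃ₜ X} {A : Set X} (hA : IsAtt g A) {x : X} (hx : x ∈ Bas g A) :
    Om g x ⊆ A := by
  intro y hy
  obtain ⟨a, ha, hxa⟩ := hx
  rw [← hA.closed.closure_eq, Metric.mem_closure_iff]
  intro η hη
  obtain ⟨m, hm⟩ := hxa.eventually_lt (half_pos hη)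
  obtain ⟨n, hn, h2⟩ := mem_Om.mp hy _ (ball_mem_nhds y (half_pos hη)) m
  refine ⟨g^[n] a, (inv_iter hA.inv n a).mpr ha, ?_⟩
  have h3 := hm n hn
  have h4 := dist_triangle y (g^[n] x) (g^[n] a)
  rw [mem_ball, dist_comm] at h2
  linarith

/-- The connecting point is wandering for `f`. -/
theorem Pair.wandering_f [CompactSpace X] {f F : X ≃ₜ X} {n : ℕ} (hn : 0 < n)
    (hF : ∀ x, F x = f^[n] x) {c : ℝ} (h : LP F c) {A R : Set X} {q : X} (P : Pair F A R q) :
    ∃ ρ > 0, ∀ k ≥ 1, ∀ z, dist z q < ρ → ρ ≤ dist (f^[k] z) q := by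
  have hA' := fatt_of_att hn hF P.att.1
  set A' : Set X := {x | ∃ i : ℕ, f^[i] x ∈ A} with hA'd
  have hq : q ∉ A' := by
    rintro ⟨i, hi⟩
    let φ : X ≃ₜ X := Pool.Agent.H721R2.iterHomeo f i
    have hφ : ∀ y, φ y = f^[i] y := fun y => rfl
    have hcφ : ∀ y, φ (F y) = F (φ y) := by
      intro y
      have hk : ∀ (k : ℕ) (z : X), f^[k] (F z) = F (f^[k] z) := by
        intro k z
        induction k with
        | zero => rfl
        | succ k ih =>
          rw [Function.iterate_succ_apply', Function.iterate_succ_apply', ih, comm_of_pow hF]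
      rw [hφ, hφ, hk]
    have hM := MinAtt.preimage hcφ P.att
    obtain ⟨y, hy⟩ := Om_nonempty F q
    have h1 : y ∈ A := Om_sub_of_bas P.att.1 P.qA hy
    have h2 : y ∈ φ ⁻¹' A := Om_subset hM.1.closed hM.1.inv hi hy
    have h3 : A = φ ⁻¹' A := P.att.eq_of_meet hM ⟨y, h1, h2⟩
    apply P.nA
    rw [h3]
    exact hi
  have hqB : q ∈ Bas F A' := by
    obtain ⟨a, ha, hqa⟩ := P.qA
    exact ⟨a, ⟨0, ha⟩, hqa⟩
  have hopen := isOpen_bas h hA'.att
  obtain ⟨ρ₀, hρ₀, hball⟩ := Metric.isOpen_iff.mp hopen q hqB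
  have hK : closedBall q (ρ₀ / 2) ⊆ Bas F A' := fun y hy => hball (by
    rw [mem_ball]; rw [mem_closedBall] at hy; linarith)
  apply wander_gen hA'.att.closed hq (half_pos hρ₀)
  intro η hη
  obtain ⟨ε, hε, h1⟩ := unif_fin (fun i => f^[i]) (fun i => f.continuous.iterate i) n hη
  obtain ⟨m, hm⟩ := unif_attr h hA'.att (isCompact_closedBall q (ρ₀ / 2)) hK hε
  refine ⟨n * m, fun j hj y hy => ?_⟩
  have h3 : m ≤ j / n := (Nat.le_div_iff_mul_le hn).mpr (by rw [Nat.mul_comm]; exact hj)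
  obtain ⟨a', ha', h4⟩ := hm (j / n) h3 y hy
  refine ⟨f^[j % n] a', (inv_iter hA'.inv _ a').mpr ha', ?_⟩
  rw [mod_split hF]
  exact h1 _ (Nat.mod_lt j hn) _ _ h4

theorem tele {f : X ≃ₜ X} {ψ u : X → ℝ} (hu : ∀ x, u (f x) - u x = ψ x) (k : ℕ) (x : X) :
    u (f^[k] x) = u x + ∑ i ∈ Finset.range k, ψ (f^[i] x) := by
  induction k with
  | zero => simp
  | succ k ih =>
    rw [Finset.sum_range_succ, Function.iterate_succ_apply']
    have := hu (f^[k] x)
    linarith

/-- The attractor avoids wandering sets. -/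
theorem avoid [CompactSpace X] {f F : X ≃ₜ X} {n : ℕ} (hn : 0 < n)
    (hF : ∀ x, F x = f^[n] x) {c : ℝ} (h : LP F c) {A R : Set X} {q : X} (P : Pair F A R q)
    {B : Set X} (hB : IsOpen B) (hw : ∀ z ∈ B, ∀ i ≥ 1, f^[i] z ∉ B) :
    ∀ a ∈ A, ∀ i, f^[i] a ∉ B := by
  intro a ha i hi
  have hU : IsOpen ((f^[i]) ⁻¹' B) := hB.preimage (f.continuous.iterate i)
  obtain ⟨ε, hε, hball⟩ := Metric.isOpen_iff.mp hU a hi
  obtain ⟨T, hT⟩ := connect_unif h (isCompact_singleton (x := a)) (isCompact_singleton (x := a))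
    (by
      intro x hx y hy
      rw [mem_singleton_iff.mp hx, mem_singleton_iff.mp hy]
      exact P.Au_A h (subset_bas F A ha) ha) (half_pos hε) 1
  obtain ⟨k, hk1, -, z', hz1, hz2⟩ := hT a rfl a rfl
  have b1 : f^[i] z' ∈ B := hball (by
    rw [mem_ball, dist_comm]
    exact lt_of_le_of_lt (hz1 0) (by linarith))
  have b2 : f^[i] (F^[k] z') ∈ B := hball (by
    rw [mem_ball, dist_comm]
    exact lt_of_le_of_lt (hz2 0) (by linarith))
  rw [pow_iter hF, ← Function.iterate_add_apply, Nat.add_comm, Function.iterate_add_apply] at b2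
  exact hw _ b1 (n * k) (by nlinarith) b2

/-- One half of the computation of the value of a coboundary on a wandering set. -/
theorem coc_half [CompactSpace X] {f F : X ≃ₜ X} {n : ℕ} (hn : 0 < n)
    (hF : ∀ x, F x = f^[n] x) {c : ℝ} (h : LP F c) {A R : Set X} {q : X} (P : Pair F A R q)
    {ψ u : X → ℝ} (hc : Continuous u) (hA0 : ∀ a ∈ A, ∀ i, ψ (f^[i] a) = 0)
    (hu : ∀ x, u (f x) - u x = ψ x) {z a : X} (hz : z ∈ Bas F A) (ha : a ∈ A) {s : ℝ}
    (hs : ∀ k, ∑ i ∈ Finset.range (k + 1), ψ (f^[i] z) = s) : u z + s = u a := by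
  have hunif := Metric.uniformContinuous_iff.mp (CompactSpace.uniformContinuous_of_continuous hc)
  have huA : ∀ a ∈ A, ∀ k : ℕ, u (F^[k] a) = u a := by
    intro a ha k
    rw [pow_iter hF, tele hu, Finset.sum_eq_zero (fun i _ => hA0 a ha i), add_zero]
  have hconst : ∀ a ∈ A, ∀ b ∈ A, u a = u b := by
    intro a ha b hb
    by_contra hne
    have hpos : 0 < |u a - u b| := abs_pos.mpr (sub_ne_zero.mpr hne)
    obtain ⟨δ, hδ, h1⟩ := hunif (|u a - u b| / 2) (half_pos hpos)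
    obtain ⟨T, hT⟩ := connect_unif h (isCompact_singleton (x := a)) (isCompact_singleton (x := b))
      (by
        intro x hx y hy
        rw [mem_singleton_iff.mp hx, mem_singleton_iff.mp hy]
        exact P.Au_A h (subset_bas F A ha) hb) (lt_min (half_pos hδ) h.c_pos) 1
    obtain ⟨k, hk1, -, z', hz1, hz2⟩ := hT a rfl b rfl
    have hz'A : z' ∈ A := P.att.1.sat a ha z' (WS.of_SR (h.cU _ _ (hz1.mono (min_le_right _ _))))
    have b1 : dist a z' < δ := lt_of_le_of_lt ((hz1 0).trans (min_le_left _ _)) (by linarith)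
    have b2 : dist b (F^[k] z') < δ := lt_of_le_of_lt ((hz2 0).trans (min_le_left _ _)) (by linarith)
    have b3 := h1 b1
    have b4 := h1 b2
    rw [huA z' hz'A k] at b4
    rw [Real.dist_eq] at b3 b4
    have b5 := abs_sub_le (u a) (u z') (u b)
    rw [abs_sub_comm (u z') (u b)] at b5
    linarith
  obtain ⟨a', ha', hza⟩ := hz
  by_contra hne
  have hpos : 0 < |u z + s - u a| := abs_pos.mpr (sub_ne_zero.mpr hne)
  obtain ⟨δ, hδ, h1⟩ := hunif _ hpos
  obtain ⟨m, hm⟩ := hza.eventually_lt hδ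
  have h2 := h1 (hm (m + 1) (by omega))
  have h3 : u (F^[m + 1] z) = u z + s := by
    rw [pow_iter hF, tele hu]
    have e : n * (m + 1) = (n * (m + 1) - 1) + 1 := by
      have : 1 ≤ n * (m + 1) := by nlinarith
      omega
    rw [e, hs]
  rw [h3, huA a' ha', hconst a' ha' a ha, Real.dist_eq] at h2
  exact lt_irrefl _ h2

/-- A coboundary supported in a small wandering set is constant there. -/
theorem coc_key [CompactSpace X] {f F : X ≃ₜ X} {n : ℕ} (hn : 0 < n)
    (hF : ∀ x, F x = f^[n] x) {c : ℝ} (h : LP F c) {A R : Set X} {q : X} (P : Pair F A R q) :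
    ∃ B : Set X, IsOpen B ∧ B.Nonempty ∧ (∀ z ∈ B, ∀ i ≥ 1, f^[i] z ∉ B) ∧
      ∀ ψ u : X → ℝ, Continuous u → (∀ x ∉ B, ψ x = 0) → (∀ x, u (f x) - u x = ψ x) →
        ∀ x ∈ B, ∀ y ∈ B, ψ x = ψ y := by
  obtain ⟨ρ, hρ, hw⟩ := P.wandering_f hn hF h
  set B : Set X := ball q ρ ∩ (Bas F A ∩ Bas F.symm R) with hBd
  have hB : IsOpen B := isOpen_ball.inter ((isOpen_bas h P.att.1).inter (isOpen_bas h.symm P.rep.1))
  have hwB : ∀ z ∈ B, ∀ i ≥ 1, f^[i] z ∉ B := fun z hz i hi hcon =>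
    absurd (mem_ball.mp hcon.1) (not_lt.mpr (hw i hi z hz.1))
  have hwB' : ∀ z ∈ B, ∀ i ≥ 1, f.symm^[i] z ∉ B := fun z hz i hi hcon =>
    hwB _ hcon i hi (by rw [iterR]; exact hz)
  refine ⟨B, hB, ⟨q, mem_ball_self hρ, P.qA, P.qR⟩, hwB, fun ψ u hc h0 hu => ?_⟩
  obtain ⟨a, ha⟩ := P.att.1.nonempty
  obtain ⟨r, hr⟩ := P.rep.1.nonempty
  have hAB := avoid hn hF h P hB hwB
  have hRB := avoid hn (pow_symm hF) h.symm P.symm hB hwB'
  have key : ∀ x ∈ B, ψ x = u a - u r := by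
    intro x hx
    have h1 := coc_half hn hF h P hc (fun a ha i => h0 _ (hAB a ha i)) hu (z := x) (s := ψ x)
      hx.2.1 ha (fun k => by
        rw [Finset.sum_range_succ', Finset.sum_eq_zero
          (fun i _ => h0 _ (hwB x hx (i + 1) (by omega))), zero_add]
        rfl)
    have h2 := coc_half (ψ := fun x => - ψ (f.symm x)) (u := u) (z := x)
      (a := r) (s := 0) hn (pow_symm hF) h.symm P.symm hc
      (fun a ha i => by
        show - ψ (f.symm (f.symm^[i] a)) = 0
        rw [← Function.iterate_succ_apply' f.symm i a, h0 _ (hRB a ha (i + 1)), neg_zero])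
      (fun z => by
        have := hu (f.symm z)
        rw [f.apply_symm_apply] at this
        linarith)
      hx.2.2 hr
      (fun k => by
        apply Finset.sum_eq_zero
        intro i _
        show - ψ (f.symm (f.symm^[i] x)) = 0
        rw [← Function.iterate_succ_apply' f.symm i x, h0 _ (hwB' x hx (i + 1) (by omega)),
          neg_zero])
    linarith
  intro x hx y hy
  rw [key x hx, key y hy]

end Pool.Agent.H922R3
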