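import Pool.Agent.H922R3.Ext

set_option autoImplicit false
set_option linter.unusedSectionVars false

open scoped Manifold ContDiff Topology Bundle
open Set Filter Bundle

namespace Pool.Agent.H922R3

open Pool.Agent.H721R2 Pool.Agent.H789R2.AN

section main

variable {E : Type*} [NormedAddCommGroup E] [NormedSpace ℝ E] [FiniteDimensional ℝ E]
  {M : Type*} [TopologicalSpace M] [T2Space M] [CompactSpace M] [ConnectedSpace M]
  [ChartedSpace E M] [IsManifold 𝓘(ℝ, E) ∞ M]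
  {E' : Type*} [NormedAddCommGroup E'] [NormedSpace ℝ E'] [FiniteDimensional ℝ E']
  {N : Type*} [TopologicalSpace N] [T2Space N] [CompactSpace N] [ConnectedSpace N]
  [ChartedSpace E' N] [IsManifold 𝓘(ℝ, E') ∞ N]

theorem man_ext (f : Diffeomorph 𝓘(ℝ, E) 𝓘(ℝ, E) M M 1)
    (Es Eu : ∀ x : M, Submodule ℝ (TangentSpace 𝓘(ℝ, E) x)) (hA : IsAnosov f Es Eu)
    (g : Diffeomorph 𝓘(ℝ, E') 𝓘(ℝ, E') N N 1)
    (Es' Eu' : ∀ x : N, Submodule ℝ (TangentSpace 𝓘(ℝ, E') x)) (hB : IsAnosov g Es' Eu')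
    (pr : M → N) (hc : Continuous pr) (ho : IsOpenMap pr) (hsemi : ∀ x, pr (f x) = g (pr x))
    (htr : TopTransitive g) (y : N)
    (hfib : ∀ a b : M, pr a = y → pr b = y → ∀ U V : Set M, IsOpen U → a ∈ U → IsOpen V → b ∈ V →
      ∃ j : ℕ, (f^[j] '' U ∩ V).Nonempty) : TopTransitive f := by
  obtain ⟨m, e, he, hemb, hinj⟩ := exists_embedding_euclidean_of_compact (I := 𝓘(ℝ, E)) (M := M)
  obtain ⟨m', e', he', hemb', hinj'⟩ :=
    exists_embedding_euclidean_of_compact (I := 𝓘(ℝ, E')) (M := N)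
  let _ : MetricSpace M := hemb.isEmbedding.comapMetricSpace e
  let _ : MetricSpace N := hemb'.isEmbedding.comapMetricSpace e'
  have hiso : ∀ x y : M, dist x y = ‖e x - e y‖ := fun x y => dist_eq_norm (e x) (e y)
  have hiso' : ∀ x y : N, dist x y = ‖e' x - e' y‖ := fun x y => dist_eq_norm (e' x) (e' y)
  have he1 : ContMDiff 𝓘(ℝ, E) (𝓡 m) 1 e := he.of_le (by simp)
  have he1' : ContMDiff 𝓘(ℝ, E') (𝓡 m') 1 e' := he'.of_le (by simp)
  obtain ⟨n, S, hg, -, -, -⟩ := exists_sys hiso he1 hinj f Es Eu hA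
  obtain ⟨n', S', hg', -, -, -⟩ := exists_sys hiso' he1' hinj' g Es' Eu' hB
  obtain ⟨c, hLP⟩ := exists_LP S
  obtain ⟨c', hLP'⟩ := exists_LP S'
  have hgi : ∀ x, S.g x = f.toHomeomorph^[n] x := fun x => by
    rw [hg]; rfl
  have hgi' : ∀ x, S'.g x = g.toHomeomorph^[n'] x := fun x => by
    rw [hg']; rfl
  intro U V hU hUn hV hVn
  rcases Nat.eq_zero_or_pos n' with h0' | h0'
  · obtain ⟨a, ha⟩ := hUn
    obtain ⟨b, hb⟩ := hVn
    exact hfib a b (eq_of_zero h0' hgi' hLP' _ _) (eq_of_zero h0' hgi' hLP' _ _) U V hU ha hV hb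
  rcases Nat.eq_zero_or_pos n with h0 | h0
  · obtain ⟨x, hx⟩ := hUn
    obtain ⟨y, hy⟩ := hVn
    refine ⟨0, x, ⟨x, hx, rfl⟩, ?_⟩
    rw [eq_of_zero h0 hgi hLP x y]
    exact hy
  · have hun := ext_main (f := f.toHomeomorph) (g := g.toHomeomorph) h0 hgi hLP h0' hgi' hLP' hc ho
      hsemi htr y hfib
    obtain ⟨k, hk⟩ := transitive_of_unique hLP hun U V hU hUn hV hVn
    refine ⟨n * k, ?_⟩
    have h1 : S.g^[k] = f^[n * k] := by
      funext x
      exact pow_iter hgi k x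
    rw [h1] at hk
    exact hk

end main

end Pool.Agent.H922R3
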