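import Pool.Agent.H922R3.Liv

set_option autoImplicit false
set_option linter.unusedSectionVars false

open scoped Manifold ContDiff Topology Bundle
open Set Filter Bundle

namespace Pool.Agent.H922R3

open Pool.Agent.H721R2 Pool.Agent.H789R2.AN

section main

variable {E : Type*} [NormedAddCommGroup E] [NormedSpace ℝ E] [FiniteDimensional ℝ E]
  {M : Type*} [TopologicalSpace M] [T2Space M] [CompactSpace M] [ConnectedSpace M]
  [ChartedSpace E M] [IsManifold 𝓘(ℝ, E) ∞ M]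

/-- The combinatorial part. -/
theorem defect_aux (f : M → M) (V : Submodule ℝ (M → ℝ)) [FiniteDimensional ℝ V]
    (hV : ∀ ψ : M → ℝ, ContMDiff 𝓘(ℝ, E) 𝓘(ℝ, ℝ) ∞ ψ →
      (∀ (n : ℕ) (p : M), f^[n] p = p → ∑ i ∈ Finset.range n, ψ (f^[i] p) = 0) →
      ∃ v ∈ V, ∃ u : M → ℝ, Continuous u ∧ ∀ x, ψ x = v x + (u (f x) - u x))
    (B : Set M) (hB : IsOpen B) (hne : B.Nonempty) (hw : ∀ z ∈ B, ∀ i ≥ 1, f^[i] z ∉ B)
    (hnt : ∃ a b : M, a ≠ b)
    (hkey : ∀ ψ u : M → ℝ, Continuous u → (∀ x ∉ B, ψ x = 0) → (∀ x, u (f x) - u x = ψ x) →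
        ∀ x ∈ B, ∀ y ∈ B, ψ x = ψ y) : False := by
  classical
  have hper : ∀ (n : ℕ) (p : M), f^[n] p = p → ∀ i < n, f^[i] p ∉ B := by
    intro n p hp i hi hiB
    apply hw _ hiB n (by omega)
    rw [← Function.iterate_add_apply, Nat.add_comm, Function.iterate_add_apply, hp]
    exact hiB
  obtain ⟨q, hq⟩ := hne
  have : Nontrivial M := ⟨hnt⟩
  have hinf : B.Infinite := infinite_of_mem_nhds q (hB.mem_nhds hq)
  set pt : ℕ → M := fun i => (hinf.natEmbedding B i : M) with hpt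
  have hptB : ∀ i, pt i ∈ B := fun i => (hinf.natEmbedding B i).2
  have hptinj : Function.Injective pt := fun i j hij =>
    (hinf.natEmbedding B).injective (Subtype.ext hij)
  set d := Module.finrank ℝ V with hd
  have hfun : ∀ i : Fin (d + 1), ∃ ψ : M → ℝ, ContMDiff 𝓘(ℝ, E) 𝓘(ℝ, ℝ) ∞ ψ ∧
      (∀ x ∉ B, ψ x = 0) ∧ (∀ j ≤ d + 1, j ≠ i → ψ (pt j) = 0) ∧ ψ (pt i) = 1 := by
    intro i
    have hs : IsClosed (Bᶜ ∪ pt '' ((Finset.range (d + 2)).erase i : Finset ℕ)) :=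
      hB.isClosed_compl.union (((Finset.finite_toSet _).image pt).isClosed)
    have ht : IsClosed ({pt i} : Set M) := isClosed_singleton
    have hdis : Disjoint (Bᶜ ∪ pt '' ((Finset.range (d + 2)).erase i : Finset ℕ))
        ({pt i} : Set M) := by
      rw [Set.disjoint_singleton_right]
      rintro (hc | ⟨j, hj, he⟩)
      · exact hc (hptB i)
      · rw [Finset.mem_coe, Finset.mem_erase] at hj
        exact hj.1 (hptinj he)
    obtain ⟨ψ, h1, h2, -⟩ := exists_contMDiffMap_zero_one_of_isClosed (n := ⊤) 𝓘(ℝ, E) hs ht hdis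
    refine ⟨ψ, ψ.contMDiff, fun x hx => h1 (Or.inl hx), fun j hj hji => h1 (Or.inr ⟨j, ?_, rfl⟩),
      h2 rfl⟩
    rw [Finset.mem_coe, Finset.mem_erase, Finset.mem_range]
    exact ⟨hji, by omega⟩
  choose ψ hψs hψ0 hψj hψ1 using hfun
  have hcoh : ∀ i : Fin (d + 1), ∃ v : V, ∃ u : M → ℝ, Continuous u ∧
      ∀ x, ψ i x = (v : M → ℝ) x + (u (f x) - u x) := by
    intro i
    obtain ⟨v, hv, u, hu, he⟩ := hV (ψ i) (hψs i) (fun n p hp =>
      Finset.sum_eq_zero fun j hj => hψ0 i _ (hper n p hp j (Finset.mem_range.mp hj)))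
    exact ⟨⟨v, hv⟩, u, hu, he⟩
  choose v u hu he using hcoh
  have hdep : ¬ LinearIndependent ℝ v := by
    intro hli
    have h1 := hli.fintype_card_le_finrank
    rw [Fintype.card_fin] at h1
    omega
  obtain ⟨a, hsum, i₀, hi₀⟩ := Fintype.not_linearIndependent_iff.mp hdep
  have hsum' : ∀ x, ∑ i, a i * (v i : M → ℝ) x = 0 := by
    intro x
    have h1 := congrArg (fun w : V => (w : M → ℝ) x) hsum
    simpa using h1
  have h1 := hkey (fun x => ∑ i, a i * ψ i x) (fun x => ∑ i, a i * u i x)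
    (continuous_finsetSum _ fun i _ => continuous_const.mul (hu i))
    (fun x hx => Finset.sum_eq_zero fun i _ => by rw [hψ0 i x hx, mul_zero])
    (fun x => by
      show ∑ i, a i * u i (f x) - ∑ i, a i * u i x = ∑ i, a i * ψ i x
      rw [← Finset.sum_sub_distrib]
      have e : ∑ i, a i * ψ i x = ∑ i, a i * (v i : M → ℝ) x +
          ∑ i, (a i * u i (f x) - a i * u i x) := by
        rw [← Finset.sum_add_distrib]
        apply Finset.sum_congr rfl
        intro i _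
        rw [he i x]
        ring
      rw [e, hsum', zero_add])
    (pt i₀) (hptB _) (pt (d + 1)) (hptB _)
  have h2 : ∑ i, a i * ψ i (pt i₀) = a i₀ := by
    rw [Finset.sum_eq_single i₀]
    · rw [hψ1, mul_one]
    · intro j _ hj
      rw [hψj j i₀ (by omega) (fun hc => hj (Fin.ext hc.symm)), mul_zero]
    · intro hc
      exact absurd (Finset.mem_univ i₀) hc
  have h3 : ∑ i, a i * ψ i (pt (d + 1)) = 0 := by
    apply Finset.sum_eq_zero
    intro j _
    rw [hψj j (d + 1) le_rfl (by have := j.2; omega), mul_zero]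
  rw [h2, h3] at h1
  exact hi₀ h1

theorem man_livsic (f : Diffeomorph 𝓘(ℝ, E) 𝓘(ℝ, E) M M 1)
    (Es Eu : ∀ x : M, Submodule ℝ (TangentSpace 𝓘(ℝ, E) x)) (hA : IsAnosov f Es Eu)
    (V : Submodule ℝ (M → ℝ)) [FiniteDimensional ℝ V]
    (hV : ∀ ψ : M → ℝ, ContMDiff 𝓘(ℝ, E) 𝓘(ℝ, ℝ) ∞ ψ →
      (∀ (n : ℕ) (p : M), f^[n] p = p → ∑ i ∈ Finset.range n, ψ (f^[i] p) = 0) →
      ∃ v ∈ V, ∃ u : M → ℝ, Continuous u ∧ ∀ x, ψ x = v x + (u (f x) - u x)) :
    TopTransitive f := by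
  obtain ⟨m, e, he, hemb, hinj⟩ := exists_embedding_euclidean_of_compact (I := 𝓘(ℝ, E)) (M := M)
  let _ : MetricSpace M := hemb.isEmbedding.comapMetricSpace e
  have hiso : ∀ x y : M, dist x y = ‖e x - e y‖ := fun x y => dist_eq_norm (e x) (e y)
  have he1 : ContMDiff 𝓘(ℝ, E) (𝓡 m) 1 e := he.of_le (by simp)
  obtain ⟨n, S, hg, -, -, -⟩ := exists_sys hiso he1 hinj f Es Eu hA
  obtain ⟨c, hLP⟩ := exists_LP S
  have hgi : ∀ x, S.g x = f.toHomeomorph^[n] x := fun x => by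
    rw [hg]; rfl
  intro U W hU hUn hW hWn
  rcases Nat.eq_zero_or_pos n with h0 | h0
  · obtain ⟨x, hx⟩ := hUn
    obtain ⟨y, hy⟩ := hWn
    refine ⟨0, x, ⟨x, hx, rfl⟩, ?_⟩
    rw [eq_of_zero h0 hgi hLP x y]
    exact hy
  · have hun : ∀ A, IsAtt S.g A → A = univ := by
      intro A₀ hA₀
      by_contra hne
      obtain ⟨A, R, q, P⟩ := exists_pair hLP ⟨A₀, hA₀, hne⟩
      obtain ⟨B, hB, hBn, hw, hkey⟩ := coc_key (f := f.toHomeomorph) h0 hgi hLP P
      obtain ⟨a, ha⟩ := P.att.1.nonempty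
      exact defect_aux f V hV B hB hBn hw ⟨a, q, fun hc => P.nA (hc ▸ ha)⟩ hkey
    obtain ⟨k, hk⟩ := transitive_of_unique hLP hun U W hU hUn hW hWn
    refine ⟨n * k, ?_⟩
    have h1 : S.g^[k] = f^[n * k] := by
      funext x
      exact pow_iter hgi k x
    rw [h1] at hk
    exact hk

end main

end Pool.Agent.H922R3
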