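import Pool.Agent.H922R3.Final
import Pool.Agent.H922R3.Conv

set_option autoImplicit false
set_option linter.unusedSectionVars false

open scoped Manifold ContDiff Topology Bundle
open Set Filter Bundle MeasureTheory

namespace Pool.Agent.H922R3

open Pool.Agent.H721R2 Pool.Agent.H789R2.AN

/-- The points whose forward orbit stays `O`-close to the forward orbit of `x`. -/
def Plaque {M : Type*} (f : M → M) (O : Set (M × M)) (x : M) : Set M :=
  {y | ∀ n : ℕ, (f^[n] x, f^[n] y) ∈ O}

/-- A family of measures on the stable leaves of `f` (the measure `ν x` is attached to the leaf of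
`x`, the set of points forward asymptotic to `x`), finite on uniformly small plaques, positive
on all plaques, and invariant, up to a uniform factor `D`, under the holonomy along the unstable
leaves: `φ` moves each point `z` of the compact subset `K` of the stable leaf of `x` within the
unstable leaf of `z` to a point of the stable leaf of `y`. -/
structure TransverseFamily {M : Type*} [TopologicalSpace M] [MeasurableSpace M] (f : M ≃ₜ M)
    (ν : M → Measure M) : Prop where
  leaf : ∀ x y, Asymp f x y → ν x = ν y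
  fin : ∃ O ∈ 𝓝ˢ (diagonal M), ∀ x, ν x (Plaque f O x) < ⊤
  pos : ∀ O ∈ 𝓝ˢ (diagonal M), ∀ x, 0 < ν x (Plaque f O x)
  hol : ∃ D : ENNReal, D < ⊤ ∧ ∀ (x y : M) (K : Set M) (φ : M → M), IsCompact K →
    ContinuousOn φ K → InjOn φ K → (∀ z ∈ K, Asymp f x z) → (∀ z ∈ K, Asymp f y (φ z)) →
    (∀ z ∈ K, Asymp f.symm z (φ z)) → ν x K ≤ D * ν y (φ '' K)

section metric

variable {X : Type*} [MetricSpace X] [MeasurableSpace X]

theorem TM_of_family [CompactSpace X] {f g : X ≃ₜ X} {n : ℕ} (hn : 0 < n)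
    (hg : ∀ x, g x = f^[n] x) {ν : X → Measure X} (h : TransverseFamily f ν) : TM g ν := by
  refine ⟨fun x y hxy => h.leaf x y ((asymp_iff_WS hn hg).mpr hxy), ?_, ?_, ?_⟩
  · obtain ⟨O, hO, hfin⟩ := h.fin
    rw [nhdsSet_diagonal_eq_uniformity] at hO
    have h1 : ∀ j : ℕ, ∃ r > 0, ∀ x y : X, dist x y < r → (f^[j] x, f^[j] y) ∈ O := by
      intro j
      have hu := CompactSpace.uniformContinuous_of_continuous (f.continuous.iterate j)
      have h2 := Filter.mem_map.mp (hu hO)
      obtain ⟨r, hr, h3⟩ := Metric.mem_uniformity_dist.mp h2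
      exact ⟨r, hr, fun x y hxy => h3 hxy⟩
    have h2 : ∀ N : ℕ, ∃ r > 0, ∀ j < N, ∀ x y : X, dist x y < r → (f^[j] x, f^[j] y) ∈ O := by
      intro N
      induction N with
      | zero => exact ⟨1, one_pos, fun j hj => absurd hj (by omega)⟩
      | succ N ih =>
        obtain ⟨r, hr, hr'⟩ := ih
        obtain ⟨s, hs, hs'⟩ := h1 N
        refine ⟨min r s, lt_min hr hs, fun j hj x y hxy => ?_⟩
        rcases Nat.lt_succ_iff_lt_or_eq.mp hj with h3 | h3
        · exact hr' j h3 x y (hxy.trans_le (min_le_left _ _))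
        · rw [h3]
          exact hs' x y (hxy.trans_le (min_le_right _ _))
    obtain ⟨r, hr, hr'⟩ := h2 n
    refine ⟨r / 2, half_pos hr, fun x => lt_of_le_of_lt (measure_mono ?_) (hfin x)⟩
    intro z hz m
    have e1 : m = m % n + n * (m / n) := (Nat.mod_add_div m n).symm
    have h3 := hr' (m % n) (Nat.mod_lt m hn) (g^[m / n] x) (g^[m / n] z)
      (lt_of_le_of_lt (hz (m / n)) (by linarith))
    rw [pow_iter hg, pow_iter hg, ← Function.iterate_add_apply, ← Function.iterate_add_apply,
      ← e1] at h3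
    exact h3
  · intro r hr x
    have hO : {p : X × X | dist p.1 p.2 < r} ∈ 𝓝ˢ (diagonal X) := by
      rw [nhdsSet_diagonal_eq_uniformity]
      exact Metric.dist_mem_uniformity hr
    refine lt_of_lt_of_le (h.pos _ hO x) (measure_mono ?_)
    intro z hz k
    have h1 := hz (n * k)
    rw [pow_iter hg, pow_iter hg]
    exact (le_of_lt h1)
  · obtain ⟨D, hD, hhol⟩ := h.hol
    refine ⟨D, hD.ne, fun x y K φ hK hc hi h1 h2 h3 => ?_⟩
    exact hhol x y K φ hK hc hi (fun z hz => (asymp_iff_WS hn hg).mpr (h1 z hz))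
      (fun z hz => (asymp_iff_WS hn hg).mpr (h2 z hz))
      (fun z hz => (asymp_iff_WS hn (pow_symm hg)).mpr (h3 z hz))

end metric

section main

variable {E : Type*} [NormedAddCommGroup E] [NormedSpace ℝ E] [FiniteDimensional ℝ E]
  {M : Type*} [TopologicalSpace M] [T2Space M] [CompactSpace M] [ConnectedSpace M]
  [ChartedSpace E M] [IsManifold 𝓘(ℝ, E) ∞ M] [MeasurableSpace M] [BorelSpace M]

theorem man_measures (f : Diffeomorph 𝓘(ℝ, E) 𝓘(ℝ, E) M M 1)
    (Es Eu : ∀ x : M, Submodule ℝ (TangentSpace 𝓘(ℝ, E) x)) (hA : IsAnosov f Es Eu)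
    (μs μu : M → Measure M) (hs : TransverseFamily f.toHomeomorph μs)
    (hu : TransverseFamily f.toHomeomorph.symm μu) : TopTransitive f := by
  obtain ⟨m, e, he, hemb, hinj⟩ := exists_embedding_euclidean_of_compact (I := 𝓘(ℝ, E)) (M := M)
  let _ : MetricSpace M := hemb.isEmbedding.comapMetricSpace e
  have hiso : ∀ x y : M, dist x y = ‖e x - e y‖ := fun x y => dist_eq_norm (e x) (e y)
  have he1 : ContMDiff 𝓘(ℝ, E) (𝓡 m) 1 e := he.of_le (by simp)
  obtain ⟨n, S, hg, -, -, -⟩ := exists_sys hiso he1 hinj f Es Eu hA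
  obtain ⟨c, hLP⟩ := exists_LP S
  have hgi : ∀ x, S.g x = f.toHomeomorph^[n] x := fun x => by
    rw [hg]; rfl
  intro U V hU hUn hV hVn
  rcases Nat.eq_zero_or_pos n with h0 | h0
  · obtain ⟨x, hx⟩ := hUn
    obtain ⟨y, hy⟩ := hVn
    refine ⟨0, x, ⟨x, hx, rfl⟩, ?_⟩
    rw [eq_of_zero h0 hgi hLP x y]
    exact hy
  · obtain ⟨k, hk⟩ := trans_of_TM hLP (TM_of_family h0 hgi hs)
      (TM_of_family h0 (pow_symm hgi) hu) U V hU hUn hV hVn
    refine ⟨n * k, ?_⟩
    have h1 : S.g^[k] = f^[n * k] := by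
      funext x
      exact pow_iter hgi k x
    rw [h1] at hk
    exact hk

end main

end Pool.Agent.H922R3
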