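import Pool.Agent.H922R3.Base

set_option autoImplicit false

open Filter Topology Set Metric

namespace Pool.Agent.H922R3

open Pool.Agent.H789R2.AN

variable {X : Type*} [MetricSpace X]

theorem tendsto_chalf (c : ℝ) : Tendsto (fun n : ℕ => c * (1 / 2 : ℝ) ^ n) atTop (𝓝 0) := by
  have := (tendsto_pow_atTop_nhds_zero_of_lt_one (by norm_num : (0:ℝ) ≤ 1 / 2)
    (by norm_num)).const_mul c
  simpa using this

/-- Compact subsets of the basin are uniformly attracted. -/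
theorem unif_attr {g : X ≃ₜ X} {c : ℝ} (h : LP g c) {A : Set X} (hA : IsAtt g A) {K : Set X}
    (hK : IsCompact K) (hKA : K ⊆ Bas g A) {η : ℝ} (hη : 0 < η) :
    ∃ m : ℕ, ∀ n ≥ m, ∀ y ∈ K, ∃ a ∈ A, dist (g^[n] y) a < η := by
  obtain ⟨δ, hδ, hnear⟩ := h.near
  obtain ⟨N, hN⟩ := eventually_atTop.mp ((tendsto_order.mp (tendsto_chalf c)).2 η hη)
  have hloc : ∀ y₀, y₀ ∈ K → ∃ m : ℕ, ∃ r > 0, ∀ y, dist y y₀ < r → ∀ n ≥ m,
      ∃ a ∈ A, dist (g^[n] y) a < η := by
    intro y₀ hy₀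
    obtain ⟨z, hz, hyz⟩ := hKA hy₀
    obtain ⟨m, hm⟩ := hyz.eventually_lt hδ
    have h2 := hm m le_rfl
    have h3 : {y' | dist (g^[m] y') (g^[m] z) < δ} ∈ 𝓝 y₀ := by
      have hcont : Continuous fun y' => dist (g^[m] y') (g^[m] z) :=
        (g.continuous.iterate m).dist continuous_const
      exact (isOpen_lt hcont continuous_const).mem_nhds h2
    obtain ⟨r, hr, hball⟩ := Metric.mem_nhds_iff.mp h3
    refine ⟨m + N, r, hr, fun y hy n hn => ?_⟩
    have hy' : dist (g^[m] y) (g^[m] z) < δ := hball hy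
    obtain ⟨z', hz', h4⟩ := hnear A hA _ ((inv_iter hA.inv m z).mpr hz) _ hy'
    have h5 := h.cS _ _ h4 (n - m)
    refine ⟨g^[n - m] z', (inv_iter hA.inv _ z').mpr hz', ?_⟩
    rw [← Function.iterate_add_apply] at h5
    have e : n - m + m = n := by omega
    rw [e] at h5
    exact lt_of_le_of_lt h5 (hN (n - m) (by omega))
  choose! m r hr hloc using hloc
  obtain ⟨t, ht, hcov⟩ := hK.elim_nhds_subcover (fun y => ball y (r y))
    (fun y hy => ball_mem_nhds y (hr y hy))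
  refine ⟨t.sup m, fun n hn y hy => ?_⟩
  obtain ⟨p, hp, hyp⟩ := mem_iUnion₂.mp (hcov hy)
  exact hloc p (ht p hp) y hyp n ((Finset.le_sup hp).trans hn)

theorem IsAtt.compl_bas [CompactSpace X] {g : X ≃ₜ X} {c : ℝ} (h : LP g c) {A : Set X}
    (hA : IsAtt g A) (hne : ((Bas g A)ᶜ).Nonempty) : IsAtt g.symm (Bas g A)ᶜ := by
  have hRinv : ∀ x, g x ∈ (Bas g A)ᶜ ↔ x ∈ (Bas g A)ᶜ := fun x => by
    rw [mem_compl_iff, mem_compl_iff, bas_map (fun _ => rfl) hA.inv]
  refine ⟨(isOpen_bas h hA).isClosed_compl, hne, inv_symm hRinv, ?_⟩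
  intro x hx y hxy hy
  obtain ⟨z, hz, hyz⟩ := hy
  exact hx ⟨z, hz, WS.trans hxy hyz⟩

/-- An attractor meeting a minimal repeller contains it. -/
theorem meet_rep [CompactSpace X] {g : X ≃ₜ X} {c : ℝ} (h : LP g c) {A R : Set X}
    (hA : IsAtt g A) (hR : MinAtt g.symm R) (hne : (A ∩ R).Nonempty) : R ⊆ A := by
  have h1 : R ⊆ Bas g A := by
    by_contra hcon
    obtain ⟨x, hxR, hxB⟩ := not_subset.mp hcon
    have hc := IsAtt.compl_bas h hA ⟨x, hxB⟩
    have h2 : R ⊆ (Bas g A)ᶜ := hR.subset_of_meet hc ⟨x, hxR, hxB⟩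
    obtain ⟨y, hyA, hyR⟩ := hne
    exact h2 hyR (subset_bas g A hyA)
  have hinv : ∀ x, g x ∈ R ↔ x ∈ R := fun x => (inv_symm hR.1.inv x)
  intro x hx
  rw [← hA.closed.closure_eq, Metric.mem_closure_iff]
  intro η hη
  obtain ⟨m, hm⟩ := unif_attr h hA hR.1.closed.isCompact h1 hη
  have h2 : g.symm^[m] x ∈ R := (inv_iter hR.1.inv m x).mpr hx
  obtain ⟨a, ha, h3⟩ := hm m le_rfl _ h2
  rw [iterR] at h3
  exact ⟨a, ha, h3⟩

/-- A closed set saturated in both directions is open. -/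
theorem univ_of_bi [ConnectedSpace X] {g : X ≃ₜ X} {c : ℝ} (h : LP g c) {A : Set X}
    (hA : IsAtt g A) (hA' : IsAtt g.symm A) : A = univ := by
  have hopen : IsOpen A := by
    rw [Metric.isOpen_iff]
    intro x hx
    obtain ⟨δ, hδ, hlp⟩ := h.lp c h.c_pos
    refine ⟨δ, hδ, fun y hy => ?_⟩
    obtain ⟨z, hz1, hz2⟩ := hlp x y (by rw [dist_comm]; exact hy)
    have hz : z ∈ A := hA'.sat x hx z (WS.of_SR (h.cS _ _ hz1))
    exact hA.sat z hz y (WS.of_SR (h.cU _ _ hz2)).symm'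
  exact IsClopen.eq_univ ⟨hA.closed, hopen⟩ hA.nonempty

/-- Not transitive: a minimal attractor, a minimal repeller and a connecting point. -/
structure Pair (g : X ≃ₜ X) (A R : Set X) (q : X) : Prop where
  att : MinAtt g A
  rep : MinAtt g.symm R
  disj : Disjoint A R
  qA : q ∈ Bas g A
  qR : q ∈ Bas g.symm R
  nA : q ∉ A
  nR : q ∉ R

theorem sat_att [CompactSpace X] {g : X ≃ₜ X} {c : ℝ} (h : LP g c) {S₀ : Set X}
    (hi : ∀ y, g y ∈ S₀ ↔ y ∈ S₀) (hne : S₀.Nonempty) :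
    IsAtt g (closure {w | ∃ y ∈ S₀, WS g.symm y w}) := by
  set S : Set X := {w | ∃ y ∈ S₀, WS g.symm y w} with hS
  have hSsat : ∀ w ∈ S, ∀ w', WS g.symm w w' → w' ∈ S := by
    rintro w ⟨y, hy, hyw⟩ w' hww'
    exact ⟨y, hy, hyw.trans hww'⟩
  have hSinv : ∀ w, g w ∈ S ↔ w ∈ S := by
    intro w
    constructor
    · rintro ⟨y, hy, hyw⟩
      refine ⟨g.symm y, (inv_symm hi y).mpr hy, ?_⟩
      have := hyw.mapIter (φ := g.symm) (fun _ => rfl) 1
      simpa using this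
    · rintro ⟨y, hy, hyw⟩
      refine ⟨g y, (hi y).mpr hy, ?_⟩
      rw [← WS.iter 1]
      simpa using hyw
  refine ⟨isClosed_closure, ?_, ?_, closure_sat h hSsat⟩
  · obtain ⟨y, hy⟩ := hne
    exact ⟨y, subset_closure ⟨y, hy, WS.refl _ _⟩⟩
  · intro w
    have e1 : g ⁻¹' S = S := by
      ext w
      exact hSinv w
    have e2 := g.preimage_closure S
    rw [e1] at e2
    show g w ∈ closure S ↔ w ∈ closure S
    rw [← mem_preimage, e2]

theorem exists_pair [CompactSpace X] [ConnectedSpace X] {g : X ≃ₜ X} {c : ℝ} (h : LP g c)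
    (hnt : ∃ A, IsAtt g A ∧ A ≠ univ) : ∃ A R q, Pair g A R q := by
  obtain ⟨A₀, hA₀, hne⟩ := hnt
  obtain ⟨z, hz⟩ : ∃ z, z ∉ A₀ := by
    by_contra hcon
    push Not at hcon
    exact hne (eq_univ_of_forall hcon)
  obtain ⟨w, hw, -⟩ := exists_repeller h hA₀ hz
  have hR₀ := IsAtt.compl_bas h hA₀ ⟨w, hw⟩
  obtain ⟨R, hRR₀, hR⟩ := exists_minAtt hR₀
  have hRinv : ∀ x, g x ∈ R ↔ x ∈ R := fun x => (inv_symm hR.1.inv x)
  have hAR := sat_att h hRinv hR.1.nonempty
  obtain ⟨A, hAsub, hA⟩ := exists_minAtt hAR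
  have hdisj : Disjoint A R := by
    rw [Set.disjoint_iff_inter_eq_empty]
    by_contra hcon
    have hmeet : (A ∩ R).Nonempty := nonempty_iff_ne_empty.mpr hcon
    have h1 : R ⊆ A := meet_rep h hA.1 hR hmeet
    have hA' : MinAtt g.symm.symm A := hA
    have h2 : A ⊆ R := meet_rep h.symm hR.1 hA' (by rwa [inter_comm])
    have h3 : A = R := h2.antisymm h1
    have h4 : A = univ := univ_of_bi h hA.1 (h3 ▸ hR.1)
    obtain ⟨a, ha⟩ := hA₀.nonempty
    have h5 : a ∈ R := by rw [← h3, h4]; trivial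
    exact hRR₀ h5 (subset_bas g A₀ ha)
  obtain ⟨a, ha⟩ := hA.1.nonempty
  obtain ⟨q, hqA, r, hr, hrq⟩ := mem_closure_iff.mp (hAsub ha) (Bas g A) (isOpen_bas h hA.1)
    (subset_bas g A ha)
  have hqR : q ∈ Bas g.symm R := ⟨r, hr, hrq.symm'⟩
  refine ⟨A, R, q, hA, hR, hdisj, hqA, hqR, fun hq => ?_, fun hq => ?_⟩
  · exact Set.disjoint_left.mp hdisj (hA.1.sat q hq r hrq.symm') hr
  · obtain ⟨b, hb, hqb⟩ := hqA
    exact Set.disjoint_left.mp hdisj hb (hR.1.sat q hq b hqb)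

variable {g : X ≃ₜ X} {c : ℝ} {A R : Set X} {q : X}

theorem Pair.symm (P : Pair g A R q) : Pair g.symm R A q where
  att := P.rep
  rep := P.att
  disj := P.disj.symm
  qA := P.qR
  qR := P.qA
  nA := P.nR
  nR := P.nA

theorem Pair.Rinv (P : Pair g A R q) : ∀ x, g x ∈ R ↔ x ∈ R := fun x => (inv_symm P.rep.1.inv x)

theorem Pair.Au_A [CompactSpace X] (P : Pair g A R q) (h : LP g c) {x : X} (hx : x ∈ Bas g A) :
    A ⊆ Au g x := by
  have h1 : Om g x ⊆ A := by
    intro y hy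
    obtain ⟨a, ha, hxa⟩ := hx
    rw [← P.att.1.closed.closure_eq, Metric.mem_closure_iff]
    intro η hη
    obtain ⟨m, hm⟩ := hxa.eventually_lt (half_pos hη)
    obtain ⟨n, hn, h2⟩ := mem_Om.mp hy _ (ball_mem_nhds y (half_pos hη)) m
    refine ⟨g^[n] a, (inv_iter P.att.1.inv n a).mpr ha, ?_⟩
    have h3 := hm n hn
    have h4 := dist_triangle y (g^[n] x) (g^[n] a)
    rw [mem_ball, dist_comm] at h2
    linarith
  obtain ⟨y, hy⟩ := Om_nonempty g x
  exact P.att.subset_of_meet (Au_isAtt h x) ⟨y, h1 hy, Om_subset_Au g x hy⟩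

theorem Pair.Au_R [CompactSpace X] (P : Pair g A R q) (h : LP g c) {x : X} (hx : x ∈ R) :
    R ⊆ Au g x := by
  obtain ⟨y, hy⟩ := Om_nonempty g x
  have h1 : y ∈ R := Om_subset P.rep.1.closed P.Rinv hx hy
  exact meet_rep h (Au_isAtt h x) P.rep ⟨y, Om_subset_Au g x hy, h1⟩

/-- The connecting point is wandering. -/
theorem Pair.wandering [CompactSpace X] (P : Pair g A R q) (h : LP g c) :
    ∃ ρ > 0, ∀ k ≥ 1, ∀ z, dist z q < ρ → ρ ≤ dist (g^[k] z) q := by
  have hopen := isOpen_bas h P.att.1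
  obtain ⟨ρ₀, hρ₀, hball⟩ := Metric.isOpen_iff.mp hopen q P.qA
  have hρ₁ : 0 < ρ₀ / 2 := half_pos hρ₀
  have hK : closedBall q (ρ₀ / 2) ⊆ Bas g A := fun y hy => hball (by
    rw [mem_ball]; rw [mem_closedBall] at hy; linarith)
  obtain ⟨η, hη, hηA⟩ : ∃ η > 0, ∀ a ∈ A, η ≤ dist q a := by
    have h1 : q ∉ closure A := by rw [P.att.1.closed.closure_eq]; exact P.nA
    rw [Metric.mem_closure_iff] at h1
    push Not at h1
    exact h1
  obtain ⟨m, hm⟩ := unif_attr h P.att.1 (isCompact_closedBall q (ρ₀ / 2)) hK (half_pos hη)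
  -- the finitely many first iterates
  have hne : ∀ k, 1 ≤ k → g^[k] q ≠ q := by
    intro k hk hper
    apply P.nA
    rw [← P.att.1.closed.closure_eq, Metric.mem_closure_iff]
    intro η' hη'
    obtain ⟨m', hm'⟩ := unif_attr h P.att.1 (isCompact_singleton (x := q))
      (by rw [singleton_subset_iff]; exact P.qA) hη'
    obtain ⟨a, ha, h2⟩ := hm' (k * m') (by nlinarith) q rfl
    have h3 : g^[k * m'] q = q := by
      rw [Function.iterate_mul]
      exact Function.iterate_fixed hper m'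
    rw [h3] at h2
    exact ⟨a, ha, h2⟩
  have hk : ∀ k, 1 ≤ k → ∃ r > 0, ∀ z, dist z q < r → r ≤ dist (g^[k] z) q := by
    intro k hk1
    have h1 : 0 < dist (g^[k] q) q := dist_pos.mpr (hne k hk1)
    set s := dist (g^[k] q) q with hs
    have h3 : {y' | dist (g^[k] y') (g^[k] q) < s / 2} ∈ 𝓝 q := by
      have hcont : Continuous fun y' => dist (g^[k] y') (g^[k] q) :=
        (g.continuous.iterate k).dist continuous_const
      exact (isOpen_lt hcont continuous_const).mem_nhds (by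
        show dist (g^[k] q) (g^[k] q) < s / 2
        rw [dist_self]; linarith)
    obtain ⟨r, hr, hb⟩ := Metric.mem_nhds_iff.mp h3
    refine ⟨min r (s / 2), lt_min hr (half_pos h1), fun z hz => ?_⟩
    have h4 : dist (g^[k] z) (g^[k] q) < s / 2 := hb (hz.trans_le (min_le_left _ _))
    have h5 := dist_triangle (g^[k] q) (g^[k] z) q
    rw [dist_comm (g^[k] q) (g^[k] z)] at h5
    have : min r (s / 2) ≤ s / 2 := min_le_right _ _
    linarith
  have hfin : ∀ M : ℕ, ∃ r > 0, ∀ k, 1 ≤ k → k < M → ∀ z, dist z q < r → r ≤ dist (g^[k] z) q := by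
    intro M
    induction M with
    | zero => exact ⟨1, one_pos, fun k _ h2 => absurd h2 (by omega)⟩
    | succ M ih =>
      obtain ⟨r, hr, hr'⟩ := ih
      rcases Nat.eq_zero_or_pos M with h0 | h0
      · exact ⟨1, one_pos, fun k h1 h2 => absurd h2 (by omega)⟩
      · obtain ⟨r₂, hr₂, hr₂'⟩ := hk M h0
        refine ⟨min r r₂, lt_min hr hr₂, fun k h1 h2 z hz => ?_⟩
        rcases Nat.lt_succ_iff_lt_or_eq.mp h2 with h3 | h3
        · exact (min_le_left _ _).trans (hr' k h1 h3 z (hz.trans_le (min_le_left _ _)))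
        · rw [h3]
          exact (min_le_right _ _).trans (hr₂' z (hz.trans_le (min_le_right _ _)))
  obtain ⟨r, hr, hr'⟩ := hfin m
  refine ⟨min r (min (ρ₀ / 2) (η / 2)), lt_min hr (lt_min hρ₁ (half_pos hη)), fun k h1 z hz => ?_⟩
  rcases lt_or_ge k m with h2 | h2
  · exact (min_le_left _ _).trans (hr' k h1 h2 z (hz.trans_le (min_le_left _ _)))
  · have h3 : z ∈ closedBall q (ρ₀ / 2) := by
      rw [mem_closedBall]
      exact (hz.trans_le ((min_le_right _ _).trans (min_le_left _ _))).le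
    obtain ⟨a, ha, h4⟩ := hm k h2 z h3
    have h5 := hηA a ha
    have h6 := dist_triangle q (g^[k] z) a
    rw [dist_comm q (g^[k] z)] at h6
    have h7 : min r (min (ρ₀ / 2) (η / 2)) ≤ η / 2 := (min_le_right _ _).trans (min_le_right _ _)
    linarith

end Pool.Agent.H922R3
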